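import Pool.Agent.H41.NU.Def

/-! # NU.Big : large scales (about 60 lines)

`c * exp (G t + 1) * (1/2) ^ n < 1` for all natural `n ≥ exp (g t - 1)` and all large `t`, `g > 0`: `(1/2) ^ n ≤ exp (- log 2 * exp (g t - 1))`, and `log c + G t + 1 - log 2 * exp (g t - 1)` tends to minus infinity (`exp y ≥ y ^ 2 / 2` for `y ≥ 0`). `exists_small`: `x ^ δ` tends to `0` for `x → 0+`. -/

namespace H41.NU

theorem exists_large (c G g : ℝ) (hc : 0 < c) (hg : 0 < g) :
    ∃ T : ℝ, 1 ≤ T ∧ ∀ t : ℝ, T ≤ t → ∀ n : ℕ, Real.exp (g * t - 1) ≤ n →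
      c * Real.exp (G * t + 1) * (1 / 2 : ℝ) ^ n < 1 := by
  refine ⟨1 + 1 / g + 8 * (|G| + 2 + |Real.log c|) / g ^ 2, ?_, ?_⟩
  · have h1 : 0 ≤ 1 / g := by positivity
    have h2 : 0 ≤ 8 * (|G| + 2 + |Real.log c|) / g ^ 2 := by positivity
    linarith
  · intro t ht n hn
    have h1 : 0 ≤ 1 / g := by positivity
    have h2 : 0 ≤ 8 * (|G| + 2 + |Real.log c|) / g ^ 2 := by positivity
    have ht1 : 1 ≤ t := by linarith
    have ht2 : 1 / g ≤ t := by linarith
    have ht3 : 8 * (|G| + 2 + |Real.log c|) / g ^ 2 < t := by linarith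
    have hx : 0 ≤ g * t - 1 := by
      have := (div_le_iff₀ hg).1 ht2
      linarith
    have h3 : (g * t - 1) ^ 2 / 2 ≤ n := by
      have := Real.quadratic_le_exp_of_nonneg hx
      linarith
    have h4 : 8 * (|G| + 2 + |Real.log c|) < t * g ^ 2 := (div_lt_iff₀ (by positivity)).1 ht3
    have h5 : 8 * (|G| + 2 + |Real.log c|) * t < t * g ^ 2 * t :=
      mul_lt_mul_of_pos_right h4 (by linarith)
    have h6 : G * t ≤ |G| * t := mul_le_mul_of_nonneg_right (le_abs_self G) (by linarith)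
    have h7 : Real.log c ≤ |Real.log c| * t := by
      have := le_abs_self (Real.log c)
      have h0 := abs_nonneg (Real.log c)
      nlinarith
    have h8 : (g * t) ^ 2 / 8 - 1 / 4 ≤ (g * t - 1) ^ 2 / 4 := by nlinarith [sq_nonneg (g * t - 2)]
    have hlog : (1 / 2 : ℝ) < Real.log 2 := by
      have := Real.log_two_gt_d9
      linarith
    have hn0 : (0 : ℝ) ≤ n := Nat.cast_nonneg n
    have h9 : (n : ℝ) * (1 / 2) ≤ n * Real.log 2 := mul_le_mul_of_nonneg_left hlog.le hn0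
    have e1 : c * Real.exp (G * t + 1) * (1 / 2 : ℝ) ^ n =
        Real.exp (Real.log c + (G * t + 1) - n * Real.log 2) := by
      have e2 : (1 / 2 : ℝ) ^ n = Real.exp (-(n * Real.log 2)) := by
        rw [Real.exp_neg, mul_comm (n : ℝ), Real.exp_mul, Real.exp_log (by norm_num : (0 : ℝ) < 2),
          Real.rpow_natCast, one_div, inv_pow]
      have e3 : Real.exp (Real.log c + (G * t + 1)) = c * Real.exp (G * t + 1) := by
        rw [Real.exp_add (Real.log c), Real.exp_log hc]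
      rw [sub_eq_add_neg, Real.exp_add (Real.log c + (G * t + 1)), e2, e3]
    rw [e1]
    refine Real.exp_lt_one_iff.2 ?_
    have h10 : (|G| + 2 + |Real.log c|) * t < (g * t) ^ 2 / 8 := by nlinarith
    nlinarith

theorem exists_small (δ : ℝ) (hδ : 0 < δ) : ∃ x₀ : ℝ, 0 < x₀ ∧ ∀ x : ℝ, 0 < x → x ≤ x₀ → x ^ δ ≤ 1 / 4 := by
  refine ⟨(1 / 4 : ℝ) ^ (1 / δ), by positivity, fun x hx hle => ?_⟩
  calc x ^ δ ≤ ((1 / 4 : ℝ) ^ (1 / δ)) ^ δ := Real.rpow_le_rpow hx.le hle hδ.le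
    _ = (1 / 4 : ℝ) := by
        rw [← Real.rpow_mul (by norm_num), one_div_mul_cancel hδ.ne', Real.rpow_one]

end H41.NU
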