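import Pool.Agent.H41.NU.Def

/-! # NU.Dir : simultaneous approximation (about 50 lines)

Induction on `F`, with natural numbers: for all `η > 0` and `T` there is a natural number `N ≥ T`, `N ≥ 1`, such that `N β` has distance at most `η` from an integer for all `β ∈ F`. Empty `F`: any large `N`. Step `insert β F`: choose a natural
number `k₀ ≥ 1` with `1 / (k₀ + 1) ≤ η`, take `N` for `F` with `η / k₀`, and by `Real.exists_int_int_abs_mul_sub_le (N β) k₀` a number `1 ≤ k ≤ k₀` such that `k N β` has distance at most `1 / (k₀ + 1)` from an integer; `k N` works. -/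

namespace H41.NU

private theorem dir_nat (F : Finset ℝ) : ∀ η : ℝ, 0 < η → ∀ T : ℝ,
    ∃ N : ℕ, 1 ≤ N ∧ T ≤ N ∧ ∀ β ∈ F, ∃ n : ℤ, |(N : ℝ) * β - n| ≤ η := by
  classical
  induction F using Finset.induction_on with
  | empty =>
    intro η _ T
    obtain ⟨N, hN⟩ := exists_nat_ge (max T 1)
    refine ⟨N, ?_, (le_max_left _ _).trans hN, fun β hβ => absurd hβ (Finset.notMem_empty β)⟩
    exact_mod_cast (le_max_right T 1).trans hN
  | insert β₀ F _ ih =>
    intro η hη T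
    obtain ⟨k₀, hk₀⟩ := exists_nat_one_div_lt hη
    have hn : (0 : ℝ) < ((k₀ + 1 : ℕ) : ℝ) := by positivity
    obtain ⟨N, hN1, hNT, hN⟩ := ih (η / ((k₀ + 1 : ℕ) : ℝ)) (div_pos hη hn) T
    obtain ⟨j, k, hk, hkn, hj⟩ := Real.exists_int_int_abs_mul_sub_le ((N : ℝ) * β₀) (Nat.succ_pos k₀)
    obtain ⟨m, hm⟩ : ∃ m : ℕ, (m : ℤ) = k := ⟨k.toNat, Int.toNat_of_nonneg hk.le⟩
    have hmk : (m : ℝ) = (k : ℝ) := by exact_mod_cast hm
    have hm1 : 1 ≤ m := by omega
    have hm1' : (1 : ℝ) ≤ m := by exact_mod_cast hm1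
    have hmn : (m : ℝ) ≤ ((k₀ + 1 : ℕ) : ℝ) := by
      have : m ≤ k₀ + 1 := by
        have h1 : (m : ℤ) ≤ ((k₀ + 1 : ℕ) : ℤ) := by rw [hm]; exact hkn
        exact_mod_cast h1
      exact_mod_cast this
    refine ⟨m * N, Nat.one_le_iff_ne_zero.2 (Nat.mul_ne_zero (by omega) (by omega)), ?_, ?_⟩
    · rw [Nat.cast_mul]
      have hN0 : (0 : ℝ) ≤ N := Nat.cast_nonneg N
      have h1 : (N : ℝ) ≤ (m : ℝ) * N := by nlinarith
      exact hNT.trans h1
    · intro β hβ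
      rw [Finset.mem_insert] at hβ
      rcases hβ with rfl | hβ
      · refine ⟨j, ?_⟩
        rw [Nat.cast_mul, mul_assoc, hmk]
        refine hj.trans (le_trans ?_ hk₀.le)
        apply one_div_le_one_div_of_le
        · positivity
        · push_cast
          linarith
      · obtain ⟨n, hn'⟩ := hN β hβ
        refine ⟨m * n, ?_⟩
        have h1 : ((m * N : ℕ) : ℝ) * β - ((m * n : ℤ) : ℝ) = (m : ℝ) * ((N : ℝ) * β - n) := by
          push_cast
          ring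
        rw [h1, abs_mul, abs_of_nonneg (by linarith : (0 : ℝ) ≤ m)]
        have h2 : (m : ℝ) * |(N : ℝ) * β - n| ≤ ((k₀ + 1 : ℕ) : ℝ) * (η / ((k₀ + 1 : ℕ) : ℝ)) :=
          mul_le_mul hmn hn' (abs_nonneg _) hn.le
        rw [mul_div_cancel₀ _ hn.ne'] at h2
        exact h2

theorem exists_scale (F : Finset ℝ) (η T : ℝ) (hη : 0 < η) :
    ∃ t : ℝ, T ≤ t ∧ ∀ β ∈ F, ∃ n : ℤ, |t * β - n| ≤ η := by
  obtain ⟨N, _, hT, h⟩ := dir_nat F η hη T
  exact ⟨N, hT, h⟩

end H41.NU
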