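import Pool.Agent.H41.NU.Cnt

/-! # NU.Grp : lattices of permuting subgroups of a finite group are good (about 120 lines)

`Finite L`: `f` is injective and `Subgroup G` is finite. Valuation: `|f (x ⊔ y)| |f (x ⊓ y)| = |f x| |f y|` is the product formula for the set product (Mathlib: `Subgroup.card_mul_card_eq...`, or count the fibres of `f x × f y → f x * f y`; for
instance `Subgroup.relIndex_sup_right`-like statements are not needed: the map `f x ⧸ (f x ⊓ f y) → (f x * f y) ⧸ f y` is a bijection). Strictly increasing: `x < y` gives `f x < f y` (`f` preserves meets, so it is monotone, and it is injective), so the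
cardinality increases. `F = {1}`. Given `ε`, let `G₀` be larger than all `|r q - r p|` (`L` is finite) and `η = min 1 (ε / (G₀ + 1))`. Given `t`, with an integer `n` such that `|t - n| ≤ η`; `t ≥ 1 / η ≥ 1` so `n ≥ 0`, let `n = j` be natural. `V = Fin j → G`, `R x v w`
iff `(v i)⁻¹ * w i ∈ f x` for all `i`. Meets are clear. `cnt (R p) (R q) v = (|f q| / |f p|) ^ j` for `p ≤ q` (translation to `v = 1`: the classes of `R p` in `{w | w i ∈ f q}` are the elements of `Fin j → f q ⧸ f p`), so its logarithm is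
`j (r q - r p)`, which differs from `t (r q - r p)` by at most `η G₀ ≤ ε`. -/

namespace H41.NU

/-- the product formula -/
private lemma Grp_card {G : Type} [Group G] [Finite G] (A B C : Subgroup G)
    (h : ∀ g : G, g ∈ C ↔ ∃ a ∈ A, ∃ b ∈ B, a * b = g) :
    Nat.card C * Nat.card (A ⊓ B : Subgroup G) = Nat.card A * Nat.card B := by
  have hs : ∀ g : C, ∃ s : A × B, (s.1 : G) * s.2 = g := fun g => by
    obtain ⟨a, ha, b, hb, hab⟩ := (h g).1 g.2
    exact ⟨(⟨a, ha⟩, ⟨b, hb⟩), hab⟩
  choose s hs using hs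
  rw [← Nat.card_prod, ← Nat.card_prod]
  refine Nat.card_congr (Equiv.ofBijective
    (fun p : C × (A ⊓ B : Subgroup G) =>
      ((⟨(s p.1).1 * p.2, A.mul_mem (s p.1).1.2 (Subgroup.mem_inf.1 p.2.2).1⟩ : A),
        (⟨(p.2 : G)⁻¹ * (s p.1).2,
          B.mul_mem (B.inv_mem (Subgroup.mem_inf.1 p.2.2).2) (s p.1).2.2⟩ : B))) ⟨?_, ?_⟩)
  · rintro ⟨g, m⟩ ⟨g', m'⟩ hgm
    simp only [Prod.mk.injEq, Subtype.mk.injEq] at hgm
    have e : g = g' := by
      apply Subtype.ext
      rw [← hs g, ← hs g']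
      calc ((s g).1 : G) * (s g).2 = ((s g).1 * m) * ((m : G)⁻¹ * (s g).2) := by group
        _ = ((s g').1 * m') * ((m' : G)⁻¹ * (s g').2) := by rw [hgm.1, hgm.2]
        _ = (s g').1 * (s g').2 := by group
    subst e
    have e2 : (m : G) = m' := mul_left_cancel hgm.1
    rw [Prod.mk.injEq]
    exact ⟨rfl, Subtype.ext e2⟩
  · rintro ⟨a, b⟩
    have hg : (a : G) * b ∈ C := (h _).2 ⟨a, a.2, b, b.2, rfl⟩
    have e := hs ⟨a * b, hg⟩
    set σ := s ⟨a * b, hg⟩ with hσ
    have e1 : ((σ.1 : G))⁻¹ * a = σ.2 * (b : G)⁻¹ := by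
      have e0 : (σ.1 : G) * σ.2 = a * b := e
      have : (σ.2 : G) = (σ.1 : G)⁻¹ * (a * b) := by rw [← e0]; group
      rw [this]; group
    have hm : ((σ.1 : G))⁻¹ * a ∈ A ⊓ B := by
      refine Subgroup.mem_inf.2 ⟨A.mul_mem (A.inv_mem σ.1.2) a.2, ?_⟩
      rw [e1]
      exact B.mul_mem σ.2.2 (B.inv_mem b.2)
    refine ⟨(⟨a * b, hg⟩, ⟨_, hm⟩), ?_⟩
    simp only [← hσ, Prod.mk.injEq]
    refine ⟨Subtype.ext ?_, Subtype.ext ?_⟩
    · show (σ.1 : G) * ((σ.1 : G)⁻¹ * a) = a
      group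
    · show (((σ.1 : G))⁻¹ * a)⁻¹ * σ.2 = b
      rw [e1]; group

/-- the relation -/
private def Grp_R {G : Type} [Group G] (j : ℕ) (H : Subgroup G) : Setoid (Fin j → G) where
  r v w := ∀ i, (v i)⁻¹ * w i ∈ H
  iseqv := by
    refine ⟨fun v i => ?_, fun {v w} h i => ?_, fun {v w u} h h' i => ?_⟩
    · rw [inv_mul_cancel]; exact H.one_mem
    · have := H.inv_mem (h i)
      rwa [mul_inv_rev, inv_inv] at this
    · have := H.mul_mem (h i) (h' i)
      rwa [mul_assoc, mul_inv_cancel_left] at this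

private lemma Grp_R_iff {G : Type} [Group G] (j : ℕ) (H : Subgroup G) (v w : Fin j → G) :
    Grp_R j H v w ↔ ∀ i, (v i)⁻¹ * w i ∈ H := Iff.rfl

private lemma Grp_class {G : Type} [Group G] [Finite G] (j : ℕ) (H : Subgroup G) (v : Fin j → G) :
    ({w | Grp_R j H v w} : Set (Fin j → G)).ncard = Nat.card H ^ j := by
  have e : ({w | Grp_R j H v w} : Set (Fin j → G)) ≃ (Fin j → H) :=
    { toFun := fun w i => ⟨(v i)⁻¹ * w.1 i, w.2 i⟩
      invFun := fun u => ⟨fun i => v i * u i, fun i => by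
        show (v i)⁻¹ * (v i * u i) ∈ H
        rw [inv_mul_cancel_left]; exact (u i).2⟩
      left_inv := fun w => by
        apply Subtype.ext
        funext i
        show v i * ((v i)⁻¹ * w.1 i) = w.1 i
        rw [mul_inv_cancel_left]
      right_inv := fun u => by
        funext i
        apply Subtype.ext
        show (v i)⁻¹ * (v i * u i) = u i
        rw [inv_mul_cancel_left] }
  rw [← Nat.card_coe_set_eq, Nat.card_congr e, Nat.card_fun, Nat.card_fin]

private lemma Grp_ncl_bot {V : Type} [Finite V] (A : Set V) : ncl (⊥ : Setoid V) A = A.ncard := by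
  unfold ncl
  refine Set.ncard_image_of_injective A fun v w h => ?_
  exact Quotient.exact h

private lemma Grp_cnt {G : Type} [Group G] [Finite G] (j : ℕ) {P Q : Subgroup G} (h : P ≤ Q)
    (v : Fin j → G) :
    (cnt (Grp_R j P) (Grp_R j Q) v : ℝ) * (Nat.card P : ℝ) ^ j = (Nat.card Q : ℝ) ^ j := by
  have hk : ∀ w ∈ {w | Grp_R j Q v w}, (ncl (⊥ : Setoid (Fin j → G))
      ({w | Grp_R j Q v w} ∩ {u | Grp_R j P w u}) : ℝ) = (Nat.card P : ℝ) ^ j := by
    intro w hw
    have e : ({w | Grp_R j Q v w} ∩ {u | Grp_R j P w u} : Set (Fin j → G)) = {u | Grp_R j P w u} := by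
      refine Set.inter_eq_right.2 fun u hu => ?_
      have hu' : Grp_R j P w u := hu
      have h2 : Grp_R j Q w u := fun i => h (hu' i)
      exact (Grp_R j Q).trans' hw h2
    rw [e, Grp_ncl_bot, Grp_class]
    push_cast
    rfl
  have hA : (ncl (⊥ : Setoid (Fin j → G)) {w | Grp_R j Q v w} : ℝ) = (Nat.card Q : ℝ) ^ j := by
    rw [Grp_ncl_bot, Grp_class]
    push_cast
    rfl
  have h1 := ncl_fiber_ge (S := (⊥ : Setoid (Fin j → G))) (M := Grp_R j P) bot_le
    {w | Grp_R j Q v w} {w | Grp_R j Q v w} subset_rfl ((Nat.card P : ℝ) ^ j) (by positivity)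
    fun w hw => (hk w hw).ge
  have h2 := ncl_fiber_le (S := (⊥ : Setoid (Fin j → G))) (M := Grp_R j P) bot_le
    {w | Grp_R j Q v w} ((Nat.card P : ℝ) ^ j) fun w hw => (hk w hw).le
  rw [hA] at h1 h2
  exact le_antisymm h1 h2

private lemma Grp_pos {G : Type} [Group G] [Finite G] (H : Subgroup G) : (0 : ℝ) < Nat.card H :=
  Nat.cast_pos.2 Nat.card_pos

private lemma Grp_cnt_exp {G : Type} [Group G] [Finite G] (j : ℕ) {P Q : Subgroup G} (h : P ≤ Q)
    (v : Fin j → G) :
    (cnt (Grp_R j P) (Grp_R j Q) v : ℝ) =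
      Real.exp (j * (Real.log (Nat.card Q) - Real.log (Nat.card P))) := by
  have h1 := Grp_cnt j h v
  have hP := Grp_pos P
  have hQ := Grp_pos Q
  rw [mul_comm (j : ℝ), Real.exp_mul, Real.exp_sub, Real.exp_log hQ, Real.exp_log hP,
    Real.rpow_natCast, div_pow, eq_div_iff (by positivity)]
  exact h1

theorem good_subgroup {L G : Type} [Lattice L] [Group G] [Finite G] (f : L → Subgroup G)
    (hf : Function.Injective f) (hinf : ∀ x y, f (x ⊓ y) = f x ⊓ f y)
    (hsup : ∀ x y, ∀ g : G, g ∈ f (x ⊔ y) ↔ ∃ h ∈ f x, ∃ k ∈ f y, h * k = g) :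
    Good L (fun x => Real.log (Nat.card (f x))) := by
  have hmono : ∀ x y, x ≤ y → f x ≤ f y := by
    intro x y hxy
    have h1 := hinf x y
    rw [inf_eq_left.2 hxy] at h1
    exact inf_eq_left.1 h1.symm
  have hr0 : ∀ x, 0 ≤ Real.log (Nat.card (f x)) := fun x =>
    Real.log_nonneg (by exact_mod_cast (Nat.card_pos : 0 < Nat.card (f x)))
  have hr1 : ∀ x, Real.log (Nat.card (f x)) ≤ Real.log (Nat.card G) := fun x =>
    Real.log_le_log (Grp_pos _) (by exact_mod_cast Subgroup.card_le_card_group (f x))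
  refine ⟨Finite.of_injective f hf, ⟨?_, ?_⟩, {1}, ?_⟩
  · intro x _ y _ hxy
    refine Real.log_lt_log (Grp_pos _) ?_
    rw [Nat.cast_lt]
    by_contra hc
    exact hxy.ne (hf (Subgroup.eq_of_le_of_card_ge (hmono x y hxy.le) (not_lt.1 hc)))
  · intro x _ y _
    have h1 := Grp_card (f x) (f y) (f (x ⊔ y)) (hsup x y)
    rw [← hinf] at h1
    show Real.log _ + Real.log _ = Real.log _ + Real.log _
    rw [← Real.log_mul (Grp_pos _).ne' (Grp_pos _).ne',
      ← Real.log_mul (Grp_pos _).ne' (Grp_pos _).ne']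
    congr 1
    exact_mod_cast h1.symm
  · intro ε hε
    set G₀ := Real.log (Nat.card G) with hG
    have hG0 : 0 ≤ G₀ := Real.log_nonneg (by exact_mod_cast (Nat.card_pos : 0 < Nat.card G))
    refine ⟨min 1 (ε / (G₀ + 1)), lt_min one_pos (by positivity), fun t ht hF => ?_⟩
    obtain ⟨n, hn⟩ := hF 1 (Finset.mem_singleton_self _)
    rw [mul_one] at hn
    have hη1 : min 1 (ε / (G₀ + 1)) ≤ 1 := min_le_left _ _
    have hη0 : 0 < min 1 (ε / (G₀ + 1)) := lt_min one_pos (by positivity)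
    have ht1 : 1 ≤ t := le_trans (by rw [le_div_iff₀ hη0]; linarith) ht
    have hn0 : 0 ≤ n := by
      by_contra hc
      have h1 : (n : ℝ) ≤ -1 := by exact_mod_cast (by omega : n ≤ -1)
      have h2 := (abs_le.1 hn).2
      linarith
    obtain ⟨j, rfl⟩ := Int.eq_ofNat_of_zero_le hn0
    have key : ∀ p q, |(t - j) * (Real.log (Nat.card (f q)) - Real.log (Nat.card (f p)))| ≤ ε := by
      intro p q
      have h1 : |Real.log (Nat.card (f q)) - Real.log (Nat.card (f p))| ≤ G₀ := by
        rw [abs_le]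
        have := hr0 p; have := hr0 q; have := hr1 p; have := hr1 q
        constructor <;> linarith
      have h2 : |t - (j : ℝ)| ≤ ε / (G₀ + 1) := by
        have h3 := hn.trans (min_le_right _ _)
        simpa using h3
      rw [abs_mul]
      calc |t - (j : ℝ)| * |Real.log (Nat.card (f q)) - Real.log (Nat.card (f p))|
          ≤ ε / (G₀ + 1) * G₀ := mul_le_mul h2 h1 (abs_nonneg _) (by positivity)
        _ ≤ ε := by
            rw [div_mul_eq_mul_div, div_le_iff₀ (by linarith)]
            nlinarith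
    refine ⟨Fin j → G, inferInstance, inferInstance, fun x => Grp_R j (f x), ?_, ?_, ?_⟩
    · intro x _ y _
      refine Setoid.ext fun v w => ?_
      rw [Setoid.inf_def]
      show (∀ i, _ ∈ f (x ⊓ y)) ↔ (∀ i, _ ∈ f x) ∧ (∀ i, _ ∈ f y)
      rw [hinf]
      simp only [Subgroup.mem_inf]
      exact forall_and
    · intro p _ q _ hpq v
      rw [Grp_cnt_exp j (hmono p q hpq) v]
      refine Real.exp_le_exp.2 ?_
      have := (abs_le.1 (key p q)).2
      linarith
    · intro p _ q _ hpq v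
      rw [Grp_cnt_exp j (hmono p q hpq) v]
      refine Real.exp_le_exp.2 ?_
      have := (abs_le.1 (key p q)).1
      linarith

end H41.NU
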