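import Pool.Agent.H41.NU.Cnt

/-! # NU.Prd : products (about 80 lines)

`F` = union of the two sets, `η` = minimum of the two values belonging to `ε / 2`. `V = V₁ × V₂`, `R x = ` comap of `R₁ x.1` under `Prod.fst` ⊓ comap of `R₂ x.2` under `Prod.snd`. `cnt (R p) (R q) (v₁, v₂) = cnt (R₁ p.1) (R₁ q.1) v₁ * cnt (R₂ p.2) (R₂ q.2) v₂`:
the quotient classes of `R p` are pairs of classes and the `R q`-class of `(v₁, v₂)` is a product set (`Set.ncard_prod` for the image under the bijection with pairs, or `ncl_fiber_ge` and `ncl_fiber_le` with `M` = comap of `R₁ p.1` under `fst`). -/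

namespace H41.NU

private theorem cnt_prod {V W : Type} (S S' : Setoid V) (T T' : Setoid W) (v : V × W) :
    cnt (S.prod T) (S'.prod T') v = cnt S S' v.1 * cnt T T' v.2 := by
  unfold cnt ncl
  have h : Quotient.mk (S.prod T) '' {w | (S'.prod T') v w} =
      (Setoid.prodQuotientEquiv S T) ''
        ((Quotient.mk S '' {w | S' v.1 w}) ×ˢ (Quotient.mk T '' {w | T' v.2 w})) := by
    ext x
    constructor
    · rintro ⟨w, hw, rfl⟩
      have hw' : S' v.1 w.1 ∧ T' v.2 w.2 := hw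
      exact ⟨(Quotient.mk S w.1, Quotient.mk T w.2), ⟨⟨w.1, hw'.1, rfl⟩, ⟨w.2, hw'.2, rfl⟩⟩, rfl⟩
    · rintro ⟨⟨_, _⟩, ⟨⟨a, ha, rfl⟩, ⟨b, hb, rfl⟩⟩, rfl⟩
      refine ⟨(a, b), ?_, rfl⟩
      show S' v.1 a ∧ T' v.2 b
      exact ⟨ha, hb⟩
  rw [h, Set.ncard_image_of_injective _ (Equiv.injective _), Set.ncard_prod]

theorem good_prod {L M : Type} [Lattice L] [Lattice M] {r : L → ℝ} {s : M → ℝ} (h1 : Good L r) (h2 : Good M s) :
    Good (L × M) (fun x => r x.1 + s x.2) := by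
  obtain ⟨fL, vL, F1, hF1⟩ := h1
  obtain ⟨fM, vM, F2, hF2⟩ := h2
  have hr : ∀ x y : L, x ≤ y → r x ≤ r y := by
    intro x y hxy
    rcases hxy.eq_or_lt with rfl | h
    · exact le_rfl
    · exact (vL.lt x trivial y trivial h).le
  have hs : ∀ x y : M, x ≤ y → s x ≤ s y := by
    intro x y hxy
    rcases hxy.eq_or_lt with rfl | h
    · exact le_rfl
    · exact (vM.lt x trivial y trivial h).le
  refine ⟨inferInstance, ⟨?_, ?_⟩, ?_⟩
  · intro x _ y _ hxy
    show r x.1 + s x.2 < r y.1 + s y.2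
    rcases Prod.lt_iff.1 hxy with ⟨ha, hb⟩ | ⟨ha, hb⟩
    · have := vL.lt x.1 trivial y.1 trivial ha
      have := hs _ _ hb
      linarith
    · have := hr _ _ ha
      have := vM.lt x.2 trivial y.2 trivial hb
      linarith
  · intro x _ y _
    have ha := vL.add x.1 trivial y.1 trivial
    have hb := vM.add x.2 trivial y.2 trivial
    show r x.1 + s x.2 + (r y.1 + s y.2) = r (x.1 ⊔ y.1) + s (x.2 ⊔ y.2) + (r (x.1 ⊓ y.1) + s (x.2 ⊓ y.2))
    linarith
  · classical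
    refine ⟨F1 ∪ F2, fun ε hε => ?_⟩
    obtain ⟨η1, hη1, H1⟩ := hF1 (ε / 2) (by linarith)
    obtain ⟨η2, hη2, H2⟩ := hF2 (ε / 2) (by linarith)
    refine ⟨min η1 η2, lt_min hη1 hη2, fun t ht hβ => ?_⟩
    have ht1 : 1 / η1 ≤ t :=
      (one_div_le_one_div_of_le (lt_min hη1 hη2) (min_le_left _ _)).trans ht
    have ht2 : 1 / η2 ≤ t :=
      (one_div_le_one_div_of_le (lt_min hη1 hη2) (min_le_right _ _)).trans ht
    obtain ⟨V, fV, nV, R1, hR1⟩ := H1 t ht1 fun β hb => by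
      obtain ⟨n, hn⟩ := hβ β (Finset.mem_union_left _ hb)
      exact ⟨n, hn.trans (min_le_left _ _)⟩
    obtain ⟨W, fW, nW, R2, hR2⟩ := H2 t ht2 fun β hb => by
      obtain ⟨n, hn⟩ := hβ β (Finset.mem_union_right _ hb)
      exact ⟨n, hn.trans (min_le_right _ _)⟩
    refine ⟨V × W, inferInstance, inferInstance, fun x => (R1 x.1).prod (R2 x.2), ⟨?_, ?_, ?_⟩⟩
    · intro x _ y _
      show (R1 (x.1 ⊓ y.1)).prod (R2 (x.2 ⊓ y.2)) = (R1 x.1).prod (R2 x.2) ⊓ (R1 y.1).prod (R2 y.2)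
      rw [hR1.inf x.1 trivial y.1 trivial, hR2.inf x.2 trivial y.2 trivial]
      ext a b
      constructor
      · rintro ⟨⟨h1, h2⟩, ⟨h3, h4⟩⟩
        exact ⟨⟨h1, h3⟩, ⟨h2, h4⟩⟩
      · rintro ⟨⟨h1, h3⟩, ⟨h2, h4⟩⟩
        exact ⟨⟨h1, h2⟩, ⟨h3, h4⟩⟩
    · intro p _ q _ hpq v
      show Real.exp (t * (r q.1 + s q.2 - (r p.1 + s p.2)) - ε) ≤ _
      rw [cnt_prod, Nat.cast_mul]
      have e1 := hR1.lo p.1 trivial q.1 trivial hpq.1 v.1
      have e2 := hR2.lo p.2 trivial q.2 trivial hpq.2 v.2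
      have e3 : Real.exp (t * (r q.1 + s q.2 - (r p.1 + s p.2)) - ε) =
          Real.exp (t * (r q.1 - r p.1) - ε / 2) * Real.exp (t * (s q.2 - s p.2) - ε / 2) := by
        rw [← Real.exp_add]
        congr 1
        ring
      rw [e3]
      exact mul_le_mul e1 e2 (Real.exp_pos _).le (Nat.cast_nonneg _)
    · intro p _ q _ hpq v
      show _ ≤ Real.exp (t * (r q.1 + s q.2 - (r p.1 + s p.2)) + ε)
      rw [cnt_prod, Nat.cast_mul]
      have e1 := hR1.hi p.1 trivial q.1 trivial hpq.1 v.1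
      have e2 := hR2.hi p.2 trivial q.2 trivial hpq.2 v.2
      have e3 : Real.exp (t * (r q.1 + s q.2 - (r p.1 + s p.2)) + ε) =
          Real.exp (t * (r q.1 - r p.1) + ε / 2) * Real.exp (t * (s q.2 - s p.2) + ε / 2) := by
        rw [← Real.exp_add]
        congr 1
        ring
      rw [e3]
      exact mul_le_mul e1 e2 (Nat.cast_nonneg _) (Real.exp_pos _).le

end H41.NU
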