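import Pool.Agent.H41.NU.Cnt

/-! # NU.Sub : affine changes of the valuation and sublattices (about 60 lines)

Affine: for the valuation `c r + e` at the scale `t` use the given representation at the scale `c t`: `t ((c r q + e) - (c r p + e)) = (c t)(r q - r p)`. If `F` belongs to `r` take `F' = F.image (c * ·)` (so `(c t) β = t (c β)`), and `η' = min η (c η)`, then
`1 / η' ≤ t` implies `1 / η ≤ c t`. Sublattices: the same `F` and `η`, the representation is `R ∘ f`; `Finite L` from injectivity; `f` is strictly monotone. -/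

namespace H41.NU

theorem good_affine {L : Type} [Lattice L] {r : L → ℝ} (h : Good L r) (c e : ℝ) (hc : 0 < c) :
    Good L (fun x => c * r x + e) := by
  classical
  obtain ⟨hfin, hval, F, hF⟩ := h
  refine ⟨hfin, ⟨fun x hx y hy hxy => ?_, fun x hx y hy => ?_⟩, F.image (fun β => c * β), fun ε hε => ?_⟩
  · have h1 := hval.lt x hx y hy hxy
    have h2 := mul_lt_mul_of_pos_left h1 hc
    linarith
  · have h1 := hval.add x hx y hy
    have h2 : c * (r x + r y) = c * (r (x ⊔ y) + r (x ⊓ y)) := by rw [h1]
    linarith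
  · obtain ⟨η, hη, hR⟩ := hF ε hε
    have hcη : 0 < c * η := mul_pos hc hη
    have hη' : 0 < min η (c * η) := lt_min hη hcη
    refine ⟨min η (c * η), hη', fun t ht hint => ?_⟩
    have h1 : 1 / η ≤ c * t := by
      have h2 : 1 / (c * η) ≤ t :=
        le_trans (one_div_le_one_div_of_le hη' (min_le_right _ _)) ht
      have h3 : c * (1 / (c * η)) ≤ c * t := mul_le_mul_of_nonneg_left h2 hc.le
      have h4 : c * (1 / (c * η)) = 1 / η := by
        field_simp
      rwa [h4] at h3
    obtain ⟨V, hV, hne, R, hRn⟩ := hR (c * t) h1 (fun β hβ => by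
      obtain ⟨m, hm⟩ := hint (c * β) (Finset.mem_image_of_mem _ hβ)
      refine ⟨m, ?_⟩
      have h5 : c * t * β - (m : ℝ) = t * (c * β) - m := by ring
      rw [h5]
      exact hm.trans (min_le_left _ _))
    refine ⟨V, hV, hne, R, ⟨hRn.inf, fun p hp q hq hpq v => ?_, fun p hp q hq hpq v => ?_⟩⟩
    · have h6 := hRn.lo p hp q hq hpq v
      have h7 : t * (c * r q + e - (c * r p + e)) - ε = c * t * (r q - r p) - ε := by ring
      rw [h7]
      exact h6
    · have h6 := hRn.hi p hp q hq hpq v
      have h7 : t * (c * r q + e - (c * r p + e)) + ε = c * t * (r q - r p) + ε := by ring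
      rw [h7]
      exact h6

theorem good_sub {L M : Type} [Lattice L] [Lattice M] {r : M → ℝ} (h : Good M r) (f : LatticeHom L M)
    (hf : Function.Injective f) : Good L (fun x => r (f x)) := by
  obtain ⟨hfin, hval, F, hF⟩ := h
  have hmono : Monotone f := OrderHomClass.mono f
  have hsm : StrictMono f := hmono.strictMono_of_injective hf
  refine ⟨Finite.of_injective f hf, ⟨fun x _ y _ hxy => ?_, fun x _ y _ => ?_⟩, F, fun ε hε => ?_⟩
  · exact hval.lt (f x) trivial (f y) trivial (hsm hxy)
  · have h1 := hval.add (f x) trivial (f y) trivial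
    simp only [map_sup, map_inf]
    exact h1
  · obtain ⟨η, hη, hR⟩ := hF ε hε
    refine ⟨η, hη, fun t ht hint => ?_⟩
    obtain ⟨V, hV, hne, R, hRn⟩ := hR t ht hint
    refine ⟨V, hV, hne, fun x => R (f x), ⟨fun x _ y _ => ?_, fun p _ q _ hpq v => ?_, fun p _ q _ hpq v => ?_⟩⟩
    · simp only [map_inf]
      exact hRn.inf (f x) trivial (f y) trivial
    · exact hRn.lo (f p) trivial (f q) trivial (hmono hpq) v
    · exact hRn.hi (f p) trivial (f q) trivial (hmono hpq) v

end H41.NU
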