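import Pool.Agent.H41.NU.Cnt

/-! # NU.T2 : a nearly uniform representation is of type 2 (about 80 lines)

Injectivity: if `R p = R q` then `R (p ⊓ q) = R p = R q`, and if `p ⊓ q < p` then `cnt (R (p ⊓ q)) (R p) v ≥ exp (positive) > 1`, but it is `cnt_self = 1`. Monotone: `Nearly.mono`.
Join: let `R (x ⊔ y) s t`. `D` = the `R (x ⊔ y)`-class of `s`, `A` = the `R x`-class of `s`, `B` = the `R x`-class of `t`, both contained in `D`. `ncl (R y) D = cnt (R y) (R (x ⊔ y)) s ≤ exp (τ (r (x ⊔ y) - r y) + ε)` and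
`ncl (R y) A, ncl (R y) B ≥ exp (τ (r x - r (x ⊓ y)) - ε)` (`Nearly.lo'`), where the two brackets are equal (`hr.add`). As `ε ≤ 1/4` and `exp (-1/2) > 1/2` the sum of the last two is larger than `ncl (R y) D`; `exists_common` gives
`c ∈ A`, `d ∈ B` with `R y c d`. So `R (x ⊔ y) ≤ R x ⊔ R y` and the type 2 formula. -/

namespace H41.NU

private theorem key_ineq {K ε a b d : ℝ} (hε : ε ≤ 1 / 4) (ha : Real.exp (K - ε) ≤ a) (hb : Real.exp (K - ε) ≤ b)
    (hd : d ≤ Real.exp (K + ε)) : d < a + b := by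
  have h1 : Real.exp (K + ε) = Real.exp (K - ε) * Real.exp (2 * ε) := by
    rw [← Real.exp_add]; ring_nf
  have h2 : Real.exp (2 * ε) < 2 := by
    have h3 : Real.exp (2 * ε) ≤ Real.exp (1 / 2) := Real.exp_le_exp.mpr (by linarith)
    have h4 : Real.exp (1 / 2) * Real.exp (1 / 2) = Real.exp 1 := by
      rw [← Real.exp_add]; norm_num
    have h5 := Real.exp_one_lt_d9
    have h6 : 0 < Real.exp (1 / 2) := Real.exp_pos _
    nlinarith
  have h7 : 0 < Real.exp (K - ε) := Real.exp_pos _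
  nlinarith

private theorem le_of_eq_rep {L V : Type} [Lattice L] [Finite V] [Nonempty V] {r : L → ℝ} {τ ε : ℝ} {R : L → Setoid V}
    (h : Nearly Set.univ r τ ε R) (hτ : ∀ p q : L, p < q → ε < τ * (r q - r p)) {p q : L} (hpq : R p = R q) :
    p ≤ q := by
  by_contra hn
  have h1 : p ⊓ q < p := lt_of_le_of_ne inf_le_left (fun he => hn (inf_eq_left.mp he))
  have h2 : R (p ⊓ q) = R p := by
    rw [h.inf p (Set.mem_univ _) q (Set.mem_univ _), ← hpq, inf_idem]
  obtain ⟨v⟩ := ‹Nonempty V›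
  have h3 := h.lo (p ⊓ q) (Set.mem_univ _) p (Set.mem_univ _) h1.le v
  rw [h2, cnt_self] at h3
  have h4 := hτ _ _ h1
  have h5 : Real.exp 0 < Real.exp (τ * (r p - r (p ⊓ q)) - ε) := Real.exp_lt_exp.mpr (by linarith)
  rw [Real.exp_zero] at h5
  simp only [Nat.cast_one] at h3
  linarith

private theorem join_step {L V : Type} [Lattice L] [Finite V] {r : L → ℝ} {τ ε : ℝ} {R : L → Setoid V}
    (hr : Val Set.univ r) (h : Nearly Set.univ r τ ε R) (hε : ε ≤ 1 / 4) (x y : L) (s t : V)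
    (hst : R (x ⊔ y) s t) : ∃ c d : V, R x s c ∧ R y c d ∧ R x d t := by
  have hm : R x ≤ R (x ⊔ y) := h.mono (Set.mem_univ _) (Set.mem_univ _) le_sup_left
  have hA : ({w | R x s w} : Set V) ⊆ {w | R (x ⊔ y) s w} := fun w hw => hm hw
  have hB : ({w | R x t w} : Set V) ⊆ {w | R (x ⊔ y) s w} := fun w hw => (R (x ⊔ y)).trans' hst (hm hw)
  have hadd := hr.add x (Set.mem_univ _) y (Set.mem_univ _)
  have h1 := h.hi y (Set.mem_univ _) (x ⊔ y) (Set.mem_univ _) le_sup_right s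
  have h2 := h.lo' (p := y) (q := x) (Set.mem_univ _) (Set.mem_univ _) (Set.mem_univ _) s
  have h3 := h.lo' (p := y) (q := x) (Set.mem_univ _) (Set.mem_univ _) (Set.mem_univ _) t
  have he : r (x ⊔ y) - r y = r x - r (y ⊓ x) := by
    rw [inf_comm y x]; linarith
  rw [he] at h1
  have h4 := key_ineq hε h2 h3 h1
  have h5 : ncl (R y) {w | R (x ⊔ y) s w} < ncl (R y) {w | R x s w} + ncl (R y) {w | R x t w} := by
    have h6 : (ncl (R y) {w | R (x ⊔ y) s w} : ℝ) < ncl (R y) {w | R x s w} + ncl (R y) {w | R x t w} := h4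
    exact_mod_cast h6
  obtain ⟨c, hc, d, hd, hcd⟩ := exists_common (R y) hA hB h5
  exact ⟨c, d, hc, hcd, (R x).symm' hd⟩

theorem type2_of_nearly {L V : Type} [Lattice L] [Finite V] [Nonempty V] {r : L → ℝ} {τ ε : ℝ} {R : L → Setoid V}
    (hr : Val Set.univ r) (h : Nearly Set.univ r τ ε R) (hε : ε ≤ 1 / 4)
    (hτ : ∀ p q : L, p < q → ε < τ * (r q - r p)) :
    ∃ G : LatticeHom L (Setoid V), Function.Injective G ∧
      ∀ x y : L, ∀ s t : V, G (x ⊔ y) s t ↔ ∃ c d : V, G x s c ∧ G y c d ∧ G x d t := by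
  have hx : ∀ x y : L, R x ≤ R (x ⊔ y) := fun x y => h.mono (Set.mem_univ _) (Set.mem_univ _) le_sup_left
  have hy : ∀ x y : L, R y ≤ R (x ⊔ y) := fun x y => h.mono (Set.mem_univ _) (Set.mem_univ _) le_sup_right
  have hback : ∀ x y : L, ∀ s t : V, (∃ c d : V, R x s c ∧ R y c d ∧ R x d t) → R (x ⊔ y) s t := by
    rintro x y s t ⟨c, d, h1, h2, h3⟩
    exact (R (x ⊔ y)).trans' (hx x y h1) ((R (x ⊔ y)).trans' (hy x y h2) (hx x y h3))
  refine ⟨{ toFun := R, map_sup' := ?_, map_inf' := ?_ }, ?_, ?_⟩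
  · intro x y
    refine le_antisymm ?_ (sup_le (hx x y) (hy x y))
    intro s t hst
    obtain ⟨c, d, h1, h2, h3⟩ := join_step hr h hε x y s t hst
    have hl : R x ≤ R x ⊔ R y := le_sup_left
    have hl2 : R y ≤ R x ⊔ R y := le_sup_right
    exact (R x ⊔ R y).trans' (hl h1) ((R x ⊔ R y).trans' (hl2 h2) (hl h3))
  · intro x y
    exact h.inf x (Set.mem_univ _) y (Set.mem_univ _)
  · intro p q hpq
    have hpq' : R p = R q := hpq
    exact le_antisymm (le_of_eq_rep h hτ hpq') (le_of_eq_rep h hτ hpq'.symm)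
  · intro x y s t
    exact ⟨fun hst => join_step hr h hε x y s t hst, fun hst => hback x y s t hst⟩

end H41.NU
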