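import Pool.Agent.H41.NU.Cnt

/-! # NU.Uni : uniform type 1 representations give good valued lattices -/

namespace H41.NU

/-- a set which is a union of classes of `S`, all with `k` elements -/
private theorem ncard_eq {V : Type} [Finite V] (S : Setoid V) (A : Set V) (k : ℕ)
    (hA : ∀ v ∈ A, ∀ w, S v w → w ∈ A) (hk : ∀ v, {w | S v w}.ncard = k) : A.ncard = ncl S A * k := by
  classical
  have := Fintype.ofFinite V
  have : Finite (Quotient S) := Quotient.finite _
  have := Fintype.ofFinite (Quotient S)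
  have e : A.toFinset.card = ∑ c ∈ (Quotient.mk S '' A).toFinset, (A.toFinset.filter (fun v => Quotient.mk S v = c)).card := by
    apply Finset.card_eq_sum_card_fiberwise
    intro v hv
    rw [Finset.mem_coe, Set.mem_toFinset] at hv
    simp only [Set.coe_toFinset]
    exact ⟨v, hv, rfl⟩
  rw [Set.ncard_eq_toFinset_card' A, e]
  unfold ncl
  rw [Set.ncard_eq_toFinset_card']
  rw [Finset.sum_const_nat (m := k)]
  intro c hc
  rw [Set.mem_toFinset] at hc
  obtain ⟨v, hv, rfl⟩ := hc
  rw [← hk v, Set.ncard_eq_toFinset_card']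
  congr 1
  ext w
  simp only [Finset.mem_filter, Set.mem_toFinset, Set.mem_ofPred_eq]
  constructor
  · rintro ⟨_, h⟩
    exact Setoid.symm' _ (Quotient.exact h)
  · intro h
    exact ⟨hA v hv w h, Quotient.sound (Setoid.symm' _ h)⟩

private theorem cnt_uniform {V : Type} [Finite V] {S T : Setoid V} (h : S ≤ T) (k m : ℕ)
    (hk : ∀ v, {w | S v w}.ncard = k) (hm : ∀ v, {w | T v w}.ncard = m) (v : V) : cnt S T v * k = m := by
  rw [← hm v, ncard_eq S {w | T v w} k ?_ hk]
  · rfl
  · intro w hw u hu
    exact Setoid.trans' _ hw (h hu)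

theorem good_uniform {L W : Type} [Lattice L] [Finite W] [Nonempty W] (f : L → Setoid W)
    (hf : Function.Injective f) (hinf : ∀ x y, f (x ⊓ y) = f x ⊓ f y)
    (hsup : ∀ x y, ∀ s t : W, f (x ⊔ y) s t ↔ ∃ u, f x s u ∧ f y u t) (n : L → ℕ)
    (hn : ∀ x, ∀ w : W, {u | f x w u}.ncard = n x) : Good L (fun x => Real.log (n x)) := by
  classical
  have hmono : ∀ {x y : L}, x ≤ y → f x ≤ f y := by
    intro x y h
    have h1 := hinf x y
    rw [inf_eq_left.2 h] at h1
    rw [h1]
    exact inf_le_right
  have : Finite (Setoid W) := by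
    refine Finite.of_injective (fun S : Setoid W => {z : W × W | S z.1 z.2}) ?_
    intro S T h
    ext a b
    have h1 : (a, b) ∈ {z : W × W | S z.1 z.2} ↔ (a, b) ∈ {z : W × W | T z.1 z.2} := by
      rw [show {z : W × W | S z.1 z.2} = {z : W × W | T z.1 z.2} from h]
    exact h1
  have hfin : Finite L := Finite.of_injective f hf
  obtain ⟨w0⟩ := id ‹Nonempty W›
  have hpos : ∀ x, 0 < n x := by
    intro x
    rw [← hn x w0, Set.ncard_pos]
    exact ⟨w0, Setoid.refl' _ _⟩
  have hposR : ∀ x, (0 : ℝ) < n x := fun x => by exact_mod_cast hpos x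
  have hcnt : ∀ {p q : L}, p ≤ q → ∀ w, cnt (f p) (f q) w * n p = n q := fun h w =>
    cnt_uniform (hmono h) _ _ (hn _) (hn _) w
  have hval : Val Set.univ (fun x => Real.log (n x)) := by
    constructor
    · intro x _ y _ hxy
      apply Real.log_lt_log (hposR x)
      have h1 : n x ≤ n y := by
        rw [← hn x w0, ← hn y w0]
        exact Set.ncard_le_ncard (fun u hu => hmono hxy.le hu) (Set.toFinite _)
      have h2 : n x ≠ n y := by
        intro h
        apply hxy.ne
        apply hf
        ext a b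
        constructor
        · intro hab
          exact hmono hxy.le hab
        · intro hab
          have h5 : {u | f y a u}.ncard ≤ {u | f x a u}.ncard := by
            rw [hn x a, hn y a, h]
          have h3 : {u | f x a u} = {u | f y a u} :=
            Set.eq_of_subset_of_ncard_le (fun u hu => hmono hxy.le hu) h5 (Set.toFinite _)
          have h4 : b ∈ {u | f y a u} := hab
          rw [← h3] at h4
          exact h4
      exact_mod_cast lt_of_le_of_ne h1 h2
    · intro x _ y _
      have h1 := hcnt (le_sup_right : y ≤ x ⊔ y) w0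
      have h2 := hcnt (inf_le_left : x ⊓ y ≤ x) w0
      have h3 : cnt (f y) (f (x ⊔ y)) w0 = cnt (f (x ⊓ y)) (f x) w0 := by
        have e1 : cnt (f (x ⊓ y)) (f x) w0 = cnt (f y) (f x) w0 := by
          rw [inf_comm, hinf, cnt_inf]
        rw [e1]
        apply le_antisymm
        · apply ncl_le_rel (ρ := fun v w => f y v w)
          · intro v hv
            obtain ⟨u, h4, h5⟩ := (hsup x y w0 v).1 hv
            exact ⟨u, h4, Setoid.symm' _ h5⟩
          · intro v _ v' _ w _ w' _ h4 h5 h6
            exact Setoid.trans' _ h4 (Setoid.trans' _ h6 (Setoid.symm' _ h5))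
        · exact ncl_mono _ (fun u hu => hmono le_sup_left hu)
      rw [h3] at h1
      have h4 : n (x ⊔ y) * n (x ⊓ y) = n x * n y := by
        rw [← h1, ← h2]
        ring
      rw [← Real.log_mul (hposR _).ne' (hposR _).ne', ← Real.log_mul (hposR _).ne' (hposR _).ne']
      congr 1
      exact_mod_cast h4.symm
  refine ⟨hfin, hval, {1}, ?_⟩
  intro ε hε
  -- a bound for the differences
  obtain ⟨G, hG0, hG⟩ : ∃ G : ℝ, 0 < G ∧ ∀ p q : L, |Real.log (n q) - Real.log (n p)| ≤ G := by
    by_cases hL : Nonempty L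
    · obtain ⟨z, hz⟩ := Finite.exists_max (fun z : L × L => |Real.log (n z.2) - Real.log (n z.1)|)
      refine ⟨|Real.log (n z.2) - Real.log (n z.1)| + 1, by positivity, ?_⟩
      intro p q
      exact (hz (p, q)).trans (by linarith)
    · exact ⟨1, one_pos, fun p => absurd ⟨p⟩ hL⟩
  refine ⟨min 1 (ε / G), lt_min one_pos (div_pos hε hG0), ?_⟩
  intro t ht hF
  have hη : 0 < min 1 (ε / G) := lt_min one_pos (div_pos hε hG0)
  have ht1 : 1 ≤ t := by
    have := (one_div_le_one_div_of_le hη (min_le_left _ _)).trans ht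
    simpa using this
  obtain ⟨z, hz⟩ := hF 1 (Finset.mem_singleton_self _)
  rw [mul_one] at hz
  have hz1 : |t - z| ≤ 1 := hz.trans (min_le_left _ _)
  have hz2 : |t - z| ≤ ε / G := hz.trans (min_le_right _ _)
  have hz0 : 0 ≤ z := by
    have h1 := (abs_le.1 hz1).2
    have h2 : (0 : ℝ) ≤ z := by linarith
    exact_mod_cast h2
  obtain ⟨j, rfl⟩ := Int.eq_ofNat_of_zero_le hz0
  -- the representation
  let R : L → Setoid (Fin j → W) := fun x =>
    { r := fun v w => ∀ i, f x (v i) (w i)
      iseqv := ⟨fun v i => Setoid.refl' _ _, fun h i => Setoid.symm' _ (h i),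
        fun h1 h2 i => Setoid.trans' _ (h1 i) (h2 i)⟩ }
  have hR : ∀ x (v w : Fin j → W), R x v w ↔ ∀ i, f x (v i) (w i) := fun x v w => Iff.rfl
  have hcard : ∀ x (v : Fin j → W), {w | R x v w}.ncard = n x ^ j := by
    intro x v
    have e : {w | R x v w} = Set.pi Set.univ (fun i => {u | f x (v i) u}) := by
      ext w
      simp only [Set.mem_ofPred_eq, Set.mem_univ_pi]
      exact hR x v w
    have := Fintype.ofFinite W
    rw [e, Set.ncard_eq_toFinset_card', Set.toFinset_card]
    rw [Fintype.card_congr (Equiv.Set.univPi (fun i => {u | f x (v i) u})), Fintype.card_pi]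
    rw [Finset.prod_eq_pow_card (b := n x)]
    · simp
    · intro i _
      rw [← hn x (v i), Set.ncard_eq_toFinset_card', Set.toFinset_card]
  have hRmono : ∀ {x y : L}, x ≤ y → R x ≤ R y := by
    intro x y h v w hvw i
    exact hmono h (hvw i)
  have hlog : ∀ {p q : L}, p ≤ q → ∀ v, Real.log (cnt (R p) (R q) v) = j * (Real.log (n q) - Real.log (n p)) := by
    intro p q hpq v
    have h1 := cnt_uniform (hRmono hpq) _ _ (hcard p) (hcard q) v
    have h2 : (cnt (R p) (R q) v : ℝ) * (n p : ℝ) ^ j = (n q : ℝ) ^ j := by exact_mod_cast h1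
    have h3 : (0 : ℝ) < cnt (R p) (R q) v := by
      have := cnt_pos (R p) (R q) v
      exact_mod_cast this
    have h4 : Real.log ((cnt (R p) (R q) v : ℝ) * (n p : ℝ) ^ j) = Real.log ((n q : ℝ) ^ j) := by rw [h2]
    rw [Real.log_mul h3.ne' (pow_pos (hposR p) j).ne', Real.log_pow, Real.log_pow] at h4
    linarith
  have hdiff : ∀ p q : L, |((j : ℤ) : ℝ) * (Real.log (n q) - Real.log (n p)) - t * (Real.log (n q) - Real.log (n p))| ≤ ε := by
    intro p q
    rw [← sub_mul, abs_mul, abs_sub_comm]
    calc |t - ((j : ℤ) : ℝ)| * |Real.log (n q) - Real.log (n p)| ≤ ε / G * G :=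
          mul_le_mul hz2 (hG p q) (abs_nonneg _) (by positivity)
      _ = ε := div_mul_cancel₀ _ hG0.ne'
  refine ⟨Fin j → W, inferInstance, inferInstance, R, ?_, ?_, ?_⟩
  · intro x _ y _
    ext v w
    show (∀ i, f (x ⊓ y) (v i) (w i)) ↔ ((∀ i, f x (v i) (w i)) ∧ ∀ i, f y (v i) (w i))
    rw [hinf, ← forall_and]
    rfl
  · intro p _ q _ hpq v
    have h3 : (0 : ℝ) < cnt (R p) (R q) v := by
      have := cnt_pos (R p) (R q) v
      exact_mod_cast this
    rw [← Real.le_log_iff_exp_le h3, hlog hpq v]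
    have := abs_le.1 (hdiff p q)
    push_cast at this
    linarith [this.1]
  · intro p _ q _ hpq v
    have h3 : (0 : ℝ) < cnt (R p) (R q) v := by
      have := cnt_pos (R p) (R q) v
      exact_mod_cast this
    rw [← Real.log_le_iff_le_exp h3, hlog hpq v]
    have := abs_le.1 (hdiff p q)
    push_cast at this
    linarith [this.2]

end H41.NU
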