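import Pool.Agent.H41.NU.GG
import Pool.Agent.H41.NU.T2
import Pool.Agent.H41.NU.Dir
import Pool.Agent.H41.NU.Grp
import Pool.Agent.H41.NU.Uni
import Pool.Agent.H41.NU.Sub
import Pool.Agent.H41.NU.Prd

/-! # NU.Cls : the two classes of lattices and the closure theorem -/

namespace H41.NU

/-- The smallest class of pairs (lattice, real valued function on it) with the following properties.
`subgroups`: a lattice `L` with an embedding `f` in the subgroups of a finite group, meets going to
intersections and joins to products of subgroups, with the function `log |f x|`, belongs to it. `uniform`: more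
generally a lattice `L` with an embedding `f` in the equivalence relations on a nonempty finite set `W`, meets
going to intersections and joins to relational products `f x ; f y` (a type 1 representation), such that all
classes of `f x` have the same number `n x` of elements, with the function `log (n x)`, belongs to it. It is
closed under `affine` changes `c r + e`, `c > 0`, of the function, under sublattices (`sub`), under products
with the function `r + s` (`prod`) and under gluing (`glue`): if every element of `L` is `≤ b` or `≥ a`, where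
`a ≤ b` and the interval `[a, b]` is distributive, and the ideal `Iic b` and the filter `Ici a` with the
restrictions of `r` belong to it, so does `L` with `r`. -/
inductive Valued : ∀ (L : Type) [Lattice L], (L → ℝ) → Prop
  | subgroups {L G : Type} [Lattice L] [Group G] [Finite G] (f : L → Subgroup G)
      (hf : Function.Injective f) (hinf : ∀ x y, f (x ⊓ y) = f x ⊓ f y)
      (hsup : ∀ x y, ∀ g : G, g ∈ f (x ⊔ y) ↔ ∃ h ∈ f x, ∃ k ∈ f y, h * k = g) :
      Valued L (fun x => Real.log (Nat.card (f x)))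
  | uniform {L W : Type} [Lattice L] [Finite W] [Nonempty W] (f : L → Setoid W)
      (hf : Function.Injective f) (hinf : ∀ x y, f (x ⊓ y) = f x ⊓ f y)
      (hsup : ∀ x y, ∀ s t : W, f (x ⊔ y) s t ↔ ∃ u, f x s u ∧ f y u t)
      (n : L → ℕ) (hn : ∀ x, ∀ w : W, {u | f x w u}.ncard = n x) : Valued L (fun x => Real.log (n x))
  | affine {L : Type} [Lattice L] {r : L → ℝ} (c e : ℝ) (hc : 0 < c) :
      Valued L r → Valued L (fun x => c * r x + e)
  | sub {L M : Type} [Lattice L] [Lattice M] {r : M → ℝ} (f : LatticeHom L M)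
      (hf : Function.Injective f) : Valued M r → Valued L (fun x => r (f x))
  | prod {L M : Type} [Lattice L] [Lattice M] {r : L → ℝ} {s : M → ℝ} :
      Valued L r → Valued M s → Valued (L × M) (fun x => r x.1 + s x.2)
  | glue {L : Type} [Lattice L] {a b : L} {r : L → ℝ} (hab : a ≤ b) (hcov : ∀ x : L, x ≤ b ∨ a ≤ x)
      (hd : ∀ x ∈ Set.Icc a b, ∀ y ∈ Set.Icc a b, ∀ z ∈ Set.Icc a b, x ⊓ (y ⊔ z) = (x ⊓ y) ⊔ (x ⊓ z)) :
      Valued (Set.Iic b) (fun x => r x.1) → Valued (Set.Ici a) (fun x => r x.1) → Valued L r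

/-- The smallest class of lattices which contains the lattices of permuting subgroups of finite groups
(`subgroups`, as above) and the lattices with a `uniform` type 1 representation on a finite set, and is closed under sublattices, products and gluing over two-element chains: if `b`
covers `a`, every element of `L` is `≤ b` or `≥ a`, and `Iic b` and `Ici a` belong to it, so does `L`. -/
inductive Tower : ∀ (L : Type) [Lattice L], Prop
  | subgroups {L G : Type} [Lattice L] [Group G] [Finite G] (f : L → Subgroup G)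
      (hf : Function.Injective f) (hinf : ∀ x y, f (x ⊓ y) = f x ⊓ f y)
      (hsup : ∀ x y, ∀ g : G, g ∈ f (x ⊔ y) ↔ ∃ h ∈ f x, ∃ k ∈ f y, h * k = g) : Tower L
  | uniform {L W : Type} [Lattice L] [Finite W] [Nonempty W] (f : L → Setoid W)
      (hf : Function.Injective f) (hinf : ∀ x y, f (x ⊓ y) = f x ⊓ f y)
      (hsup : ∀ x y, ∀ s t : W, f (x ⊔ y) s t ↔ ∃ u, f x s u ∧ f y u t)
      (n : L → ℕ) (hn : ∀ x, ∀ w : W, {u | f x w u}.ncard = n x) : Tower L
  | sub {L M : Type} [Lattice L] [Lattice M] (f : LatticeHom L M) (hf : Function.Injective f) :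
      Tower M → Tower L
  | prod {L M : Type} [Lattice L] [Lattice M] : Tower L → Tower M → Tower (L × M)
  | glue {L : Type} [Lattice L] {a b : L} (hab : a ⋖ b) (hcov : ∀ x : L, x ≤ b ∨ a ≤ x) :
      Tower (Set.Iic b) → Tower (Set.Ici a) → Tower L

theorem Valued.good {L : Type} [Lattice L] {r : L → ℝ} (h : Valued L r) : Good L r := by
  induction h with
  | subgroups f hf hinf hsup => exact good_subgroup f hf hinf hsup
  | uniform f hf hinf hsup n hn => exact good_uniform f hf hinf hsup n hn
  | affine c e hc _ ih => exact good_affine ih c e hc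
  | sub f hf _ ih => exact good_sub ih f hf
  | prod _ _ ih1 ih2 => exact good_prod ih1 ih2
  | glue hab hcov hd _ _ ih1 ih2 =>
    exact good_glue hab hcov (fun x y z h1 h2 h3 h4 h5 h6 => hd x ⟨h1, h2⟩ y ⟨h3, h4⟩ z ⟨h5, h6⟩) ih1 ih2

/-- a good valued lattice has a type 2 representation on a finite set -/
theorem Good.type2 {L : Type} [Lattice L] {r : L → ℝ} (h : Good L r) :
    ∃ (A : Type) (_ : Finite A) (G : LatticeHom L (Setoid A)), Function.Injective G ∧
      ∀ x y : L, ∀ s t : A, G (x ⊔ y) s t ↔ ∃ c d : A, G x s c ∧ G y c d ∧ G x d t := by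
  classical
  obtain ⟨hfin, hr, F, hF⟩ := h
  obtain ⟨η, hη, hη'⟩ := hF (1 / 4) (by norm_num)
  -- the smallest gap
  have hgap : ∃ g : ℝ, 0 < g ∧ ∀ p q : L, p < q → g ≤ r q - r p := by
    by_cases hs : {z : L × L | z.1 < z.2}.Nonempty
    · obtain ⟨z, hz, hmin⟩ := Set.exists_min_image {z : L × L | z.1 < z.2} (fun z => r z.2 - r z.1)
        (Set.toFinite _) hs
      refine ⟨r z.2 - r z.1, ?_, fun p q hpq => hmin (p, q) hpq⟩
      have := hr.lt _ (Set.mem_univ _) _ (Set.mem_univ _) hz
      linarith
    · exact ⟨1, one_pos, fun p q hpq => absurd ⟨(p, q), hpq⟩ hs⟩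
  obtain ⟨g, hg, hg'⟩ := hgap
  obtain ⟨t, ht, hβ⟩ := exists_scale F η (max (1 / η) (1 / g)) hη
  have ht1 : 1 / η ≤ t := (le_max_left _ _).trans ht
  have ht2 : 1 / g ≤ t := (le_max_right _ _).trans ht
  obtain ⟨V, fV, nV, R, hR⟩ := hη' t ht1 hβ
  obtain ⟨G, h1, h2⟩ := type2_of_nearly hr hR le_rfl (by
    intro p q hpq
    have h3 := hg' p q hpq
    have h4 : 1 ≤ t * g := by
      rw [div_le_iff₀ hg] at ht2
      exact ht2
    have h5 : 0 < t := lt_of_lt_of_le (by positivity) ht2
    have h6 : t * g ≤ t * (r q - r p) := mul_le_mul_of_nonneg_left h3 h5.le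
    linarith)
  exact ⟨V, fV, G, h1, h2⟩

/-- every lattice of the second class carries a valuation with which it belongs to the first class -/
theorem Tower.valued {L : Type} [Lattice L] (h : Tower L) : ∃ r : L → ℝ, Valued L r := by
  induction h with
  | subgroups f hf hinf hsup => exact ⟨_, Valued.subgroups f hf hinf hsup⟩
  | uniform f hf hinf hsup n hn => exact ⟨_, Valued.uniform f hf hinf hsup n hn⟩
  | sub f hf _ ih =>
    obtain ⟨r, hr⟩ := ih
    exact ⟨_, Valued.sub f hf hr⟩
  | prod _ _ ih1 ih2 =>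
    obtain ⟨r, hr⟩ := ih1
    obtain ⟨s, hs⟩ := ih2
    exact ⟨_, Valued.prod hr hs⟩
  | @glue L _ a b hab hcov _ _ ih1 ih2 =>
    classical
    obtain ⟨r₁, h1⟩ := ih1
    obtain ⟨r₂, h2⟩ := ih2
    have v1 : r₁ ⟨a, hab.le⟩ < r₁ ⟨b, le_rfl⟩ := h1.good.2.1.lt _ (Set.mem_univ _) _ (Set.mem_univ _) hab.lt
    have v2 : r₂ ⟨a, le_rfl⟩ < r₂ ⟨b, hab.le⟩ := h2.good.2.1.lt _ (Set.mem_univ _) _ (Set.mem_univ _) hab.lt
    set c : ℝ := (r₁ ⟨b, le_rfl⟩ - r₁ ⟨a, hab.le⟩) / (r₂ ⟨b, hab.le⟩ - r₂ ⟨a, le_rfl⟩) with hc
    have hc0 : 0 < c := div_pos (by linarith) (by linarith)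
    set e : ℝ := r₁ ⟨a, hab.le⟩ - c * r₂ ⟨a, le_rfl⟩ with he
    let r : L → ℝ := fun x => if h : x ≤ b then r₁ ⟨x, h⟩ else if h' : a ≤ x then c * r₂ ⟨x, h'⟩ + e else 0
    have hab' : c * (r₂ ⟨b, hab.le⟩ - r₂ ⟨a, le_rfl⟩) = r₁ ⟨b, le_rfl⟩ - r₁ ⟨a, hab.le⟩ := by
      rw [hc]
      exact div_mul_cancel₀ _ (by linarith)
    refine ⟨r, Valued.glue hab.le hcov ?_ ?_ ?_⟩
    · intro x hx y hy z hz
      have key : ∀ x, x ∈ Set.Icc a b → x = a ∨ x = b := fun x hx => hab.eq_or_eq hx.1 hx.2
      have hab1 := hab.le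
      rcases key x hx with rfl | rfl <;> rcases key y hy with rfl | rfl <;> rcases key z hz with rfl | rfl <;>
        simp [hab1]
    · have e1 : (fun x : Set.Iic b => r x.1) = r₁ := by
        funext x
        simp only [r]
        rw [dif_pos (Set.mem_Iic.1 x.2)]
      rw [e1]
      exact h1
    · have e2 : (fun x : Set.Ici a => r x.1) = fun x => c * r₂ x + e := by
        funext x
        simp only [r]
        by_cases hx : x.1 ≤ b
        · rw [dif_pos hx]
          rcases hab.eq_or_eq (Set.mem_Ici.1 x.2) hx with h | h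
          · have h3 : x = ⟨a, Set.mem_Ici.2 le_rfl⟩ := Subtype.ext h
            subst h3
            simp only [he]
            ring
          · have h3 : x = ⟨b, Set.mem_Ici.2 hab.le⟩ := Subtype.ext h
            subst h3
            simp only [he]
            linarith
        · rw [dif_neg hx, dif_pos (Set.mem_Ici.1 x.2)]
      rw [e2]
      exact Valued.affine c e hc0 h2

end H41.NU
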