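import Pool.Agent.H41.NU.Def

/-! # NU.Cnt : basic facts about the numbers of classes (about 150 lines)

All sets are finite. `ncl_le_rel`: choose for every class in `A` a point `v` of it in `A` and a partner `w` in `B`; different classes get partners in different `T`-classes. `ncl_mono`, `ncl_congr`, `ncl_anti` are special
cases. Fibres: the classes of the finer relation `S` which meet `A` are divided according to the classes of `M`. `exists_common`: two subsets of a finite set with too many elements together meet. `cnt_inf`: two points of one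
`T`-class are in relation `S ⊓ T` iff they are in relation `S`. -/

namespace H41.NU

theorem ncl_le_rel {V W : Type} [Finite V] [Finite W] (S : Setoid V) (T : Setoid W) (A : Set V) (B : Set W)
    (ρ : V → W → Prop) (h1 : ∀ v ∈ A, ∃ w ∈ B, ρ v w)
    (h2 : ∀ v ∈ A, ∀ v' ∈ A, ∀ w ∈ B, ∀ w' ∈ B, ρ v w → ρ v' w' → T w w' → S v v') : ncl S A ≤ ncl T B := by
  rcases A.eq_empty_or_nonempty with rfl | ⟨v0, hv0⟩
  · simp [ncl]
  obtain ⟨w0, _, _⟩ := h1 v0 hv0
  have : Nonempty V := ⟨v0⟩
  have : Nonempty W := ⟨w0⟩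
  have hc : ∀ c ∈ Quotient.mk S '' A, ∃ v, v ∈ A ∧ Quotient.mk S v = c := by
    rintro c ⟨v, hv, rfl⟩
    exact ⟨v, hv, rfl⟩
  choose! v hvA hv using hc
  choose! w hwB hw using h1
  refine Set.ncard_le_ncard_of_injOn (fun c => Quotient.mk T (w (v c))) ?_ ?_ (Set.toFinite _)
  · intro c hc
    exact ⟨w (v c), hwB _ (hvA c hc), rfl⟩
  · intro c hc c' hc' h
    have h3 : T (w (v c)) (w (v c')) := Quotient.exact h
    have h4 : S (v c) (v c') := h2 _ (hvA c hc) _ (hvA c' hc') _ (hwB _ (hvA c hc)) _ (hwB _ (hvA c' hc'))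
      (hw _ (hvA c hc)) (hw _ (hvA c' hc')) h3
    rw [← hv c hc, ← hv c' hc']
    exact Quotient.sound h4

theorem ncl_mono {V : Type} [Finite V] (S : Setoid V) {A B : Set V} (h : A ⊆ B) : ncl S A ≤ ncl S B := by
  exact Set.ncard_le_ncard (Set.image_mono h) (Set.toFinite _)

theorem ncl_congr {V : Type} [Finite V] (S T : Setoid V) (A : Set V)
    (h : ∀ v ∈ A, ∀ w ∈ A, (S v w ↔ T v w)) : ncl S A = ncl T A := by
  apply le_antisymm
  · refine ncl_le_rel S T A A (fun x y => x = y) (fun v hv => ⟨v, hv, rfl⟩) ?_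
    intro v hv v' hv' w _ w' _ e e' hT
    subst e
    subst e'
    exact (h v hv v' hv').2 hT
  · refine ncl_le_rel T S A A (fun x y => x = y) (fun v hv => ⟨v, hv, rfl⟩) ?_
    intro v hv v' hv' w _ w' _ e e' hS
    subst e
    subst e'
    exact (h v hv v' hv').1 hS

theorem ncl_pos {V : Type} [Finite V] (S : Setoid V) {A : Set V} (h : A.Nonempty) : 1 ≤ ncl S A := by
  have h1 : 0 < (Quotient.mk S '' A).ncard := (Set.ncard_pos (Set.toFinite _)).2 (h.image _)
  exact h1

theorem ncl_eq_zero {V : Type} [Finite V] (S : Setoid V) {A : Set V} (h : ncl S A = 0) : A = ∅ := by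
  by_contra hA
  have h1 := ncl_pos S (Set.nonempty_iff_ne_empty.2 hA)
  omega

/-- the map between the quotients -/
private def qmap {V : Type} {S M : Setoid V} (h : S ≤ M) : Quotient S → Quotient M :=
  Quotient.map' id (fun _ _ hab => h hab)

private theorem image_fiber {V : Type} {S M : Setoid V} (h : S ≤ M) (A : Set V) (v : V) :
    Quotient.mk S '' (A ∩ {w | M v w}) = {c | c ∈ Quotient.mk S '' A ∧ qmap h c = Quotient.mk M v} := by
  ext c
  constructor
  · rintro ⟨a, ⟨ha, hM⟩, rfl⟩
    refine ⟨⟨a, ha, rfl⟩, ?_⟩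
    exact Quotient.sound (M.symm' hM)
  · rintro ⟨⟨a, ha, rfl⟩, hc⟩
    refine ⟨a, ⟨ha, ?_⟩, rfl⟩
    have h1 : M a v := Quotient.exact hc
    exact M.symm' h1

private theorem ncl_fiber {V : Type} [Finite V] {S M : Setoid V} (h : S ≤ M) (A : Set V) (v : V)
    [Fintype (Quotient S)] [DecidableEq (Quotient S)] [DecidableEq (Quotient M)] [DecidablePred (· ∈ Quotient.mk S '' A)] :
    ncl S (A ∩ {w | M v w}) =
      ((Finset.univ.filter (fun c => c ∈ Quotient.mk S '' A)).filter (fun c => qmap h c = Quotient.mk M v)).card := by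
  unfold ncl
  rw [image_fiber h A v, Set.ncard_eq_toFinset_card']
  congr 1
  ext c
  simp

theorem ncl_fiber_ge {V : Type} [Finite V] {S M : Setoid V} (h : S ≤ M) (A B : Set V) (hBA : B ⊆ A) (k : ℝ)
    (hk : 0 ≤ k) (hB : ∀ v ∈ B, k ≤ ncl S (A ∩ {w | M v w})) : (ncl M B : ℝ) * k ≤ ncl S A := by
  classical
  have : Fintype (Quotient S) := Fintype.ofFinite _
  have : Fintype (Quotient M) := Fintype.ofFinite _
  set X : Finset (Quotient S) := Finset.univ.filter (fun c => c ∈ Quotient.mk S '' A) with hX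
  set Y : Finset (Quotient M) := Finset.univ.filter (fun c => c ∈ Quotient.mk M '' B) with hY
  have hXc : ncl S A = X.card := by
    unfold ncl
    rw [Set.ncard_eq_toFinset_card']
    congr 1
    ext c
    simp [hX]
  have hYc : ncl M B = Y.card := by
    unfold ncl
    rw [Set.ncard_eq_toFinset_card']
    congr 1
    ext c
    simp [hY]
  have h1 : (∑ b ∈ Y, (X.filter (fun c => qmap h c = b)).card) ≤ X.card := by
    rw [← Finset.card_biUnion]
    · apply Finset.card_le_card
      intro c hc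
      rw [Finset.mem_biUnion] at hc
      obtain ⟨b, _, hb⟩ := hc
      exact (Finset.mem_filter.1 hb).1
    · intro b _ b' _ hbb
      change Disjoint (X.filter (fun c => qmap h c = b)) (X.filter (fun c => qmap h c = b'))
      rw [Finset.disjoint_left]
      intro c hc hc'
      exact hbb ((Finset.mem_filter.1 hc).2.symm.trans (Finset.mem_filter.1 hc').2)
  have h2 : (Y.card : ℝ) * k ≤ ((∑ b ∈ Y, (X.filter (fun c => qmap h c = b)).card : ℕ) : ℝ) := by
    push_cast
    rw [← nsmul_eq_mul]
    apply Finset.card_nsmul_le_sum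
    intro b hb
    obtain ⟨v, hv, rfl⟩ := (Finset.mem_filter.1 hb).2
    have h3 := hB v hv
    rw [ncl_fiber h A v] at h3
    exact h3
  rw [hXc, hYc]
  exact h2.trans (by exact_mod_cast h1)

theorem ncl_fiber_le {V : Type} [Finite V] {S M : Setoid V} (h : S ≤ M) (A : Set V) (k : ℝ)
    (hA : ∀ v ∈ A, (ncl S (A ∩ {w | M v w}) : ℝ) ≤ k) : (ncl S A : ℝ) ≤ ncl M A * k := by
  classical
  have : Fintype (Quotient S) := Fintype.ofFinite _
  have : Fintype (Quotient M) := Fintype.ofFinite _
  set X : Finset (Quotient S) := Finset.univ.filter (fun c => c ∈ Quotient.mk S '' A) with hX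
  set Y : Finset (Quotient M) := Finset.univ.filter (fun c => c ∈ Quotient.mk M '' A) with hY
  have hXc : ncl S A = X.card := by
    unfold ncl
    rw [Set.ncard_eq_toFinset_card']
    congr 1
    ext c
    simp [hX]
  have hYc : ncl M A = Y.card := by
    unfold ncl
    rw [Set.ncard_eq_toFinset_card']
    congr 1
    ext c
    simp [hY]
  have h1 : X.card = ∑ b ∈ Y, (X.filter (fun c => qmap h c = b)).card := by
    apply Finset.card_eq_sum_card_fiberwise
    intro c hc
    have hc' : c ∈ X := hc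
    obtain ⟨a, ha, rfl⟩ := (Finset.mem_filter.1 hc').2
    have h5 : qmap h (Quotient.mk S a) ∈ Y :=
      Finset.mem_filter.2 ⟨Finset.mem_univ _, ⟨a, ha, rfl⟩⟩
    exact h5
  have h2 : ((∑ b ∈ Y, (X.filter (fun c => qmap h c = b)).card : ℕ) : ℝ) ≤ (Y.card : ℝ) * k := by
    push_cast
    rw [← nsmul_eq_mul]
    apply Finset.sum_le_card_nsmul
    intro b hb
    obtain ⟨v, hv, rfl⟩ := (Finset.mem_filter.1 hb).2
    have h3 := hA v hv
    rw [ncl_fiber h A v] at h3
    exact h3
  rw [hXc, hYc, h1]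
  exact h2

theorem exists_common {V : Type} [Finite V] (S : Setoid V) {A B D : Set V} (hA : A ⊆ D) (hB : B ⊆ D)
    (h : ncl S D < ncl S A + ncl S B) : ∃ v ∈ A, ∃ w ∈ B, S v w := by
  by_contra hcon
  push Not at hcon
  have hd : Disjoint (Quotient.mk S '' A) (Quotient.mk S '' B) := by
    rw [Set.disjoint_left]
    rintro c ⟨a, ha, rfl⟩ ⟨b, hb, hbc⟩
    have h1 : S b a := Quotient.exact hbc
    exact hcon a ha b hb (S.symm' h1)
  have h2 : (Quotient.mk S '' A ∪ Quotient.mk S '' B).ncard = ncl S A + ncl S B :=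
    Set.ncard_union_eq hd (Set.toFinite _) (Set.toFinite _)
  have h3 : (Quotient.mk S '' A ∪ Quotient.mk S '' B).ncard ≤ ncl S D := by
    apply Set.ncard_le_ncard _ (Set.toFinite _)
    exact Set.union_subset (Set.image_mono hA) (Set.image_mono hB)
  omega

theorem cnt_inf {V : Type} [Finite V] (S T : Setoid V) (v : V) : cnt (S ⊓ T) T v = cnt S T v := by
  apply ncl_congr
  intro a ha b hb
  have ha' : T v a := ha
  have hb' : T v b := hb
  change (S a b ∧ T a b) ↔ S a b
  constructor
  · exact fun hh => hh.1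
  · exact fun hh => ⟨hh, T.trans' (T.symm' ha') hb'⟩

theorem cnt_congr {V : Type} (S T : Setoid V) {v w : V} (h : T v w) : cnt S T v = cnt S T w := by
  have h1 : {x | T v x} = {x | T w x} := by
    ext x
    exact ⟨fun hx => T.trans' (T.symm' h) hx, fun hx => T.trans' h hx⟩
  unfold cnt
  rw [h1]

theorem cnt_pos {V : Type} [Finite V] (S T : Setoid V) (v : V) : 1 ≤ cnt S T v := by
  exact ncl_pos S ⟨v, T.refl' v⟩

theorem cnt_self {V : Type} [Finite V] (S : Setoid V) (v : V) : cnt S S v = 1 := by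
  have h1 : Quotient.mk S '' {w | S v w} = {Quotient.mk S v} := by
    ext c
    constructor
    · rintro ⟨w, hw, rfl⟩
      exact Quotient.sound (S.symm' hw)
    · rintro rfl
      exact ⟨v, S.refl' v, rfl⟩
  unfold cnt ncl
  rw [h1, Set.ncard_singleton]

/-- monotonicity of a representation -/
theorem Nearly.mono {L V : Type} [Lattice L] {D : Set L} {r : L → ℝ} {t ε : ℝ} {R : L → Setoid V}
    (h : Nearly D r t ε R) {x y : L} (hx : x ∈ D) (hy : y ∈ D) (hxy : x ≤ y) : R x ≤ R y := by
  have h1 := h.inf x hx y hy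
  rw [inf_eq_left.2 hxy] at h1
  rw [h1]
  exact inf_le_right

/-- classes of `R p` in an `R q`-class for arbitrary `p`, `q` -/
theorem Nearly.lo' {L V : Type} [Lattice L] [Finite V] {D : Set L} {r : L → ℝ} {t ε : ℝ} {R : L → Setoid V}
    (h : Nearly D r t ε R) {p q : L} (hp : p ∈ D) (hq : q ∈ D) (hpq : p ⊓ q ∈ D) (v : V) :
    Real.exp (t * (r q - r (p ⊓ q)) - ε) ≤ cnt (R p) (R q) v := by
  have h1 := h.lo (p ⊓ q) hpq q hq inf_le_right v
  rw [h.inf p hp q hq, cnt_inf] at h1
  exact h1

end H41.NU
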