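import Pool.Agent.H41.NU.Cnt

/-! # NU.Conn : restriction to one class, and change of the index lattice (about 100 lines)

`restrict`: `V' = {v // R m v₀ v}`, `R' x = Setoid.comap Subtype.val (R x)`. For `q ∈ D`, `q ≤ m`, `R q ≤ R m`, so the `R q`-class of a point of `V'` is contained in `V'` and the counts do not change (`ncl_le_rel` both ways). `ext_low`: from a representation of the lattice `Set.Iic b` define `R x = R₀ ⟨x ⊓ b, inf_le_right⟩`; for
`x ≤ b` it is `R₀ ⟨x, _⟩`. `ext_up` similarly with `⟨x ⊔ a, le_sup_right⟩`. -/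

namespace H41.NU

theorem restrict {L V : Type} [Lattice L] [Finite V] {D : Set L} {r : L → ℝ} {t ε : ℝ} {R : L → Setoid V}
    (h : Nearly D r t ε R) (m : L) (hm : m ∈ D) (hmD : ∀ x ∈ D, x ≤ m) (v₀ : V) :
    ∃ (V' : Type) (_ : Finite V') (_ : Nonempty V') (R' : L → Setoid V'), Nearly D r t ε R' ∧
      ∀ v w : V', R' m v w := by
  let R' : L → Setoid {v // R m v₀ v} := fun x => Setoid.comap Subtype.val (R x)
  have hR' : ∀ x (v w : {v // R m v₀ v}), R' x v w ↔ R x v.1 w.1 := fun x v w => Iff.rfl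
  have hcnt : ∀ p ∈ D, ∀ q ∈ D, p ≤ q → ∀ v : {v // R m v₀ v}, cnt (R' p) (R' q) v = cnt (R p) (R q) v.1 := by
    intro p hp q hq hpq v
    unfold cnt
    apply le_antisymm
    · refine ncl_le_rel (R' p) (R p) _ _ (fun w w' => w.1 = w') ?_ ?_
      · intro w hw
        exact ⟨w.1, hw, rfl⟩
      · intro w hw w' hw' k hk k' hk' e e' hkk
        have e1 : w.1 = k := e
        have e2 : w'.1 = k' := e'
        show R p w.1 w'.1
        rw [e1, e2]
        exact hkk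
    · refine ncl_le_rel (R p) (R' p) _ _ (fun w w' => w = w'.1) ?_ ?_
      · intro w hw
        have hw' : R q v.1 w := hw
        have hm' : R m v₀ w := (R m).trans v.2 (h.mono hq hm (hmD q hq) hw')
        exact ⟨⟨w, hm'⟩, hw', rfl⟩
      · intro w hw w' hw' k hk k' hk' e e' hkk
        have e1 : w = k.1 := e
        have e2 : w' = k'.1 := e'
        show R p w w'
        rw [e1, e2]
        exact hkk
  refine ⟨{v // R m v₀ v}, inferInstance, ⟨⟨v₀, (R m).refl v₀⟩⟩, R', ?_, ?_⟩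
  · refine ⟨?_, ?_, ?_⟩
    · intro x hx y hy
      show Setoid.comap Subtype.val (R (x ⊓ y)) = Setoid.comap Subtype.val (R x) ⊓ Setoid.comap Subtype.val (R y)
      rw [h.inf x hx y hy]
      rfl
    · intro p hp q hq hpq v
      rw [hcnt p hp q hq hpq v]
      exact h.lo p hp q hq hpq v.1
    · intro p hp q hq hpq v
      rw [hcnt p hp q hq hpq v]
      exact h.hi p hp q hq hpq v.1
  · intro v w
    exact (R m).trans ((R m).symm v.2) w.2

theorem ext_low {L V : Type} [Lattice L] {b : L} {r : L → ℝ} {t ε : ℝ} {R₀ : Set.Iic b → Setoid V}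
    (h : Nearly Set.univ (fun x : Set.Iic b => r x.1) t ε R₀) :
    ∃ R : L → Setoid V, Nearly (Set.Iic b) r t ε R := by
  have key : ∀ x (hx : x ∈ Set.Iic b), R₀ ⟨x ⊓ b, inf_le_right⟩ = R₀ ⟨x, hx⟩ := by
    intro x hx
    congr 1
    exact Subtype.ext (inf_eq_left.2 hx)
  refine ⟨fun x => R₀ ⟨x ⊓ b, inf_le_right⟩, ?_, ?_, ?_⟩
  · intro x hx y hy
    have hxy : x ⊓ y ∈ Set.Iic b := inf_le_left.trans hx
    show R₀ _ = R₀ _ ⊓ R₀ _
    rw [key x hx, key y hy, key (x ⊓ y) hxy, ← h.inf ⟨x, hx⟩ trivial ⟨y, hy⟩ trivial]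
    rfl
  · intro p hp q hq hpq v
    show _ ≤ ((cnt (R₀ _) (R₀ _) v : ℕ) : ℝ)
    rw [key p hp, key q hq]
    exact h.lo ⟨p, hp⟩ trivial ⟨q, hq⟩ trivial hpq v
  · intro p hp q hq hpq v
    show ((cnt (R₀ _) (R₀ _) v : ℕ) : ℝ) ≤ _
    rw [key p hp, key q hq]
    exact h.hi ⟨p, hp⟩ trivial ⟨q, hq⟩ trivial hpq v

theorem ext_up {L V : Type} [Lattice L] {a : L} {r : L → ℝ} {t ε : ℝ} {R₀ : Set.Ici a → Setoid V}
    (h : Nearly Set.univ (fun x : Set.Ici a => r x.1) t ε R₀) :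
    ∃ R : L → Setoid V, Nearly (Set.Ici a) r t ε R := by
  have key : ∀ x (hx : x ∈ Set.Ici a), R₀ ⟨x ⊔ a, le_sup_right⟩ = R₀ ⟨x, hx⟩ := by
    intro x hx
    congr 1
    exact Subtype.ext (sup_eq_left.2 hx)
  refine ⟨fun x => R₀ ⟨x ⊔ a, le_sup_right⟩, ?_, ?_, ?_⟩
  · intro x hx y hy
    have hxy : x ⊓ y ∈ Set.Ici a := le_inf hx hy
    show R₀ _ = R₀ _ ⊓ R₀ _
    rw [key x hx, key y hy, key (x ⊓ y) hxy, ← h.inf ⟨x, hx⟩ trivial ⟨y, hy⟩ trivial]
    rfl
  · intro p hp q hq hpq v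
    show _ ≤ ((cnt (R₀ _) (R₀ _) v : ℕ) : ℝ)
    rw [key p hp, key q hq]
    exact h.lo ⟨p, hp⟩ trivial ⟨q, hq⟩ trivial hpq v
  · intro p hp q hq hpq v
    show ((cnt (R₀ _) (R₀ _) v : ℕ) : ℝ) ≤ _
    rw [key p hp, key q hq]
    exact h.hi ⟨p, hp⟩ trivial ⟨q, hq⟩ trivial hpq v

end H41.NU
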