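import Pool.Agent.H41.NU.Cnt

/-! # NU.Core : classes of a retained class, lower part

Let `u = q ⊔ a`, `u' = p ⊔ a` (in `[a, b]`), `Q` = the `R q`-class of `v`, `κ = Λ v + H u` (a coset with `|H u|` elements), it contains `Λ w` for all `w ∈ Q`. Put `e = exp (-(ε + ε₁))`, `f = exp (-ε₂)`; `e + f > 1`.
(1) For every `x ∈ D` and every `w`: the set `Λ '' (R x-class of w)` lies in the coset `Λ w + H (x ⊔ a)` and has `cnt (R a) (R x) w ≥ exp (t (r x - r (x ⊓ a)) - ε) = exp (t (r (x ⊔ a) - r a) - ε) ≥ e |H (x ⊔ a)|` elements (`Nearly.lo'`, `hr.add`, `H a = ⊥`, `Emb`).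
(2) The number of cosets of `H u'` contained in `κ` is `N = |H u| / |H u'| ≥ exp (t (r u - r u') - 2 ε₁)`. By (1) for `x = q` the set `Λ '' Q` meets at least `e N` of them, by `hC` for `x = u`, `k = Λ v` the set `C` meets at least `f N` of them. So at least `(e + f - 1) N` of them are met by both.
(3) Let `τ` be a coset of `H u'` met by `Λ '' Q` and by `C`, `w ∈ Q` with `Λ w ∈ τ`. The points of `Q` with image in `τ` form the class of `w` for `R (q ⊓ u') = R q ⊓ R u'`, which meets `cnt (R p) (R (q ⊓ u')) w ≥ exp (t (r (q ⊓ u') - r p) - ε)` classes of `R p`, and everyone of these classes, say of `w'`, contains a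
point with image in `C`: by (1) for `x = p` its image has at least `e |H u'|` elements of `τ`, and `C` has at least `f |H u'|` elements in `τ` (`hC` for `x = u'` and a point of `C` in `τ`). (4) Different `τ` give different `R p`-classes (`R p ≤ R u'`). So the number wanted is at least
`(e + f - 1) N exp (t (r (q ⊓ u') - r p) - ε) ≥ (e + f - 1) exp (t (r u - r u' + r (q ⊓ u') - r p) - 2 ε₁ - ε)`, and `r u + r (q ⊓ u') = r q + r u'` as `q ⊔ u' = u`. Finally `e + f - 1 ≥ 1 - s ≥ exp (-2 s)`, `s = ε + ε₁ + ε₂ ≤ 1/2`. -/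

namespace H41.NU

theorem core_ncl_bot {V : Type} (A : Set V) : ncl (⊥ : Setoid V) A = A.ncard := by
  unfold ncl
  refine Set.ncard_image_of_injective A ?_
  intro x y h
  exact Quotient.exact h

/-- the equivalence relation of the cosets of a subgroup -/
def coreCos {K : Type} [AddCommGroup K] (G : AddSubgroup K) : Setoid K where
  r x y := x - y ∈ G
  iseqv := ⟨fun x => by simp, fun {x y} h => by
    have := G.neg_mem h
    simpa using this, fun {x y z} h h' => by
    have := G.add_mem h h'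
    simpa using this⟩

theorem coreCos_iff {K : Type} [AddCommGroup K] (G : AddSubgroup K) (x y : K) :
    coreCos G x y ↔ x - y ∈ G := Iff.rfl

theorem core_coset_ncard {K : Type} [AddCommGroup K] [Finite K] (G : AddSubgroup K) (x : K) :
    {y : K | x - y ∈ G}.ncard = Nat.card G := by
  have h : {y : K | x - y ∈ G} = (fun g : K => x - g) '' (G : Set K) := by
    ext y
    constructor
    · intro hy
      exact ⟨x - y, hy, by simp⟩
    · rintro ⟨g, hg, rfl⟩
      simpa using hg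
  rw [h, Set.ncard_image_of_injective _ (fun g g' hgg => by simpa using hgg)]
  rfl

theorem core_image {L W K : Type} [Lattice L] [Finite W] [AddCommGroup K] [Finite K] {D : Set L} {a b : L}
    {r : L → ℝ} {t ε ε₁ : ℝ} {R : L → Setoid W} {H : L → AddSubgroup K} {Λ : W → K}
    (hD : ∀ x ∈ D, ∀ y ∈ D, x ⊓ y ∈ D ∧ x ⊔ y ∈ D) (hDI : ∀ x, a ≤ x → x ≤ b → x ∈ D) (hDb : ∀ x ∈ D, x ≤ b)
    (hab : a ≤ b) (hr : Val D r) (hR : Nearly D r t ε R) (hE : Emb a b R H Λ) (hH : Mod a b r t ε₁ H)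
    {x : L} (hx : x ∈ D) (w : W) :
    Real.exp (-(ε + ε₁)) * Nat.card (H (x ⊔ a)) ≤ ((Λ '' {w' | R x w w'}).ncard : ℝ) := by
  have haD : a ∈ D := hDI a le_rfl hab
  have hbD : b ∈ D := hDI b hab le_rfl
  have h1 : Real.exp (t * (r x - r (a ⊓ x)) - ε) ≤ cnt (R a) (R x) w :=
    hR.lo' haD hx (hD a haD x hx).1 w
  have h2 : cnt (R a) (R x) w ≤ ncl (⊥ : Setoid K) (Λ '' {w' | R x w w'}) := by
    refine ncl_le_rel (R a) ⊥ {w' | R x w w'} (Λ '' {w' | R x w w'}) (fun w' k => Λ w' = k) ?_ ?_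
    · intro w' hw'
      exact ⟨Λ w', ⟨w', hw', rfl⟩, rfl⟩
    · intro w1 hw1 w2 hw2 k1 _ k2 _ e1 e2 hk
      have hk' : k1 = k2 := hk
      have hb : R b w1 w2 := by
        have m := hR.mono hx hbD (hDb x hx)
        exact (R b).trans' ((R b).symm' (m hw1)) (m hw2)
      refine (hE w1 w2 hb a le_rfl hab).2 ?_
      rw [e1, e2, hk', sub_self]
      exact (H a).zero_mem
  rw [core_ncl_bot] at h2
  have h3 : (cnt (R a) (R x) w : ℝ) ≤ ((Λ '' {w' | R x w w'}).ncard : ℝ) := by exact_mod_cast h2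
  have hxa : a ≤ x ⊔ a := le_sup_right
  have hxb : x ⊔ a ≤ b := sup_le (hDb x hx) hab
  have h4 := hH.hi (x ⊔ a) hxa hxb
  have h5 := hr.add x hx a haD
  have h6 : r x - r (a ⊓ x) = r (x ⊔ a) - r a := by
    rw [inf_comm a x]
    linarith
  calc Real.exp (-(ε + ε₁)) * Nat.card (H (x ⊔ a))
      ≤ Real.exp (-(ε + ε₁)) * Real.exp (t * (r (x ⊔ a) - r a) + ε₁) :=
        mul_le_mul_of_nonneg_left h4 (Real.exp_pos _).le
    _ = Real.exp (t * (r x - r (a ⊓ x)) - ε) := by
        rw [← Real.exp_add, h6]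
        congr 1
        ring
    _ ≤ cnt (R a) (R x) w := h1
    _ ≤ _ := h3

theorem core_inter {K : Type} [Finite K] (S : Setoid K) (X Y Z : Set K) (hX : X ⊆ Z) (hY : Y ⊆ Z) (A : Set K)
    (hA : ∀ x ∈ X, ∀ y ∈ Y, S x y → ∃ z ∈ A, S x z) : ncl S X + ncl S Y ≤ ncl S Z + ncl S A := by
  unfold ncl
  rw [← Set.ncard_union_add_ncard_inter (Quotient.mk S '' X) (Quotient.mk S '' Y)]
  refine add_le_add (Set.ncard_le_ncard ?_) (Set.ncard_le_ncard ?_)
  · rw [← Set.image_union]
    exact Set.image_mono (Set.union_subset hX hY)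
  · rintro _ ⟨⟨x, hx, rfl⟩, ⟨y, hy, hxy⟩⟩
    obtain ⟨z, hz, hxz⟩ := hA x hx y hy (Quotient.exact hxy.symm)
    exact ⟨z, hz, (Quotient.sound hxz).symm⟩

theorem core_real {s : ℝ} (h0 : 0 ≤ s) (h1 : s ≤ 1 / 2) : Real.exp (-(2 * s)) ≤ 1 - s := by
  have h2 : (1 : ℝ) + 2 * s ≤ Real.exp (2 * s) := by
    have := Real.add_one_le_exp (2 * s)
    linarith
  have h3 : (1 - s) * (1 + 2 * s) ≥ 1 := by nlinarith
  rw [Real.exp_neg, inv_eq_one_div, div_le_iff₀ (Real.exp_pos _)]
  nlinarith [mul_le_mul_of_nonneg_left h2 (by linarith : (0 : ℝ) ≤ 1 - s)]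

theorem core {L W K : Type} [Lattice L] [Finite W] [AddCommGroup K] [Finite K] {D : Set L} {a b : L}
    {r : L → ℝ} {t ε ε₁ ε₂ : ℝ} {R : L → Setoid W} {H : L → AddSubgroup K} {Λ : W → K} {C : Set K}
    (hD : ∀ x ∈ D, ∀ y ∈ D, x ⊓ y ∈ D ∧ x ⊔ y ∈ D) (hDI : ∀ x, a ≤ x → x ≤ b → x ∈ D) (hDb : ∀ x ∈ D, x ≤ b)
    (hab : a ≤ b) (hr : Val D r) (hR : Nearly D r t ε R) (hE : Emb a b R H Λ) (hH : Mod a b r t ε₁ H)
    (hC : Full a b ε₂ H C) (h0 : 0 ≤ ε) (h1 : 0 ≤ ε₁) (h2 : 0 ≤ ε₂) (hs : ε + ε₁ + ε₂ ≤ 1 / 2) {p q : L}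
    (hp : p ∈ D) (hq : q ∈ D) (hpq : p ≤ q) (v : W) (hv : Λ v ∈ C) :
    Real.exp (t * (r q - r p) - 4 * (ε + ε₁ + ε₂)) ≤ ncl (R p) {w | R q v w ∧ Λ w ∈ C} := by
  have haD : a ∈ D := hDI a le_rfl hab
  have hbD : b ∈ D := hDI b hab le_rfl
  have hqb := hDb q hq
  have hpb := hDb p hp
  have hau : a ≤ q ⊔ a := le_sup_right
  have hub : q ⊔ a ≤ b := sup_le hqb hab
  have hau' : a ≤ p ⊔ a := le_sup_right
  have hub' : p ⊔ a ≤ b := sup_le hpb hab
  have huu : p ⊔ a ≤ q ⊔ a := sup_le_sup_right hpq a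
  have huD : q ⊔ a ∈ D := hDI _ hau hub
  have huD' : p ⊔ a ∈ D := hDI _ hau' hub'
  set u := q ⊔ a with hu
  set u' := p ⊔ a with hu'
  have hqu' : q ⊓ u' ∈ D := (hD q hq u' huD').1
  have hpq' : p ≤ q ⊓ u' := le_inf hpq le_sup_left
  have hR1 : ∀ {x}, x ∈ D → ∀ {w w'}, R x w w' → R b w w' := fun {x} hx {w w'} h =>
    hR.mono hx hbD (hDb x hx) h
  set e := Real.exp (-(ε + ε₁)) with he
  set f := Real.exp (-ε₂) with hf
  have he1 : 1 - (ε + ε₁) ≤ e := by
    have := Real.add_one_le_exp (-(ε + ε₁))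
    linarith
  have hf1 : 1 - ε₂ ≤ f := by
    have := Real.add_one_le_exp (-ε₂)
    linarith
  have hef : 1 < e + f ∨ 1 ≤ e + f := Or.inr (by linarith)
  have hef1 : 1 - (ε + ε₁ + ε₂) ≤ e + f - 1 := by linarith
  have hef2 : 0 < e + f - 1 := by linarith
  -- sizes
  have hNu : (0 : ℝ) < Nat.card (H u) := by exact_mod_cast Nat.card_pos
  have hNu' : (0 : ℝ) < Nat.card (H u') := by exact_mod_cast Nat.card_pos
  set A : Set W := {w | R q v w ∧ Λ w ∈ C} with hA
  -- (3)
  have key : ∀ w ∈ {w | R q v w}, ∀ c ∈ C, Λ w - c ∈ H u' → ∃ w'' ∈ A, R p w w'' := by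
    intro w hw c hc hwc
    have i1 : e * Nat.card (H u') ≤ ((Λ '' {w' | R p w w'}).ncard : ℝ) :=
      core_image hD hDI hDb hab hr hR hE hH hp w
    have i2 : f * Nat.card (H u') ≤ ({l | l ∈ C ∧ l - c ∈ H u'}.ncard : ℝ) :=
      hC u' hau' hub' c hc
    set X := Λ '' {w' | R p w w'} with hX
    set Y := {l | l ∈ C ∧ l - c ∈ H u'} with hY
    have i3 : X ⊆ {k | c - k ∈ H u'} := by
      rintro _ ⟨w', hw', rfl⟩
      have j1 : R u' w w' := hR.mono hp huD' le_sup_left hw'
      have j2 : Λ w - Λ w' ∈ H u' := (hE w w' (hR1 hp hw') u' hau' hub').1 j1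
      have j3 := (H u').sub_mem j2 hwc
      have j4 : Λ w - Λ w' - (Λ w - c) = c - Λ w' := by abel
      rw [j4] at j3
      exact j3
    have i4 : Y ⊆ {k | c - k ∈ H u'} := by
      rintro l ⟨_, hl⟩
      have := (H u').neg_mem hl
      simpa using this
    have i5 : ({k | c - k ∈ H u'} : Set K).ncard = Nat.card (H u') := core_coset_ncard (H u') c
    have i6 : (X ∩ Y).Nonempty := by
      by_contra hne
      rw [Set.not_nonempty_iff_eq_empty] at hne
      have k1 := Set.ncard_union_add_ncard_inter X Y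
      rw [hne, Set.ncard_empty, add_zero] at k1
      have k2 : (X ∪ Y).ncard ≤ ({k | c - k ∈ H u'} : Set K).ncard :=
        Set.ncard_le_ncard (Set.union_subset i3 i4)
      rw [i5, k1] at k2
      have k3 : ((X.ncard : ℝ) + (Y.ncard : ℝ)) ≤ Nat.card (H u') := by exact_mod_cast k2
      have k4 : (e + f) * Nat.card (H u') ≤ Nat.card (H u') := by linarith
      nlinarith
    obtain ⟨_, ⟨w', hw', rfl⟩, hYk⟩ := i6
    refine ⟨w', ⟨?_, hYk.1⟩, hw'⟩
    exact (R q).trans' hw (hR.mono hp hq hpq hw')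
  -- number of classes of `R u'` in `A`
  have step1 : (e + f - 1) * Nat.card (H u) ≤ (ncl (R u') A : ℝ) * Nat.card (H u') := by
    set S' := coreCos (H u') with hS'
    set X := Λ '' {w' | R q v w'} with hX
    set Y := {l | l ∈ C ∧ l - Λ v ∈ H u} with hY
    set Z := {k | Λ v - k ∈ H u} with hZ
    have i1 : e * Nat.card (H u) ≤ (X.ncard : ℝ) := core_image hD hDI hDb hab hr hR hE hH hq v
    have i2 : f * Nat.card (H u) ≤ (Y.ncard : ℝ) := hC u hau hub (Λ v) hv
    have i3 : X ⊆ Z := by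
      rintro _ ⟨w', hw', rfl⟩
      have j1 : R u v w' := hR.mono hq huD le_sup_left hw'
      exact (hE v w' (hR1 hq hw') u hau hub).1 j1
    have i4 : Y ⊆ Z := by
      rintro l ⟨_, hl⟩
      have := (H u).neg_mem hl
      simpa [hZ] using this
    have fib : ∀ T : Set K, (T.ncard : ℝ) ≤ ncl S' T * Nat.card (H u') := by
      intro T
      have := ncl_fiber_le (S := (⊥ : Setoid K)) (M := S') bot_le T (Nat.card (H u')) (by
        intro k hk
        rw [core_ncl_bot]
        have k1 : (T ∩ {w | S' k w}).ncard ≤ ({w | k - w ∈ H u'} : Set K).ncard :=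
          Set.ncard_le_ncard Set.inter_subset_right
        rw [core_coset_ncard] at k1
        exact_mod_cast k1)
      rw [core_ncl_bot] at this
      exact this
    have fibZ : (ncl S' Z : ℝ) * Nat.card (H u') ≤ Nat.card (H u) := by
      have := ncl_fiber_ge (S := (⊥ : Setoid K)) (M := S') bot_le Z Z le_rfl (Nat.card (H u')) (by positivity) (by
        intro k hk
        rw [core_ncl_bot]
        have k1 : ({w | k - w ∈ H u'} : Set K).ncard ≤ (Z ∩ {w | S' k w}).ncard := by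
          refine Set.ncard_le_ncard ?_
          intro w hw
          refine ⟨?_, hw⟩
          have m1 : k - w ∈ H u := hH.mono u' u hau' huu hub hw
          have m2 := (H u).add_mem hk m1
          have m3 : Λ v - k + (k - w) = Λ v - w := by abel
          rw [m3] at m2
          exact m2
        rw [core_coset_ncard] at k1
        exact_mod_cast k1)
      rw [core_ncl_bot, core_coset_ncard] at this
      exact this
    have i5 : ncl S' X + ncl S' Y ≤ ncl S' Z + ncl S' (Λ '' A) := by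
      refine core_inter S' X Y Z i3 i4 (Λ '' A) ?_
      rintro _ ⟨w, hw, rfl⟩ y hy hxy
      obtain ⟨w'', hw'', hp''⟩ := key w hw y hy.1 hxy
      refine ⟨Λ w'', ⟨w'', hw'', rfl⟩, ?_⟩
      have j1 : R u' w w'' := hR.mono hp huD' le_sup_left hp''
      exact (hE w w'' (hR1 hp hp'') u' hau' hub').1 j1
    have i6 : ncl S' (Λ '' A) ≤ ncl (R u') A := by
      refine ncl_le_rel S' (R u') (Λ '' A) A (fun k w => Λ w = k) ?_ ?_
      · rintro _ ⟨w, hw, rfl⟩
        exact ⟨w, hw, rfl⟩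
      · intro k1 _ k2 _ w1 hw1 w2 hw2 e1 e2 hk
        have hb : R b w1 w2 := (R b).trans' ((R b).symm' (hR1 hq hw1.1)) (hR1 hq hw2.1)
        have := (hE w1 w2 hb u' hau' hub').1 hk
        rw [e1, e2] at this
        exact this
    have i7 : (ncl S' X : ℝ) + ncl S' Y ≤ ncl S' Z + ncl (R u') A := by
      have : ncl S' X + ncl S' Y ≤ ncl S' Z + ncl (R u') A := le_trans i5 (by omega)
      exact_mod_cast this
    have i8 := mul_le_mul_of_nonneg_right i7 hNu'.le
    have i9 := fib X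
    have i10 := fib Y
    nlinarith
  -- fibres
  set k := Real.exp (t * (r (q ⊓ u') - r p) - ε) with hk
  have step2 : (ncl (R u') A : ℝ) * k ≤ ncl (R p) A := by
    refine ncl_fiber_ge (S := R p) (M := R u') (hR.mono hp huD' le_sup_left) A A le_rfl k (Real.exp_pos _).le ?_
    intro w hw
    have j1 : k ≤ cnt (R p) (R (q ⊓ u')) w := hR.lo p hp (q ⊓ u') hqu' hpq' w
    have j2 : cnt (R p) (R (q ⊓ u')) w ≤ ncl (R p) (A ∩ {w' | R u' w w'}) := by
      refine ncl_le_rel (R p) (R p) {w' | R (q ⊓ u') w w'} (A ∩ {w' | R u' w w'}) (fun x y => R p x y) ?_ ?_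
      · intro w' hw'
        have l1 : R (q ⊓ u') w w' := hw'
        rw [hR.inf q hq u' huD'] at l1
        obtain ⟨l2, l3⟩ := l1
        have l4 : R q v w' := (R q).trans' hw.1 l2
        have l5 : Λ w' - Λ w ∈ H u' :=
          (hE w' w ((R b).symm' (hR1 hq l2)) u' hau' hub').1 ((R u').symm' l3)
        obtain ⟨w'', m1, m2⟩ := key w' l4 (Λ w) hw.2 l5
        exact ⟨w'', ⟨m1, (R u').trans' l3 (hR.mono hp huD' le_sup_left m2)⟩, m2⟩
      · intro x _ x' _ y _ y' _ g1 g2 g3
        exact (R p).trans' g1 ((R p).trans' g3 ((R p).symm' g2))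
    exact le_trans j1 (by exact_mod_cast j2)
  -- final computation
  have hlo := hH.lo u hau hub
  have hhi := hH.hi u' hau' hub'
  have hrr : r u + r (q ⊓ u') = r q + r u' := by
    have := hr.add q hq u' huD'
    have h' : q ⊔ u' = u := by
      rw [hu', hu, ← sup_assoc, sup_eq_left.2 hpq]
    rw [h'] at this
    linarith
  have hN : Real.exp (t * (r u - r u') - 2 * ε₁) * Nat.card (H u') ≤ Nat.card (H u) := by
    calc Real.exp (t * (r u - r u') - 2 * ε₁) * Nat.card (H u')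
        ≤ Real.exp (t * (r u - r u') - 2 * ε₁) * Real.exp (t * (r u' - r a) + ε₁) :=
          mul_le_mul_of_nonneg_left hhi (Real.exp_pos _).le
      _ = Real.exp (t * (r u - r a) - ε₁) := by
          rw [← Real.exp_add]
          congr 1
          ring
      _ ≤ _ := hlo
  have hM : (e + f - 1) * Real.exp (t * (r u - r u') - 2 * ε₁) ≤ ncl (R u') A := by
    have m1 : (e + f - 1) * Real.exp (t * (r u - r u') - 2 * ε₁) * Nat.card (H u')
        ≤ (ncl (R u') A : ℝ) * Nat.card (H u') := by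
      calc _ = (e + f - 1) * (Real.exp (t * (r u - r u') - 2 * ε₁) * Nat.card (H u')) := by ring
        _ ≤ (e + f - 1) * Nat.card (H u) := mul_le_mul_of_nonneg_left hN hef2.le
        _ ≤ _ := step1
    exact le_of_mul_le_mul_right m1 hNu'
  have hs0 : 0 ≤ ε + ε₁ + ε₂ := by linarith
  calc Real.exp (t * (r q - r p) - 4 * (ε + ε₁ + ε₂))
      ≤ Real.exp (-(2 * (ε + ε₁ + ε₂)) + ((t * (r u - r u') - 2 * ε₁) + (t * (r (q ⊓ u') - r p) - ε))) := by
        refine Real.exp_le_exp.2 ?_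
        have : t * (r u - r u') + t * (r (q ⊓ u') - r p) = t * (r q - r p) := by
          rw [← mul_add]
          congr 1
          linarith
        linarith
    _ = Real.exp (-(2 * (ε + ε₁ + ε₂))) * Real.exp (t * (r u - r u') - 2 * ε₁) * k := by
        rw [hk, Real.exp_add, Real.exp_add, mul_assoc]
    _ ≤ (e + f - 1) * Real.exp (t * (r u - r u') - 2 * ε₁) * k := by
        refine mul_le_mul_of_nonneg_right (mul_le_mul_of_nonneg_right ?_ (Real.exp_pos _).le) (Real.exp_pos _).le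
        exact le_trans (core_real hs0 hs) hef1
    _ ≤ (ncl (R u') A : ℝ) * k := mul_le_mul_of_nonneg_right hM (Real.exp_pos _).le
    _ ≤ _ := step2

end H41.NU
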