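import Mathlib

/-! # NU.Def : definitions for MP_9a066f_al, nearly uniform representations

`ncl S A` = number of classes of the equivalence relation `S` which meet the set `A`.
`cnt S T v` = number of classes of `S` which meet the `T`-class of `v`.
`Nearly D r t ε R`: the map `R` from the lattice `L` to the equivalence relations on `V` preserves meets of elements of
`D` and for all `p ≤ q` in `D` every `R q`-class meets between `exp (t (r q - r p) - ε)` and `exp (t (r q - r p) + ε)`
classes of `R p`. -/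

namespace H41.NU

/-- number of classes of `S` which meet the set `A` -/
noncomputable def ncl {V : Type} (S : Setoid V) (A : Set V) : ℕ := (Quotient.mk S '' A).ncard

/-- number of classes of `S` which meet the `T`-class of `v` -/
noncomputable def cnt {V : Type} (S T : Setoid V) (v : V) : ℕ := ncl S {w | T v w}

/-- `r` is a strictly increasing modular valuation on the set `D` (a sublattice in all applications) -/
structure Val {L : Type} [Lattice L] (D : Set L) (r : L → ℝ) : Prop where
  lt : ∀ x ∈ D, ∀ y ∈ D, x < y → r x < r y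
  add : ∀ x ∈ D, ∀ y ∈ D, r x + r y = r (x ⊔ y) + r (x ⊓ y)

/-- nearly uniform representation on the set `D` -/
structure Nearly {L V : Type} [Lattice L] (D : Set L) (r : L → ℝ) (t ε : ℝ) (R : L → Setoid V) : Prop where
  inf : ∀ x ∈ D, ∀ y ∈ D, R (x ⊓ y) = R x ⊓ R y
  lo : ∀ p ∈ D, ∀ q ∈ D, p ≤ q → ∀ v, Real.exp (t * (r q - r p) - ε) ≤ cnt (R p) (R q) v
  hi : ∀ p ∈ D, ∀ q ∈ D, p ≤ q → ∀ v, (cnt (R p) (R q) v : ℝ) ≤ Real.exp (t * (r q - r p) + ε)

/-- the lattice `L` with the valuation `r` has nearly uniform representations at all large scales `t` satisfying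
finitely many approximate integrality conditions -/
def Good (L : Type) [Lattice L] (r : L → ℝ) : Prop :=
  Finite L ∧ Val Set.univ r ∧ ∃ F : Finset ℝ, ∀ ε : ℝ, 0 < ε → ∃ η : ℝ, 0 < η ∧ ∀ t : ℝ, 1 / η ≤ t →
    (∀ β ∈ F, ∃ n : ℤ, |t * β - n| ≤ η) →
    ∃ (V : Type) (_ : Finite V) (_ : Nonempty V) (R : L → Setoid V), Nearly Set.univ r t ε R

/-- `Λ` embeds the classes of the elements of the interval `[a, b]` inside every `R b`-class into the cosets of the
subgroups `H x` -/
def Emb {L V K : Type} [Lattice L] [AddCommGroup K] (a b : L) (R : L → Setoid V) (H : L → AddSubgroup K)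
    (Λ : V → K) : Prop :=
  ∀ v w, R b v w → ∀ x, a ≤ x → x ≤ b → (R x v w ↔ Λ v - Λ w ∈ H x)

/-- the subgroups `H x`, `x` in `[a, b]`, of `K` have sizes about `exp (t (r x - r a))` -/
structure Mod {L K : Type} [Lattice L] [AddCommGroup K] (a b : L) (r : L → ℝ) (t ε : ℝ) (H : L → AddSubgroup K) :
    Prop where
  bot : H a = ⊥
  top : H b = ⊤
  mono : ∀ x y, a ≤ x → x ≤ y → y ≤ b → H x ≤ H y
  lo : ∀ x, a ≤ x → x ≤ b → Real.exp (t * (r x - r a) - ε) ≤ Nat.card (H x)
  hi : ∀ x, a ≤ x → x ≤ b → (Nat.card (H x) : ℝ) ≤ Real.exp (t * (r x - r a) + ε)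

/-- the subset `C` of `K` contains, with every point `k`, at least the part `exp (-ε)` of the coset `k + H x`,
`x` in `[a, b]` -/
def Full {L K : Type} [Lattice L] [AddCommGroup K] (a b : L) (ε : ℝ) (H : L → AddSubgroup K) (C : Set K) : Prop :=
  ∀ x, a ≤ x → x ≤ b → ∀ k ∈ C, Real.exp (-ε) * Nat.card (H x) ≤ ({l | l ∈ C ∧ l - k ∈ H x}.ncard : ℝ)

end H41.NU
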