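import Pool.Agent.H41.NU.Cnt

/-! # NU.FullV : the image of a class is full (about 40 lines)

Let `k = Λ v₁` with `R b v v₁`, `a ≤ x ≤ b`. The set `{l | l ∈ Λ '' .. ∧ l - k ∈ H x}` contains `Λ w` for all `w` with `R x v₁ w` (`R x ≤ R b`, `Emb`), and two such `w`, `w'` have the same image iff `R a w w'` (`H a = ⊥`), so it has at least `cnt (R a) (R x) v₁ ≥ exp (t (r x - r a) - ε)
≥ exp (-(ε + ε₁)) |H x|` elements. -/

namespace H41.NU

theorem full_of_emb {L V K : Type} [Lattice L] [Finite V] [AddCommGroup K] [Finite K] {D : Set L} {a b : L}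
    {r : L → ℝ} {t ε ε₁ : ℝ} {R : L → Setoid V} {H : L → AddSubgroup K} {Λ : V → K}
    (hD : ∀ x, a ≤ x → x ≤ b → x ∈ D) (hab : a ≤ b) (hR : Nearly D r t ε R) (hE : Emb a b R H Λ)
    (hH : Mod a b r t ε₁ H) (v : V) : Full a b (ε + ε₁) H (Λ '' {w | R b v w}) := by
  intro x hax hxb k hk
  obtain ⟨v₁, hv₁, rfl⟩ := hk
  have hv₁' : R b v v₁ := hv₁
  have ha : a ∈ D := hD a le_rfl hab
  have hb : b ∈ D := hD b hab le_rfl
  have hx : x ∈ D := hD x hax hxb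
  have hRxb : R x ≤ R b := hR.mono hx hb hxb
  have h1 : ncl (R a) {w | R x v₁ w} ≤ ncl (⊥ : Setoid K) (Λ '' {w | R x v₁ w}) := by
    refine ncl_le_rel (R a) ⊥ _ _ (fun w l => Λ w = l) (fun w hw => ⟨Λ w, ⟨w, hw, rfl⟩, rfl⟩) ?_
    intro w hw w' hw' l _ l' _ e e' hT
    have hll : l = l' := hT
    have hw1 : R x v₁ w := hw
    have hw2 : R x v₁ w' := hw'
    have hxw : R x w w' := (R x).trans ((R x).symm hw1) hw2
    refine (hE w w' (hRxb hxw) a le_rfl hab).2 ?_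
    have e0 : Λ w - Λ w' = 0 := by rw [e, e', hll, sub_self]
    rw [e0]
    exact (H a).zero_mem
  have h2 : ncl (⊥ : Setoid K) (Λ '' {w | R x v₁ w}) ≤ (Λ '' {w | R x v₁ w}).ncard :=
    Set.ncard_image_le (Set.toFinite _)
  have h3 : (Λ '' {w | R x v₁ w}).ncard ≤
      {l | l ∈ Λ '' {w | R b v w} ∧ l - Λ v₁ ∈ H x}.ncard := by
    refine Set.ncard_le_ncard ?_ (Set.toFinite _)
    rintro l ⟨w, hw, rfl⟩
    have hw1 : R x v₁ w := hw
    refine ⟨⟨w, (R b).trans hv₁' (hRxb hw1), rfl⟩, ?_⟩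
    have h4 := (hE v₁ w (hRxb hw1) x hax hxb).1 hw1
    have h5 := (H x).neg_mem h4
    rwa [neg_sub] at h5
  have h4 : Real.exp (t * (r x - r a) - ε) ≤ (cnt (R a) (R x) v₁ : ℝ) := hR.lo a ha x hx hax v₁
  have h5 : (Nat.card (H x) : ℝ) ≤ Real.exp (t * (r x - r a) + ε₁) := hH.hi x hax hxb
  have h6 : Real.exp (-(ε + ε₁)) * Nat.card (H x) ≤ Real.exp (t * (r x - r a) - ε) := by
    refine (mul_le_mul_of_nonneg_left h5 (Real.exp_pos _).le).trans (le_of_eq ?_)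
    rw [← Real.exp_add]
    congr 1
    ring
  have h7 : (cnt (R a) (R x) v₁ : ℝ) ≤
      ({l | l ∈ Λ '' {w | R b v w} ∧ l - Λ v₁ ∈ H x}.ncard : ℝ) := by
    exact_mod_cast (h1.trans h2).trans h3
  exact (h6.trans h4).trans h7

end H41.NU
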