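import Pool.Agent.H41.NU.Kmod
import Pool.Agent.H41.NU.Cnt

/-! # NU.Lab : labels: the interval is embedded in the model (about 80 lines)

`exists_label`: inside every `T`-class choose an injection from its `S`-classes (at most `n` many) to `ZMod n` (which has `n` elements, `n > 0`); `S ≤ T`. `exists_emb`: labels `λ_z` for all `z ∈ Jf a b` with `S = R z.1`, `T = R z.2`. Let `R b v w` and `a ≤ x ≤ b`. If `R x v w` and
`x ≤ z.1` then `R z.1 v w` (monotone), so `λ_z v = λ_z w`. Conversely let `λ_z v = λ_z w` for all `z` with `x ≤ z.1`. Let `y` be minimal (`L` finite) with `x ≤ y ≤ b` and `R y v w` (`b` is one of them). If `y ≠ x`, `exists_J` gives `z` with `x ≤ z.1`, not `y ≤ z.1`, `y ≤ z.2`; so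
`R z.2 v w` and `λ_z v = λ_z w`, so `R z.1 v w`, so `R (y ⊓ z.1) v w` (`h.inf`), and `x ≤ y ⊓ z.1 < y`: contradiction. So `R x v w`. -/

namespace H41.NU

private theorem Lab_inj {α : Type} [Finite α] (C : Set α) (n : ℕ) (h0 : 0 < n) (hC : C.ncard ≤ n) :
    ∃ f : α → ZMod n, Set.InjOn f C := by
  classical
  have : NeZero n := ⟨h0.ne'⟩
  have : Fintype C := Fintype.ofFinite C
  have h1 : Fintype.card C ≤ Fintype.card (ZMod n) := by
    rw [ZMod.card, ← Nat.card_eq_fintype_card, Nat.card_coe_set_eq]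
    exact hC
  obtain ⟨e⟩ := Function.Embedding.nonempty_of_card_le h1
  refine ⟨fun x => if h : x ∈ C then e ⟨x, h⟩ else 0, ?_⟩
  intro x hx y hy hxy
  have h2 : (if h : x ∈ C then e ⟨x, h⟩ else 0) = (if h : y ∈ C then e ⟨y, h⟩ else 0) := hxy
  rw [dif_pos hx, dif_pos hy] at h2
  exact congrArg Subtype.val (e.injective h2)

theorem exists_label {V : Type} [Finite V] {S T : Setoid V} (h : S ≤ T) (n : ℕ) (h0 : 0 < n)
    (hn : ∀ v, cnt S T v ≤ n) : ∃ lam : V → ZMod n, ∀ v w, T v w → (S v w ↔ lam v = lam w) := by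
  have hex : ∀ q : Quotient T, ∃ f : Quotient S → ZMod n,
      Set.InjOn f (Quotient.mk S '' {w | Quotient.mk T w = q}) := by
    intro q
    refine Lab_inj _ n h0 ?_
    obtain ⟨v, rfl⟩ := Quotient.exists_rep q
    have h1 : {w | Quotient.mk T w = Quotient.mk T v} = {w | T v w} := by
      ext w
      simp only [Set.mem_ofPred_eq]
      constructor
      · intro h2
        exact T.symm (Quotient.exact h2)
      · intro h2
        exact Quotient.sound (T.symm h2)
    rw [h1]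
    exact hn v
  choose f hf using hex
  refine ⟨fun v => f (Quotient.mk T v) (Quotient.mk S v), fun v w hvw => ?_⟩
  have e1 : Quotient.mk T w = Quotient.mk T v := Quotient.sound (T.symm hvw)
  constructor
  · intro h1
    have e2 : Quotient.mk S w = Quotient.mk S v := Quotient.sound (S.symm h1)
    show f (Quotient.mk T v) (Quotient.mk S v) = f (Quotient.mk T w) (Quotient.mk S w)
    rw [e1, e2]
  · intro h1
    have h2 : f (Quotient.mk T v) (Quotient.mk S v) = f (Quotient.mk T w) (Quotient.mk S w) := h1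
    rw [e1] at h2
    have h3 := hf (Quotient.mk T v) (Set.mem_image_of_mem _ (show v ∈ {w | Quotient.mk T w =
      Quotient.mk T v} from rfl)) (Set.mem_image_of_mem _ (show w ∈ {w | Quotient.mk T w =
      Quotient.mk T v} from e1)) h2
    exact Quotient.exact h3

theorem exists_emb {L V : Type} [Lattice L] [Finite L] [Finite V] {a b : L} {r : L → ℝ} {t ε : ℝ} {D : Set L}
    (hD : ∀ x, a ≤ x → x ≤ b → x ∈ D) {R : L → Setoid V} (h : Nearly D r t ε R) (n : Jf a b → ℕ)
    (h0 : ∀ z, 0 < n z) (hn : ∀ (z : Jf a b) (v : V), cnt (R z.1.1) (R z.1.2) v ≤ n z) :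
    ∃ Λ : V → ∀ z : Jf a b, ZMod (n z), Emb a b R (Hx n) Λ := by
  have hz : ∀ z : Jf a b, z.1.1 ∈ D ∧ z.1.2 ∈ D ∧ z.1.1 ≤ z.1.2 := by
    intro z
    obtain ⟨h1, h2, h3, h4⟩ := mem_Jf.1 z.2
    exact ⟨hD _ h1 (h2.le.trans h3), hD _ (h1.trans h2.le) h3, h2.le⟩
  have hex : ∀ z : Jf a b, ∃ lam : V → ZMod (n z), ∀ v w, R z.1.2 v w → (R z.1.1 v w ↔ lam v = lam w) :=
    fun z => exists_label (h.mono (hz z).1 (hz z).2.1 (hz z).2.2) (n z) (h0 z) (hn z)
  choose lam hlam using hex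
  refine ⟨fun v z => lam z v, ?_⟩
  intro v w hb x hax hxb
  have hmem : (fun z => lam z v) - (fun z => lam z w) ∈ Hx n x ↔
      ∀ z : Jf a b, x ≤ z.1.1 → lam z v = lam z w := by
    constructor
    · intro h1 z hxz
      have h2 := h1 z hxz
      exact sub_eq_zero.1 h2
    · intro h1 z hxz
      exact sub_eq_zero.2 (h1 z hxz)
  rw [hmem]
  constructor
  · intro hx z hxz
    have h1 : R z.1.1 v w := h.mono (hD x hax hxb) (hz z).1 hxz hx
    have h2 : R z.1.2 v w := h.mono (hz z).1 (hz z).2.1 (hz z).2.2 h1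
    exact (hlam z v w h2).1 h1
  · intro hall
    obtain ⟨y, hy, hmin⟩ := (Set.toFinite {y : L | x ≤ y ∧ y ≤ b ∧ R y v w}).exists_minimal
      ⟨b, hxb, le_rfl, hb⟩
    obtain ⟨hxy, hyb, hRy⟩ := hy
    by_cases hne : x = y
    · rw [hne]
      exact hRy
    · exfalso
      obtain ⟨z, hzJ, hxz, hyz, hyz2⟩ := exists_J hax (lt_of_le_of_ne hxy hne) hyb
      have hyD : y ∈ D := hD y (hax.trans hxy) hyb
      have hz' := hz ⟨z, hzJ⟩
      have h2 : R z.2 v w := h.mono hyD hz'.2.1 hyz2 hRy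
      have h1 : R z.1 v w := (hlam ⟨z, hzJ⟩ v w h2).2 (hall ⟨z, hzJ⟩ hxz)
      have h3 : R (y ⊓ z.1) v w := by
        rw [h.inf y hyD z.1 hz'.1]
        exact ⟨hRy, h1⟩
      have h4 : y ≤ y ⊓ z.1 := hmin ⟨le_inf hxy hxz, inf_le_left.trans hyb, h3⟩ inf_le_left
      exact hyz (h4.trans inf_le_right)

end H41.NU
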