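import Pool.Agent.H41.NU.Sel
import Pool.Agent.H41.NU.Cnt

/-! # NU.SelV : shifted labels: most classes are hit (about 110 lines)

Use `select` with `C := Quotient (R b)`, the index type `ι` = pairs `(q, Q)`, `q : L` with `a ≤ q`, not `q ≤ b`, `Q : Quotient (R q)`, `S (q, Q)` = the classes of `R b` which meet `Q` (number `cnt (R b) (R q) v`, `v` in `Q`), for `c ∈ S (q, Q)` choose a point `w` in `Q` and `c` and let
`B (q, Q) c` = the `g ∈ K` with `Λ₀ w + g ∉ C₀`; it has `|K| - |C₀| ≤ δ₀ |K|` elements. `hsum`: every term is less than `1 / (number of indices)` by `hbig` (if there is no index the sum is empty). Put `Λ v = Λ₀ v + g ⟦v⟧`: on an `R b`-class the shift is constant, so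
`Emb` is preserved. For `q`, `v` the class `c` in `S` with `g c ∉ B` has its point `w` with `R q v w` and `Λ w ∈ C₀`, so `ncl (R b) {w | R q v w ∧ Λ w ∈ C₀}` is at least the number of these `c`, i.e. at least `(1 - δ)` times the number of all `c`. -/

namespace H41.NU

theorem selV {L V K : Type} [Lattice L] [Finite L] [Finite V] [AddCommGroup K] [Finite K] {a b : L}
    {R : L → Setoid V} {H : L → AddSubgroup K} {Λ₀ : V → K} (hE : Emb a b R H Λ₀) (C₀ : Set K) {δ₀ δ : ℝ}
    (hδ₀ : 0 < δ₀) (hδ₀1 : δ₀ ≤ 1) (hδ : 0 < δ) (hC : (1 - δ₀) * Nat.card K ≤ (C₀.ncard : ℝ))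
    (h4 : δ₀ ^ δ ≤ 1 / 4)
    (hbig : ∀ q, a ≤ q → ¬ q ≤ b → ∀ v, (Nat.card (Σ q : {q : L // a ≤ q ∧ ¬ q ≤ b}, Quotient (R q.1)) : ℝ) *
      (1 / 2) ^ cnt (R b) (R q) v < 1) :
    ∃ Λ : V → K, Emb a b R H Λ ∧ ∀ q, a ≤ q → ¬ q ≤ b → ∀ v,
      (1 - δ) * cnt (R b) (R q) v ≤ ncl (R b) {w | R q v w ∧ Λ w ∈ C₀} := by
  classical
  have : Fintype (Quotient (R b)) := Fintype.ofFinite _
  have : Fintype K := Fintype.ofFinite K
  have : Nonempty K := ⟨0⟩
  have : Fintype (Σ q : {q : L // a ≤ q ∧ ¬ q ≤ b}, Quotient (R q.1)) := Fintype.ofFinite _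
  set ι := (Σ q : {q : L // a ≤ q ∧ ¬ q ≤ b}, Quotient (R q.1)) with hι
  -- classes of `R b` which meet `Q`
  let S : ι → Finset (Quotient (R b)) := fun i =>
    Finset.univ.filter (fun c => ∃ w : V, Quotient.mk (R i.1.1) w = i.2 ∧ Quotient.mk (R b) w = c)
  have hS : ∀ (i : ι) (c : Quotient (R b)), c ∈ S i →
      ∃ w : V, Quotient.mk (R i.1.1) w = i.2 ∧ Quotient.mk (R b) w = c := by
    intro i c hc
    exact (Finset.mem_filter.1 hc).2
  let W : ∀ (i : ι) (c : Quotient (R b)), c ∈ S i → V := fun i c h => (hS i c h).choose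
  have hW : ∀ (i : ι) (c : Quotient (R b)) (h : c ∈ S i),
      Quotient.mk (R i.1.1) (W i c h) = i.2 ∧ Quotient.mk (R b) (W i c h) = c := by
    intro i c h
    exact (hS i c h).choose_spec
  let B : ι → Quotient (R b) → Finset K := fun i c =>
    if h : c ∈ S i then Finset.univ.filter (fun g => Λ₀ (W i c h) + g ∉ C₀) else ∅
  -- the number of classes
  have hScard : ∀ (q : {q : L // a ≤ q ∧ ¬ q ≤ b}) (v : V),
      (S ⟨q, Quotient.mk (R q.1) v⟩).card = cnt (R b) (R q.1) v := by
    intro q v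
    have h1 : Quotient.mk (R b) '' {w | (R q.1) v w} =
        ((S ⟨q, Quotient.mk (R q.1) v⟩ : Finset (Quotient (R b))) : Set (Quotient (R b))) := by
      ext c
      simp only [Set.mem_image, Set.mem_ofPred_eq, Finset.mem_coe, S, Finset.mem_filter,
        Finset.mem_univ, true_and]
      constructor
      · rintro ⟨w, hw, rfl⟩
        exact ⟨w, Quotient.sound ((R q.1).symm hw), rfl⟩
      · rintro ⟨w, hw, rfl⟩
        exact ⟨w, (R q.1).symm (Quotient.exact hw), rfl⟩
    unfold cnt ncl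
    rw [h1, Set.ncard_coe_finset]
  have hKcard : (Nat.card K : ℝ) = Fintype.card K := by rw [Nat.card_eq_fintype_card]
  have hB : ∀ i, ∀ c ∈ S i, ((B i c).card : ℝ) ≤ δ₀ * Fintype.card K := by
    intro i c hc
    have h1 : B i c = Finset.univ.filter (fun g => Λ₀ (W i c hc) + g ∉ C₀) := by
      simp only [B, dif_pos hc]
    rw [h1]
    have h2 : (Finset.univ.filter (fun g => Λ₀ (W i c hc) + g ∉ C₀)).card =
        (Finset.univ.filter (fun g : K => g ∉ C₀)).card := by
      refine Finset.card_bij (fun g _ => Λ₀ (W i c hc) + g) ?_ ?_ ?_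
      · intro g hg
        rw [Finset.mem_filter] at hg ⊢
        exact ⟨Finset.mem_univ _, hg.2⟩
      · intro g _ g' _ h
        exact add_left_cancel h
      · intro g hg
        refine ⟨-Λ₀ (W i c hc) + g, ?_, ?_⟩
        · rw [Finset.mem_filter] at hg ⊢
          refine ⟨Finset.mem_univ _, ?_⟩
          rw [add_neg_cancel_left]
          exact hg.2
        · rw [add_neg_cancel_left]
    have h3 : (Finset.univ.filter (fun g : K => g ∈ C₀)).card = C₀.ncard := by
      rw [← Set.ncard_coe_finset]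
      congr 1
      ext g
      simp
    have h4' := Finset.card_filter_add_card_filter_not (s := (Finset.univ : Finset K)) (fun g : K => g ∈ C₀)
    rw [h3, Finset.card_univ] at h4'
    rw [h2]
    have h5 : ((C₀.ncard : ℕ) : ℝ) + ((Finset.univ.filter (fun g : K => g ∉ C₀)).card : ℝ) = Fintype.card K := by
      exact_mod_cast h4'
    rw [hKcard] at hC
    linarith
  have hsum : ∑ i : ι, (1 / 2 : ℝ) ^ (S i).card < 1 := by
    rcases isEmpty_or_nonempty ι with h0 | h0
    · rw [Finset.univ_eq_empty, Finset.sum_empty]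
      exact one_pos
    · have hpos : (0 : ℝ) < Fintype.card ι := by exact_mod_cast Fintype.card_pos
      have hterm : ∀ i : ι, (1 / 2 : ℝ) ^ (S i).card < 1 / Fintype.card ι := by
        rintro ⟨q, Q⟩
        induction Q using Quotient.inductionOn with
        | h v =>
          have h1 := hbig q.1 q.2.1 q.2.2 v
          rw [Nat.card_eq_fintype_card] at h1
          rw [hScard q v, lt_div_iff₀ hpos, mul_comm]
          exact h1
      calc ∑ i : ι, (1 / 2 : ℝ) ^ (S i).card < ∑ _i : ι, (1 : ℝ) / Fintype.card ι :=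
            Finset.sum_lt_sum_of_nonempty Finset.univ_nonempty (fun i _ => hterm i)
        _ = 1 := by
            rw [Finset.sum_const, Finset.card_univ, nsmul_eq_mul]
            field_simp
  obtain ⟨g, hg⟩ := select S B δ₀ δ hδ₀ hδ₀1 hδ hB h4 hsum
  refine ⟨fun v => Λ₀ v + g (Quotient.mk (R b) v), ?_, ?_⟩
  · intro v w hvw x hax hxb
    have h1 : Quotient.mk (R b) v = Quotient.mk (R b) w := Quotient.sound hvw
    have h2 := hE v w hvw x hax hxb
    have h3 : (Λ₀ v + g (Quotient.mk (R b) v)) - (Λ₀ w + g (Quotient.mk (R b) w)) = Λ₀ v - Λ₀ w := by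
      rw [h1, add_sub_add_right_eq_sub]
    rw [h2]
    show Λ₀ v - Λ₀ w ∈ H x ↔ (Λ₀ v + g (Quotient.mk (R b) v)) - (Λ₀ w + g (Quotient.mk (R b) w)) ∈ H x
    rw [h3]
  · intro q haq hqb v
    have h1 := hg ⟨⟨q, haq, hqb⟩, Quotient.mk (R q) v⟩
    have h2 := hScard ⟨q, haq, hqb⟩ v
    set i : ι := ⟨⟨q, haq, hqb⟩, Quotient.mk (R q) v⟩ with hi
    have h3 := Finset.card_filter_add_card_filter_not (s := S i) (fun c => g c ∈ B i c)
    have h4' : ((S i).filter (fun c => ¬ g c ∈ B i c)).card ≤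
        ncl (R b) {w | (R q) v w ∧ Λ₀ w + g (Quotient.mk (R b) w) ∈ C₀} := by
      unfold ncl
      rw [← Set.ncard_coe_finset]
      refine Set.ncard_le_ncard ?_ (Set.toFinite _)
      intro c hc
      rw [Finset.mem_coe, Finset.mem_filter] at hc
      obtain ⟨hc1, hc2⟩ := hc
      obtain ⟨h5, h6⟩ := hW i c hc1
      refine ⟨W i c hc1, ⟨(R q).symm (Quotient.exact h5), ?_⟩, h6⟩
      by_contra hcon
      apply hc2
      simp only [B, dif_pos hc1]
      rw [Finset.mem_filter]
      refine ⟨Finset.mem_univ _, ?_⟩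
      rw [h6] at hcon
      exact hcon
    rw [h2] at h3 h1
    have h5 : (((S i).filter (fun c => g c ∈ B i c)).card : ℝ) +
        (((S i).filter (fun c => ¬ g c ∈ B i c)).card : ℝ) = cnt (R b) (R q) v := by
      exact_mod_cast h3
    have h6 : (((S i).filter (fun c => ¬ g c ∈ B i c)).card : ℝ) ≤
        ncl (R b) {w | (R q) v w ∧ Λ₀ w + g (Quotient.mk (R b) w) ∈ C₀} := by
      exact_mod_cast h4'
    have h7 : ((cnt (R b) (R q) v : ℕ) : ℝ) - δ * cnt (R b) (R q) v ≤
        ncl (R b) {w | (R q) v w ∧ Λ₀ w + g (Quotient.mk (R b) w) ∈ C₀} := by linarith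
    calc (1 - δ) * cnt (R b) (R q) v = cnt (R b) (R q) v - δ * cnt (R b) (R q) v := by ring
      _ ≤ _ := h7

end H41.NU
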