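import Pool.Agent.H41.NU.Def

/-! # NU.ValG : the glued valuation (about 50 lines)

Strictly increasing: let `x < y`. Both `≤ b` or both `≥ a`: clear. Otherwise `x ≤ b`, not `a ≤ x`, and `a ≤ y` (if not `a ≤ y` then `y ≤ b` and `x ≤ b`): `x < x ⊔ a ≤ y`, where `x ⊔ a ≤ b`. Additivity for `x ≤ b`, `a ≤ y` (the other cases are clear or symmetric): put `c = y ⊓ b` and `z = x ⊔ c` (`a ≤ c`, `a ≤ z ≤ b`). In `Set.Iic b`:
`r x + r c = r z + r (x ⊓ c)`, `x ⊓ c = x ⊓ y`. In `Set.Ici a`: `r y + r z = r (y ⊔ z) + r (y ⊓ z)`, `y ⊔ z = x ⊔ y` and `y ⊓ z = c` (`y ⊓ z ≤ y ⊓ b = c ≤ y ⊓ z`). Add. -/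

namespace H41.NU

theorem val_glue {L : Type} [Lattice L] {a b : L} (hab : a ≤ b) (hcov : ∀ x : L, x ≤ b ∨ a ≤ x) {r : L → ℝ}
    (h1 : Val Set.univ (fun x : Set.Iic b => r x.1)) (h2 : Val Set.univ (fun x : Set.Ici a => r x.1)) :
    Val Set.univ r := by
  have lt1 : ∀ x y : L, x ≤ b → y ≤ b → x < y → r x < r y := fun x y hx hy h =>
    h1.lt ⟨x, hx⟩ trivial ⟨y, hy⟩ trivial h
  have lt2 : ∀ x y : L, a ≤ x → a ≤ y → x < y → r x < r y := fun x y hx hy h =>
    h2.lt ⟨x, hx⟩ trivial ⟨y, hy⟩ trivial h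
  have ad1 : ∀ x y : L, x ≤ b → y ≤ b → r x + r y = r (x ⊔ y) + r (x ⊓ y) := fun x y hx hy =>
    h1.add ⟨x, hx⟩ trivial ⟨y, hy⟩ trivial
  have ad2 : ∀ x y : L, a ≤ x → a ≤ y → r x + r y = r (x ⊔ y) + r (x ⊓ y) := fun x y hx hy =>
    h2.add ⟨x, hx⟩ trivial ⟨y, hy⟩ trivial
  have key : ∀ x y : L, x ≤ b → a ≤ y → r x + r y = r (x ⊔ y) + r (x ⊓ y) := by
    intro x y hx hy
    have e1 := ad1 x (y ⊓ b) hx inf_le_right
    have e2 := ad2 y (x ⊔ (y ⊓ b)) hy (le_trans (le_inf hy hab) le_sup_right)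
    have i1 : x ⊓ (y ⊓ b) = x ⊓ y := by
      apply le_antisymm
      · exact le_inf inf_le_left (le_trans inf_le_right inf_le_left)
      · exact le_inf inf_le_left (le_inf inf_le_right (le_trans inf_le_left hx))
    have i2 : y ⊔ (x ⊔ (y ⊓ b)) = x ⊔ y := by
      apply le_antisymm
      · exact sup_le le_sup_right (sup_le le_sup_left (le_trans inf_le_left le_sup_right))
      · exact sup_le (le_trans le_sup_left le_sup_right) le_sup_left
    have i3 : y ⊓ (x ⊔ (y ⊓ b)) = y ⊓ b := by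
      apply le_antisymm
      · exact le_inf inf_le_left (le_trans inf_le_right (sup_le hx inf_le_right))
      · exact le_inf inf_le_left le_sup_right
    rw [i1] at e1
    rw [i2, i3] at e2
    linarith
  refine ⟨?_, ?_⟩
  · intro x _ y _ h
    by_cases hy : y ≤ b
    · exact lt1 x y (le_trans h.le hy) hy h
    · have hay : a ≤ y := (hcov y).resolve_left hy
      by_cases hx : a ≤ x
      · exact lt2 x y hx hay h
      · have hxb : x ≤ b := (hcov x).resolve_right hx
        have h3 : x < x ⊔ a := lt_of_le_of_ne le_sup_left (fun e => hx (by rw [e]; exact le_sup_right))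
        have h4 : r x < r (x ⊔ a) := lt1 _ _ hxb (sup_le hxb hab) h3
        have h5 : x ⊔ a ≤ y := sup_le h.le hay
        rcases h5.eq_or_lt with h6 | h6
        · rw [← h6]; exact h4
        · exact h4.trans (lt2 _ _ le_sup_right hay h6)
  · intro x _ y _
    rcases hcov x with hx | hx
    · rcases hcov y with hy | hy
      · exact ad1 x y hx hy
      · exact key x y hx hy
    · rcases hcov y with hy | hy
      · have := key y x hy hx
        rw [sup_comm x y, inf_comm x y]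
        linarith
      · exact ad2 x y hx hy

end H41.NU
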