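import Pool.Agent.H41.NU.GlueB
import Pool.Agent.H41.NU.SelV
import Pool.Agent.H41.NU.Lab
import Pool.Agent.H41.NU.Conn
import Pool.Agent.H41.NU.ValG
import Pool.Agent.H41.NU.Big

/-! # NU.GG : good valued lattices are closed under gluing over distributive intervals -/

namespace H41.NU

theorem Nearly.weaken {L V : Type} [Lattice L] {D : Set L} {r : L → ℝ} {t ε ε' : ℝ} {R : L → Setoid V}
    (h : Nearly D r t ε R) (he : ε ≤ ε') : Nearly D r t ε' R := by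
  refine ⟨h.inf, ?_, ?_⟩
  · intro p hp q hq hpq v
    exact (Real.exp_le_exp.2 (by linarith)).trans (h.lo p hp q hq hpq v)
  · intro p hp q hq hpq v
    exact (h.hi p hp q hq hpq v).trans (Real.exp_le_exp.2 (by linarith))

theorem exists_gap {L : Type} [Lattice L] [Finite L] {a b : L} {r : L → ℝ} (hr : Val Set.univ r) :
    ∃ g : ℝ, 0 < g ∧ ∀ q, a ≤ q → ¬ q ≤ b → g ≤ r q - r (q ⊓ b) := by
  classical
  let s : Set L := {q | a ≤ q ∧ ¬ q ≤ b}
  by_cases hs : s.Nonempty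
  · obtain ⟨q0, hq0, hmin⟩ := Set.exists_min_image s (fun q => r q - r (q ⊓ b)) (Set.toFinite s) hs
    refine ⟨r q0 - r (q0 ⊓ b), ?_, fun q h1 h2 => hmin q ⟨h1, h2⟩⟩
    have h1 : q0 ⊓ b < q0 := lt_of_le_of_ne inf_le_left (fun h => hq0.2 (by rw [← h]; exact inf_le_right))
    have h2 := hr.lt _ (Set.mem_univ _) _ (Set.mem_univ _) h1
    linarith
  · refine ⟨1, one_pos, fun q h1 h2 => ?_⟩
    exact absurd ⟨q, h1, h2⟩ hs

theorem exists_top (L : Type) [Lattice L] [Finite L] [Nonempty L] : ∃ m : L, ∀ x : L, x ≤ m := by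
  classical
  have := Fintype.ofFinite L
  exact ⟨Finset.univ.sup' Finset.univ_nonempty id, fun x => Finset.le_sup' id (Finset.mem_univ x)⟩

theorem card_index {L V : Type} [Lattice L] [Finite L] [Finite V] {a b : L} {R : L → Setoid V} {m : L} (v : V)
    (hmono : ∀ q, a ≤ q → R a ≤ R q) (hm : ∀ v w, R m v w) :
    (Nat.card (Σ q : {q : L // a ≤ q ∧ ¬ q ≤ b}, Quotient (R q.1)) : ℝ) ≤ Nat.card L * cnt (R a) (R m) v := by
  classical
  have h1 : cnt (R a) (R m) v = Nat.card (Quotient (R a)) := by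
    unfold cnt ncl
    have e : Quotient.mk (R a) '' {w | R m v w} = Set.univ := by
      apply Set.eq_univ_of_forall
      intro c
      obtain ⟨w, rfl⟩ := Quotient.exists_rep c
      exact ⟨w, hm v w, rfl⟩
    rw [e, Set.ncard_univ]
  rw [h1]
  have : Finite (Quotient (R a)) := Quotient.finite _
  let f : {q : L // a ≤ q ∧ ¬ q ≤ b} × Quotient (R a) → (Σ q : {q : L // a ≤ q ∧ ¬ q ≤ b}, Quotient (R q.1)) :=
    fun z => ⟨z.1, Quotient.map' id (fun x y hxy => hmono z.1.1 z.1.2.1 hxy) z.2⟩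
  have hf : Function.Surjective f := by
    rintro ⟨q, c⟩
    obtain ⟨w, rfl⟩ := Quotient.exists_rep c
    exact ⟨(q, Quotient.mk _ w), rfl⟩
  have h2 := Nat.card_le_card_of_surjective f hf
  rw [Nat.card_prod] at h2
  have h3 : Nat.card {q : L // a ≤ q ∧ ¬ q ≤ b} ≤ Nat.card L :=
    Nat.card_le_card_of_injective _ Subtype.val_injective
  have h4 : Nat.card {q : L // a ≤ q ∧ ¬ q ≤ b} * Nat.card (Quotient (R a)) ≤ Nat.card L * Nat.card (Quotient (R a)) :=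
    Nat.mul_le_mul_right _ h3
  exact_mod_cast h2.trans h4

theorem good_glue {L : Type} [Lattice L] {a b : L} (hab : a ≤ b) (hcov : ∀ x : L, x ≤ b ∨ a ≤ x)
    (hd : ∀ x y z, a ≤ x → x ≤ b → a ≤ y → y ≤ b → a ≤ z → z ≤ b → x ⊓ (y ⊔ z) = (x ⊓ y) ⊔ (x ⊓ z))
    {r : L → ℝ} (h1 : Good (Set.Iic b) (fun x => r x.1)) (h2 : Good (Set.Ici a) (fun x => r x.1)) : Good L r := by
  classical
  obtain ⟨f1, v1, F1, g1⟩ := h1
  obtain ⟨f2, v2, F2, g2⟩ := h2
  have hfin : Finite L := by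
    have h : (Set.univ : Set L) = Set.Iic b ∪ Set.Ici a := by
      ext x
      simpa using hcov x
    have : (Set.univ : Set L).Finite := by
      rw [h]
      exact (Set.toFinite _).union (Set.toFinite _)
    exact Set.finite_univ_iff.1 this
  have hr : Val Set.univ r := val_glue hab hcov v1 v2
  refine ⟨hfin, hr, F1 ∪ F2, ?_⟩
  intro ε hε
  have : Nonempty L := ⟨a⟩
  obtain ⟨m, hm⟩ := exists_top L
  -- the parameters
  set N : ℕ := (Jf a b).card with hN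
  set δ : ℝ := min (ε / 4) (1 / 2) with hδd
  have hδ : 0 < δ := lt_min (by positivity) (by norm_num)
  have hδ2 : δ ≤ 1 / 2 := min_le_right _ _
  have hδε : δ ≤ ε / 4 := min_le_left _ _
  obtain ⟨x₀, hx₀, hx⟩ := exists_small δ hδ
  set y₀ : ℝ := min (min x₀ (1 / 4)) (ε / 36) with hy₀
  have hy0 : 0 < y₀ := lt_min (lt_min hx₀ (by norm_num)) (by positivity)
  set ε₀ : ℝ := y₀ / (N + 1) with hε₀
  have hN1 : (0 : ℝ) < N + 1 := by positivity
  have he0 : 0 < ε₀ := div_pos hy0 hN1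
  have hsum : ε₀ + N * ε₀ = y₀ := by
    rw [hε₀]
    field_simp
    ring
  have he1 : ε₀ ≤ 1 := by
    have h3 : ε₀ ≤ y₀ := by
      have : 0 ≤ N * ε₀ := by positivity
      linarith
    have h4 : y₀ ≤ 1 / 4 := (min_le_left _ _).trans (min_le_right _ _)
    linarith
  obtain ⟨g, hg, hgap⟩ := exists_gap (a := a) (b := b) hr
  obtain ⟨T, hT1, hT⟩ := exists_large (Nat.card L) (r m - r a) g (by
    have : 0 < Nat.card L := Nat.card_pos
    exact_mod_cast this) hg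
  obtain ⟨η1, hη1, G1⟩ := g1 ε₀ he0
  obtain ⟨η2, hη2, G2⟩ := g2 ε₀ he0
  refine ⟨min (min η1 η2) (1 / T), lt_min (lt_min hη1 hη2) (by positivity), ?_⟩
  intro t ht hF
  have hη0 : 0 < min (min η1 η2) (1 / T) := lt_min (lt_min hη1 hη2) (by positivity)
  have ht1 : 1 / η1 ≤ t := (one_div_le_one_div_of_le hη0 ((min_le_left _ _).trans (min_le_left _ _))).trans ht
  have ht2 : 1 / η2 ≤ t := (one_div_le_one_div_of_le hη0 ((min_le_left _ _).trans (min_le_right _ _))).trans ht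
  have htT : T ≤ t := by
    have h3 := (one_div_le_one_div_of_le hη0 (min_le_right (min η1 η2) (1 / T))).trans ht
    rwa [one_div_one_div] at h3
  obtain ⟨W₀, fW₀, nW₀, S₀, hS₀⟩ := G1 t ht1 (fun β hβ => by
    obtain ⟨n, hn⟩ := hF β (Finset.mem_union_left _ hβ)
    exact ⟨n, hn.trans ((min_le_left _ _).trans (min_le_left _ _))⟩)
  obtain ⟨V₀, fV₀, nV₀, Q₀, hQ₀⟩ := G2 t ht2 (fun β hβ => by
    obtain ⟨n, hn⟩ := hF β (Finset.mem_union_right _ hβ)
    exact ⟨n, hn.trans ((min_le_left _ _).trans (min_le_right _ _))⟩)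
  obtain ⟨S₁, hS₁⟩ := ext_low hS₀
  obtain ⟨Q₁, hQ₁⟩ := ext_up hQ₀
  obtain ⟨w₀⟩ := nW₀
  obtain ⟨v₀⟩ := nV₀
  obtain ⟨W, fW, nW, R₁, n1, hW⟩ := restrict hS₁ b (Set.mem_Iic.2 le_rfl) (fun x hx => hx) w₀
  obtain ⟨V, fV, nV, R₂, n2, hV⟩ := restrict hQ₁ m (Set.mem_Ici.2 (hm a)) (fun x _ => hm x) v₀
  obtain ⟨w₁⟩ := id nW
  obtain ⟨v₁⟩ := id nV
  -- the numbers of labels
  let n : Jf a b → ℕ := fun z => ⌊Real.exp (t * (r z.1.2 - r z.1.1) + ε₀)⌋₊
  have hz : ∀ z : Jf a b, a ≤ z.1.1 ∧ z.1.1 < z.1.2 ∧ z.1.2 ≤ b := by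
    intro z
    have := mem_Jf.1 z.2
    exact ⟨this.1, this.2.1, this.2.2.1⟩
  have hnV : ∀ (z : Jf a b) (v : V), cnt (R₂ z.1.1) (R₂ z.1.2) v ≤ n z := by
    intro z v
    obtain ⟨z1, z2, z3⟩ := hz z
    exact Nat.le_floor (n2.hi _ (Set.mem_Ici.2 z1) _ (Set.mem_Ici.2 (z1.trans z2.le)) z2.le v)
  have hnW : ∀ (z : Jf a b) (w : W), cnt (R₁ z.1.1) (R₁ z.1.2) w ≤ n z := by
    intro z w
    obtain ⟨z1, z2, z3⟩ := hz z
    exact Nat.le_floor (n1.hi _ (Set.mem_Iic.2 (z2.le.trans z3)) _ (Set.mem_Iic.2 z3) z2.le w)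
  have hn0 : ∀ z, 0 < n z := fun z => (cnt_pos _ _ v₁).trans (hnV z v₁)
  have hnb : ∀ z : Jf a b, Real.exp (t * (r z.1.2 - r z.1.1) - ε₀) ≤ n z ∧
      (n z : ℝ) ≤ Real.exp (t * (r z.1.2 - r z.1.1) + ε₀) := by
    intro z
    obtain ⟨z1, z2, z3⟩ := hz z
    refine ⟨?_, Nat.floor_le (Real.exp_pos _).le⟩
    refine (n2.lo _ (Set.mem_Ici.2 z1) _ (Set.mem_Ici.2 (z1.trans z2.le)) z2.le v₁).trans ?_
    exact_mod_cast hnV z v₁
  have hrI : Val (Set.Icc a b) r := ⟨fun x _ y _ => hr.lt x (Set.mem_univ _) y (Set.mem_univ _),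
    fun x _ y _ => hr.add x (Set.mem_univ _) y (Set.mem_univ _)⟩
  have hH : Mod a b r t (N * ε₀) (Hx n) := mod_Hx hab he0.le hd hrI n hn0 hnb
  have hne : ∀ z, NeZero (n z) := fun z => ⟨(hn0 z).ne'⟩
  have fK : Finite (∀ z : Jf a b, ZMod (n z)) := inferInstance
  obtain ⟨Λ₀, hΛ₀⟩ := exists_emb (fun x hx _ => Set.mem_Ici.2 hx) n2 n hn0 hnV
  obtain ⟨M, hM⟩ := exists_emb (fun x _ hx => Set.mem_Iic.2 hx) n1 n hn0 hnW
  have hfull := full_of_emb (fun x _ hx => Set.mem_Iic.2 hx) hab n1 hM hH w₁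
  have hrange : M '' {w | R₁ b w₁ w} = Set.range M := by
    rw [← Set.image_univ]
    congr 1
    exact Set.eq_univ_of_forall (fun w => hW w₁ w)
  rw [hrange, hsum] at hfull
  have hy1 : y₀ ≤ 1 / 4 := (min_le_left _ _).trans (min_le_right _ _)
  have hC : (1 - y₀) * Nat.card (∀ z : Jf a b, ZMod (n z)) ≤ ((Set.range M).ncard : ℝ) := by
    have h3 := hfull b hab le_rfl (M w₁) ⟨w₁, rfl⟩
    have e1 : {l | l ∈ Set.range M ∧ l - M w₁ ∈ Hx n b} = Set.range M := by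
      ext l
      simp only [Set.mem_ofPred_eq, hH.top, AddSubgroup.mem_top, and_true]
    rw [e1, hH.top, AddSubgroup.card_top] at h3
    refine le_trans ?_ h3
    apply mul_le_mul_of_nonneg_right ?_ (Nat.cast_nonneg _)
    have := Real.add_one_le_exp (-y₀)
    linarith
  have hmono : ∀ q, a ≤ q → R₂ a ≤ R₂ q := fun q hq =>
    n2.mono (Set.mem_Ici.2 le_rfl) (Set.mem_Ici.2 hq) hq
  obtain ⟨Λ, hΛ, hev⟩ := selV hΛ₀ (Set.range M) hy0 (by linarith) hδ hC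
    (hx y₀ hy0 ((min_le_left _ _).trans (min_le_left _ _))) (by
      intro q hq hqb v
      have h3 := card_index (b := b) v hmono hV
      have h4 := n2.hi a (Set.mem_Ici.2 le_rfl) m (Set.mem_Ici.2 (hm a)) (hm a) v
      have h5 := n2.lo' (p := b) (q := q) (Set.mem_Ici.2 hab) (Set.mem_Ici.2 hq)
        (Set.mem_Ici.2 (le_inf hab hq)) v
      have h6 := hgap q hq hqb
      have h7 : Real.exp (g * t - 1) ≤ cnt (R₂ b) (R₂ q) v := by
        refine le_trans (Real.exp_le_exp.2 ?_) h5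
        rw [inf_comm]
        have : t * g ≤ t * (r q - r (q ⊓ b)) := mul_le_mul_of_nonneg_left h6 (by linarith)
        nlinarith
      have h8 := hT t htT _ h7
      refine lt_of_le_of_lt ?_ h8
      apply mul_le_mul_of_nonneg_right ?_ (by positivity)
      refine h3.trans (mul_le_mul_of_nonneg_left (h4.trans (Real.exp_le_exp.2 ?_)) (Nat.cast_nonneg _))
      nlinarith)
  obtain ⟨X, fX, nX, R, hX⟩ := glue_nearly hab hcov hr he0.le (by positivity) (by rw [hsum]; exact hy1) hδ.le hδ2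
    n2 n1 hW hH hΛ hM hev
  refine ⟨X, fX, nX, R, hX.weaken ?_⟩
  rw [hsum]
  have : y₀ ≤ ε / 36 := min_le_right _ _
  linarith

end H41.NU
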