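import Pool.Agent.H41.NU.Def

/-! # NU.GlueA : the glued relations preserve meets (about 90 lines)

`X = {x : V × W // Λ x.1 = M x.2}`. `rel x` for `x ≤ b`: `R₂ b` on the first and `R₁ x` on the second component, otherwise `R₂ x` on the first component. Agreement: for `a ≤ x ≤ b` and `(v, w)`, `(v', w')` in `X`: `R₂ x v v'` iff `R₂ b v v'` and `R₁ x w w'`, because for `R₂ b v v'` both are equivalent to
`Λ v - Λ v' = M w - M w' ∈ H x` (`hΛ`, `hM`, `hW`), and `R₂ x ≤ R₂ b`. Meets: both `≤ b`: clear (`i1`). Both `≥ a`: by agreement and `i2` everything is expressed by `R₂`. One, say `x`, not `≤ b` (so `a ≤ x`) and the other `y ≤ b`: `R₂ x ⊓ R₂ b = R₂ (x ⊓ b)`, by agreement for `x ⊓ b` this is `R₂ b` together with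
`R₁ (x ⊓ b)`, and `R₁ (x ⊓ b) ⊓ R₁ y = R₁ (x ⊓ b ⊓ y) = R₁ (x ⊓ y)`. The assumptions `i1`, `i2` give monotonicity of `R₁`, `R₂`. -/

namespace H41.NU

/-- the base set of the glued representation -/
abbrev Base {V W K : Type} (Λ : V → K) (M : W → K) : Type := {x : V × W // Λ x.1 = M x.2}

open Classical in
/-- the glued relations -/
noncomputable def rel {L V W K : Type} [Lattice L] (b : L) (R₂ : L → Setoid V) (R₁ : L → Setoid W) (Λ : V → K)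
    (M : W → K) (x : L) : Setoid (Base Λ M) :=
  if x ≤ b then Setoid.comap (fun s => s.1.1) (R₂ b) ⊓ Setoid.comap (fun s => s.1.2) (R₁ x)
  else Setoid.comap (fun s => s.1.1) (R₂ x)

theorem rel_low {L V W K : Type} [Lattice L] {b : L} {R₂ : L → Setoid V} {R₁ : L → Setoid W} {Λ : V → K}
    {M : W → K} {x : L} (hx : x ≤ b) (s s' : Base Λ M) :
    rel b R₂ R₁ Λ M x s s' ↔ R₂ b s.1.1 s'.1.1 ∧ R₁ x s.1.2 s'.1.2 := by
  unfold rel
  rw [if_pos hx]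
  rfl

theorem rel_up {L V W K : Type} [Lattice L] [AddCommGroup K] {a b : L} {R₂ : L → Setoid V}
    {R₁ : L → Setoid W} {H : L → AddSubgroup K} {Λ : V → K} {M : W → K} (hab : a ≤ b)
    (i2 : ∀ x y, a ≤ x → a ≤ y → R₂ (x ⊓ y) = R₂ x ⊓ R₂ y) (hW : ∀ w w', R₁ b w w')
    (hΛ : Emb a b R₂ H Λ) (hM : Emb a b R₁ H M) {x : L} (hx : a ≤ x) (s s' : Base Λ M) :
    rel b R₂ R₁ Λ M x s s' ↔ R₂ x s.1.1 s'.1.1 := by
  by_cases hxb : x ≤ b
  · rw [rel_low hxb]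
    have hmono : R₂ x s.1.1 s'.1.1 → R₂ b s.1.1 s'.1.1 := by
      intro h
      have h1 := i2 x b hx hab
      rw [inf_eq_left.mpr hxb] at h1
      rw [h1] at h
      exact h.2
    have h1 : M s.1.2 = Λ s.1.1 := s.2.symm
    have h2 : M s'.1.2 = Λ s'.1.1 := s'.2.symm
    have h3 := hM s.1.2 s'.1.2 (hW _ _) x hx hxb
    rw [h1, h2] at h3
    constructor
    · rintro ⟨h4, h5⟩
      exact (hΛ _ _ h4 x hx hxb).mpr (h3.mp h5)
    · intro h4
      exact ⟨hmono h4, h3.mpr ((hΛ _ _ (hmono h4) x hx hxb).mp h4)⟩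
  · unfold rel
    rw [if_neg hxb]
    rfl

theorem rel_inf {L V W K : Type} [Lattice L] [AddCommGroup K] {a b : L} {R₂ : L → Setoid V}
    {R₁ : L → Setoid W} {H : L → AddSubgroup K} {Λ : V → K} {M : W → K} (hab : a ≤ b)
    (hcov : ∀ x : L, x ≤ b ∨ a ≤ x) (i2 : ∀ x y, a ≤ x → a ≤ y → R₂ (x ⊓ y) = R₂ x ⊓ R₂ y)
    (i1 : ∀ x y, x ≤ b → y ≤ b → R₁ (x ⊓ y) = R₁ x ⊓ R₁ y) (hW : ∀ w w', R₁ b w w')
    (hΛ : Emb a b R₂ H Λ) (hM : Emb a b R₁ H M) (x y : L) :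
    rel b R₂ R₁ Λ M (x ⊓ y) = rel b R₂ R₁ Λ M x ⊓ rel b R₂ R₁ Λ M y := by
  have key : ∀ x y : L, ¬ x ≤ b → y ≤ b → ∀ s s' : Base Λ M,
      rel b R₂ R₁ Λ M (x ⊓ y) s s' ↔ rel b R₂ R₁ Λ M x s s' ∧ rel b R₂ R₁ Λ M y s s' := by
    intro x y hx hy s s'
    have hax : a ≤ x := (hcov x).resolve_left hx
    have hxy : x ⊓ y ≤ b := le_trans inf_le_right hy
    have hxb : x ⊓ b ≤ b := inf_le_right
    rw [rel_low hxy, rel_low hy, rel_up hab i2 hW hΛ hM hax]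
    have h1 : R₂ (x ⊓ b) = R₂ x ⊓ R₂ b := i2 x b hax hab
    have h2 := rel_up hab i2 hW hΛ hM (le_inf hax hab) s s'
    rw [rel_low hxb, h1] at h2
    have h3 : R₁ (x ⊓ y) = R₁ (x ⊓ b) ⊓ R₁ y := by
      rw [← i1 (x ⊓ b) y hxb hy]
      congr 1
      rw [inf_assoc, inf_eq_right.mpr hy]
    rw [h3]
    constructor
    · rintro ⟨h4, h5, h6⟩
      exact ⟨(h2.mp ⟨h4, h5⟩).1, h4, h6⟩
    · rintro ⟨h4, h5, h6⟩
      exact ⟨h5, (h2.mpr ⟨h4, h5⟩).2, h6⟩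
  refine Setoid.ext fun s s' => ?_
  change _ ↔ rel b R₂ R₁ Λ M x s s' ∧ rel b R₂ R₁ Λ M y s s'
  by_cases hx : x ≤ b
  · by_cases hy : y ≤ b
    · have hxy : x ⊓ y ≤ b := le_trans inf_le_left hx
      rw [rel_low hxy, rel_low hx, rel_low hy, i1 x y hx hy]
      constructor
      · rintro ⟨h4, h5, h6⟩
        exact ⟨⟨h4, h5⟩, h4, h6⟩
      · rintro ⟨⟨h4, h5⟩, _, h6⟩
        exact ⟨h4, h5, h6⟩
    · rw [inf_comm, and_comm]
      exact key y x hy hx s s'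
  · by_cases hy : y ≤ b
    · exact key x y hx hy s s'
    · have hax : a ≤ x := (hcov x).resolve_left hx
      have hay : a ≤ y := (hcov y).resolve_left hy
      rw [rel_up hab i2 hW hΛ hM (le_inf hax hay), rel_up hab i2 hW hΛ hM hax,
        rel_up hab i2 hW hΛ hM hay, i2 x y hax hay]
      rfl

end H41.NU
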