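import Pool.Agent.H41.NU.Core

/-! # NU.Up : classes of a retained class, upper part (about 100 lines)

`A = {w | R q v w ∧ Λ w ∈ C}`. Case `q ≤ b`: this is `core` with `D = Set.Icc a b`. Case not `q ≤ b`, `p ≤ b`: let `u = q ⊓ b ≥ p`. `ncl_fiber_ge` with `S = R p`, `M = R b`, `B = A`: for `w ∈ A` the set `A ∩ {w' | R b w w'}` contains `{w' | R u w w' ∧ Λ w' ∈ C}` (`R u = R q ⊓ R b`), so it has at least
`exp (t (r u - r p) - 4 s)` classes (`core` with `q := u`, `v := w`, `s = ε + ε₁ + ε₂`), and `ncl (R b) A ≥ (1 - δ) cnt (R b) (R q) v ≥ (1 - δ) exp (t (r q - r u) - ε)` (`hev`, `Nearly.lo'`). Case not `p ≤ b` (so not `q ≤ b`): for every `w₀` in the `R q`-class of `v` the set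
`{w | R p w₀ w ∧ Λ w ∈ C}` is not empty (`hev` for `p`, `w₀`: its number of `R b`-classes is at least `(1 - δ) cnt .. > 0`), so `ncl (R p) A ≥ cnt (R p) (R q) v ≥ exp (t (r q - r p) - ε)` (`ncl_le_rel` with `ρ = R p`). `1 - δ ≥ exp (-2 δ)` for `0 ≤ δ ≤ 1/2`. -/

namespace H41.NU

private theorem up_one_sub {δ : ℝ} (h0 : 0 ≤ δ) (h2 : δ ≤ 1 / 2) : Real.exp (-(2 * δ)) ≤ 1 - δ := by
  have h1 : 2 * δ + 1 ≤ Real.exp (2 * δ) := Real.add_one_le_exp (2 * δ)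
  have h3 : 0 < Real.exp (2 * δ) := Real.exp_pos _
  rw [Real.exp_neg, inv_eq_one_div, div_le_iff₀ h3]
  have h4 : (1 - δ) * (2 * δ + 1) ≤ (1 - δ) * Real.exp (2 * δ) :=
    mul_le_mul_of_nonneg_left h1 (by linarith)
  nlinarith [h4, mul_nonneg h0 (by linarith : (0 : ℝ) ≤ 1 - 2 * δ)]

private theorem up_core {L V K : Type} [Lattice L] [Finite V] [AddCommGroup K] [Finite K] {a b : L}
    {r : L → ℝ} {t ε ε₁ ε₂ : ℝ} {R : L → Setoid V} {H : L → AddSubgroup K} {Λ : V → K} {C : Set K}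
    (hab : a ≤ b) (hr : Val (Set.Ici a) r) (hR : Nearly (Set.Ici a) r t ε R) (hE : Emb a b R H Λ)
    (hH : Mod a b r t ε₁ H) (hC : Full a b ε₂ H C) (h0 : 0 ≤ ε) (h1 : 0 ≤ ε₁) (h2 : 0 ≤ ε₂)
    (hs : ε + ε₁ + ε₂ ≤ 1 / 2) {p q : L} (hp : a ≤ p) (hpq : p ≤ q) (hqb : q ≤ b) (v : V) (hv : Λ v ∈ C) :
    Real.exp (t * (r q - r p) - 4 * (ε + ε₁ + ε₂)) ≤ ncl (R p) {w | R q v w ∧ Λ w ∈ C} := by
  have hr' : Val (Set.Icc a b) r :=
    ⟨fun x hx y hy h => hr.lt x hx.1 y hy.1 h, fun x hx y hy => hr.add x hx.1 y hy.1⟩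
  have hR' : Nearly (Set.Icc a b) r t ε R :=
    ⟨fun x hx y hy => hR.inf x hx.1 y hy.1, fun p hp q hq h v => hR.lo p hp.1 q hq.1 h v,
      fun p hp q hq h v => hR.hi p hp.1 q hq.1 h v⟩
  exact core (D := Set.Icc a b) (fun x hx y hy => ⟨⟨le_inf hx.1 hy.1, inf_le_left.trans hx.2⟩,
    ⟨hx.1.trans le_sup_left, sup_le hx.2 hy.2⟩⟩) (fun x hx hxb => ⟨hx, hxb⟩) (fun x hx => hx.2) hab hr' hR' hE hH hC
    h0 h1 h2 hs ⟨hp, hpq.trans hqb⟩ ⟨hp.trans hpq, hqb⟩ hpq v hv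

theorem up {L V K : Type} [Lattice L] [Finite V] [AddCommGroup K] [Finite K] {a b : L}
    {r : L → ℝ} {t ε ε₁ ε₂ δ : ℝ} {R : L → Setoid V} {H : L → AddSubgroup K} {Λ : V → K} {C : Set K}
    (hab : a ≤ b) (hr : Val (Set.Ici a) r) (hR : Nearly (Set.Ici a) r t ε R) (hE : Emb a b R H Λ)
    (hH : Mod a b r t ε₁ H) (hC : Full a b ε₂ H C) (h0 : 0 ≤ ε) (h1 : 0 ≤ ε₁) (h2 : 0 ≤ ε₂)
    (hs : ε + ε₁ + ε₂ ≤ 1 / 2) (hδ : 0 ≤ δ) (hδ2 : δ ≤ 1 / 2)
    (hev : ∀ q, a ≤ q → ¬ q ≤ b → ∀ v, (1 - δ) * cnt (R b) (R q) v ≤ ncl (R b) {w | R q v w ∧ Λ w ∈ C})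
    {p q : L} (hp : a ≤ p) (hpq : p ≤ q) (v : V) (hv : Λ v ∈ C) :
    Real.exp (t * (r q - r p) - (5 * (ε + ε₁ + ε₂) + 2 * δ)) ≤ ncl (R p) {w | R q v w ∧ Λ w ∈ C} := by
  have haq : a ≤ q := hp.trans hpq
  by_cases hqb : q ≤ b
  · refine le_trans (Real.exp_le_exp.2 ?_) (up_core hab hr hR hE hH hC h0 h1 h2 hs hp hpq hqb v hv)
    linarith
  by_cases hpb : p ≤ b
  · have hu : a ≤ q ⊓ b := le_inf haq hab
    have hpu : p ≤ q ⊓ b := le_inf hpq hpb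
    have hM : R p ≤ R b := hR.mono hp hab hpb
    have hk : ∀ w ∈ {w | R q v w ∧ Λ w ∈ C}, Real.exp (t * (r (q ⊓ b) - r p) - 4 * (ε + ε₁ + ε₂)) ≤
        ncl (R p) ({w | R q v w ∧ Λ w ∈ C} ∩ {w' | R b w w'}) := by
      intro w hw
      refine le_trans (up_core hab hr hR hE hH hC h0 h1 h2 hs hp hpu inf_le_right w hw.2) ?_
      norm_cast
      refine ncl_mono (R p) ?_
      intro w' hw'
      have h3 : (R q ⊓ R b) w w' := by
        rw [← hR.inf q haq b hab]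
        exact hw'.1
      exact ⟨⟨(R q).trans hw.1 h3.1, hw'.2⟩, h3.2⟩
    have h4 := ncl_fiber_ge hM {w | R q v w ∧ Λ w ∈ C} {w | R q v w ∧ Λ w ∈ C} subset_rfl _ (Real.exp_pos _).le hk
    refine le_trans ?_ h4
    have h5 := hev q haq hqb v
    have h6 := hR.lo' (p := b) (q := q) hab haq (le_inf hab haq) v
    rw [inf_comm b q] at h6
    have h7 := up_one_sub hδ hδ2
    have h8 : Real.exp (-(2 * δ)) * Real.exp (t * (r q - r (q ⊓ b)) - ε) ≤
        (ncl (R b) {w | R q v w ∧ Λ w ∈ C} : ℝ) := by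
      refine le_trans ?_ h5
      exact mul_le_mul h7 h6 (Real.exp_pos _).le (by linarith)
    refine le_trans ?_ (mul_le_mul_of_nonneg_right h8 (Real.exp_pos _).le)
    rw [← Real.exp_add, ← Real.exp_add]
    refine Real.exp_le_exp.2 ?_
    have : t * (r q - r p) = t * (r q - r (q ⊓ b)) + t * (r (q ⊓ b) - r p) := by ring
    linarith
  · have h3 : cnt (R p) (R q) v ≤ ncl (R p) {w | R q v w ∧ Λ w ∈ C} := by
      unfold cnt
      refine ncl_le_rel (R p) (R p) _ _ (fun w w' => R p w w') ?_ ?_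
      · intro w hw
        have h5 := hev p hp hpb w
        have h6 : (1 : ℝ) ≤ cnt (R b) (R p) w := by exact_mod_cast cnt_pos (R b) (R p) w
        have h7 : {w' | R p w w' ∧ Λ w' ∈ C}.Nonempty := by
          by_contra hne
          rw [Set.not_nonempty_iff_eq_empty] at hne
          rw [hne] at h5
          have h8 : ncl (R b) (∅ : Set V) = 0 := by
            unfold ncl
            rw [Set.image_empty, Set.ncard_empty]
          rw [h8, Nat.cast_zero] at h5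
          nlinarith
        obtain ⟨w', hw', hC'⟩ := h7
        exact ⟨w', ⟨(R q).trans hw (hR.mono hp haq hpq hw'), hC'⟩, hw'⟩
      · intro w _ w' _ k _ k' _ e e' hkk
        exact (R p).trans e ((R p).trans hkk ((R p).symm e'))
    have h4 := hR.lo p hp q haq hpq v
    refine le_trans ?_ (le_trans h4 (by exact_mod_cast h3))
    refine Real.exp_le_exp.2 ?_
    linarith

end H41.NU
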