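import Pool.Agent.H41.NU.GlueA
import Pool.Agent.H41.NU.Up
import Pool.Agent.H41.NU.FullV

/-! # NU.GlueB : the glued representation is nearly uniform (about 150 lines)

`X = Base Λ M` is finite and not empty: for a `v : V` the set `Λ '' {w | R₂ b v w}` has at least `exp (-(ε + ε₁)) |K|` elements and `Set.range M` as well (`full_of_emb` for `x = b`, `H b = ⊤`; `R₁ b` has one class), together more than `|K|`. Put `R = rel b R₂ R₁ Λ M`, meets by `rel_inf`. `C = Set.range M` is full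
(`full_of_emb` for `W`, `Set.range M = M '' {w' | R₁ b w w'}`), and `C_v = Λ '' {v' | R₂ b v v'}` is full. Counts for `p ≤ q` and `s = (v, w)`:
(i) `q ≤ b`: the classes of `R p` in the `R q`-class of `s` correspond to the classes of `R₁ p` in `{w' | R₁ q w w' ∧ M w' ∈ C_v}` (`ncl_le_rel` in both directions): at most `cnt (R₁ p) (R₁ q) w` and at least `exp (t (r q - r p) - 8 (ε + ε₁))` by `core` with `D = Set.Iic b`, `ε₂ = ε + ε₁` (`M w = Λ v ∈ C_v`).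
(ii) `a ≤ p`: they correspond to the classes of `R₂ p` in `{v' | R₂ q v v' ∧ Λ v' ∈ C}`: at most `cnt (R₂ p) (R₂ q) v`, at least `exp (t (r q - r p) - (10 (ε + ε₁) + 2 δ))` by `up`. (iii) not `a ≤ p` (so `p ≤ b`) and not `q ≤ b` (so `a ≤ q`): put `m = p ⊔ a`, `a ≤ m ≤ b`, `m ≤ q`, `p ≤ m`: `ncl_fiber_ge`, `ncl_fiber_le` with
`S = R p`, `M = R m` on the `R q`-class of `s`: every fibre is an `R m`-class of the glued representation (case (i)), the number of `R m`-classes is case (ii). -/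

namespace H41.NU

private theorem glueB_low {L V W K : Type} [Lattice L] [Finite V] [Finite W] [AddCommGroup K]
    [Finite K] {a b : L} (hab : a ≤ b) {r : L → ℝ} (hr : Val Set.univ r)
    {t ε ε₁ : ℝ} (h0 : 0 ≤ ε) (h1 : 0 ≤ ε₁) (hs : ε + ε₁ ≤ 1 / 4)
    {R₂ : L → Setoid V} {R₁ : L → Setoid W} (n2 : Nearly (Set.Ici a) r t ε R₂) (n1 : Nearly (Set.Iic b) r t ε R₁)
    {H : L → AddSubgroup K} (hH : Mod a b r t ε₁ H) {Λ : V → K} {M : W → K}
    (hΛ : Emb a b R₂ H Λ) (hM : Emb a b R₁ H M) {p q : L} (hpq : p ≤ q) (hq : q ≤ b) (s : Base Λ M) :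
    Real.exp (t * (r q - r p) - 8 * (ε + ε₁)) ≤ cnt (rel b R₂ R₁ Λ M p) (rel b R₂ R₁ Λ M q) s ∧
    (cnt (rel b R₂ R₁ Λ M p) (rel b R₂ R₁ Λ M q) s : ℝ) ≤ Real.exp (t * (r q - r p) + ε) := by
  have hp : p ≤ b := hpq.trans hq
  have hfull : Full a b (ε + ε₁) H (Λ '' {w | R₂ b s.1.1 w}) :=
    full_of_emb (D := Set.Ici a) (fun x hx _ => hx) hab n2 hΛ hH s.1.1
  constructor
  · have hv : M s.1.2 ∈ Λ '' {w | R₂ b s.1.1 w} := ⟨s.1.1, (R₂ b).refl' _, s.2⟩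
    have c1 := core (D := Set.Iic b) (a := a) (b := b) (r := r) (t := t) (ε := ε) (ε₁ := ε₁) (ε₂ := ε + ε₁)
      (R := R₁) (H := H) (Λ := M) (C := Λ '' {w | R₂ b s.1.1 w})
      (fun x hx y hy => ⟨(inf_le_left.trans hx : x ⊓ y ≤ b), (sup_le hx hy : x ⊔ y ≤ b)⟩)
      (fun x _ hx => hx) (fun x hx => hx) hab
      ⟨fun x _ y _ => hr.lt x trivial y trivial, fun x _ y _ => hr.add x trivial y trivial⟩ n1 hM hH hfull h0 h1
      (by linarith) (by linarith) (p := p) (q := q) hp hq hpq s.1.2 hv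
    have c2 : ncl (R₁ p) {w | R₁ q s.1.2 w ∧ M w ∈ Λ '' {w | R₂ b s.1.1 w}} ≤
        cnt (rel b R₂ R₁ Λ M p) (rel b R₂ R₁ Λ M q) s := by
      refine ncl_le_rel (R₁ p) (rel b R₂ R₁ Λ M p) _ _ (fun w s' => s'.1.2 = w) ?_ ?_
      · rintro w ⟨hw, v', hv', hvw⟩
        exact ⟨⟨(v', w), hvw⟩, (rel_low hq s _).2 ⟨hv', hw⟩, rfl⟩
      · rintro w _ w' _ s1 _ s2 _ rfl rfl hT
        exact ((rel_low hp s1 s2).1 hT).2
    refine le_trans ?_ (c1.trans (by exact_mod_cast c2))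
    refine Real.exp_le_exp.2 (le_of_eq ?_)
    ring
  · have c2 : cnt (rel b R₂ R₁ Λ M p) (rel b R₂ R₁ Λ M q) s ≤ cnt (R₁ p) (R₁ q) s.1.2 := by
      refine ncl_le_rel (rel b R₂ R₁ Λ M p) (R₁ p) _ _ (fun s' w => s'.1.2 = w) ?_ ?_
      · intro s' hs'
        exact ⟨s'.1.2, ((rel_low hq s s').1 hs').2, rfl⟩
      · rintro s1 hs1 s2 hs2 w _ w' _ rfl rfl hT
        exact (rel_low hp s1 s2).2 ⟨(R₂ b).trans' ((R₂ b).symm' ((rel_low hq s s1).1 hs1).1)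
          ((rel_low hq s s2).1 hs2).1, hT⟩
    exact le_trans (by exact_mod_cast c2) (n1.hi p hp q hq hpq s.1.2)

private theorem glueB_up {L V W K : Type} [Lattice L] [Finite V] [Finite W] [AddCommGroup K]
    [Finite K] {a b : L} (hab : a ≤ b) {r : L → ℝ} (hr : Val Set.univ r)
    {t ε ε₁ δ : ℝ} (h0 : 0 ≤ ε) (h1 : 0 ≤ ε₁) (hs : ε + ε₁ ≤ 1 / 4) (hδ : 0 ≤ δ) (hδ2 : δ ≤ 1 / 2)
    {R₂ : L → Setoid V} {R₁ : L → Setoid W} (n2 : Nearly (Set.Ici a) r t ε R₂) (n1 : Nearly (Set.Iic b) r t ε R₁)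
    (hW : ∀ w w', R₁ b w w') {H : L → AddSubgroup K} (hH : Mod a b r t ε₁ H) {Λ : V → K} {M : W → K}
    (hΛ : Emb a b R₂ H Λ) (hM : Emb a b R₁ H M)
    (hev : ∀ q, a ≤ q → ¬ q ≤ b → ∀ v,
      (1 - δ) * cnt (R₂ b) (R₂ q) v ≤ ncl (R₂ b) {w | R₂ q v w ∧ Λ w ∈ Set.range M})
    {p q : L} (hap : a ≤ p) (hpq : p ≤ q) (s : Base Λ M) :
    Real.exp (t * (r q - r p) - (10 * (ε + ε₁) + 2 * δ)) ≤ cnt (rel b R₂ R₁ Λ M p) (rel b R₂ R₁ Λ M q) s ∧
    (cnt (rel b R₂ R₁ Λ M p) (rel b R₂ R₁ Λ M q) s : ℝ) ≤ Real.exp (t * (r q - r p) + ε) := by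
  have haq : a ≤ q := hap.trans hpq
  have i2 : ∀ x y, a ≤ x → a ≤ y → R₂ (x ⊓ y) = R₂ x ⊓ R₂ y := fun x y hx hy => n2.inf x hx y hy
  have ru : ∀ {x : L}, a ≤ x → ∀ s s' : Base Λ M, rel b R₂ R₁ Λ M x s s' ↔ R₂ x s.1.1 s'.1.1 :=
    fun hx s s' => rel_up hab i2 hW hΛ hM hx s s'
  have hfull : Full a b (ε + ε₁) H (Set.range M) := by
    have h := full_of_emb (D := Set.Iic b) (fun x _ hx => hx) hab n1 hM hH s.1.2
    have e : M '' {w | R₁ b s.1.2 w} = Set.range M := by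
      have : {w | R₁ b s.1.2 w} = Set.univ := Set.eq_univ_of_forall fun w => hW _ w
      rw [this, Set.image_univ]
    rwa [e] at h
  constructor
  · have hv : Λ s.1.1 ∈ Set.range M := ⟨s.1.2, s.2.symm⟩
    have c1 := up (a := a) (b := b) (r := r) (t := t) (ε := ε) (ε₁ := ε₁) (ε₂ := ε + ε₁) (δ := δ)
      (R := R₂) (H := H) (Λ := Λ) (C := Set.range M) hab
      ⟨fun x _ y _ => hr.lt x trivial y trivial, fun x _ y _ => hr.add x trivial y trivial⟩ n2 hΛ hH hfull h0 h1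
      (by linarith) (by linarith) hδ hδ2 hev (p := p) (q := q) hap hpq s.1.1 hv
    have c2 : ncl (R₂ p) {w | R₂ q s.1.1 w ∧ Λ w ∈ Set.range M} ≤
        cnt (rel b R₂ R₁ Λ M p) (rel b R₂ R₁ Λ M q) s := by
      refine ncl_le_rel (R₂ p) (rel b R₂ R₁ Λ M p) _ _ (fun v s' => s'.1.1 = v) ?_ ?_
      · rintro v ⟨hv, w, hvw⟩
        exact ⟨⟨(v, w), hvw.symm⟩, (ru haq s _).2 hv, rfl⟩
      · rintro w _ w' _ s1 _ s2 _ rfl rfl hT
        exact (ru hap s1 s2).1 hT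
    refine le_trans ?_ (c1.trans (by exact_mod_cast c2))
    refine Real.exp_le_exp.2 (le_of_eq ?_)
    ring
  · have c2 : cnt (rel b R₂ R₁ Λ M p) (rel b R₂ R₁ Λ M q) s ≤ cnt (R₂ p) (R₂ q) s.1.1 := by
      refine ncl_le_rel (rel b R₂ R₁ Λ M p) (R₂ p) _ _ (fun s' v => s'.1.1 = v) ?_ ?_
      · intro s' hs'
        exact ⟨s'.1.1, (ru haq s s').1 hs', rfl⟩
      · rintro s1 _ s2 _ w _ w' _ rfl rfl hT
        exact (ru hap s1 s2).2 hT
    exact le_trans (by exact_mod_cast c2) (n2.hi p hap q haq hpq s.1.1)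

private theorem glueB_base {L V W K : Type} [Lattice L] [Finite V] [Nonempty V] [Finite W] [Nonempty W]
    [AddCommGroup K] [Finite K] {a b : L} (hab : a ≤ b) {r : L → ℝ}
    {t ε ε₁ : ℝ} (hs : ε + ε₁ ≤ 1 / 4)
    {R₂ : L → Setoid V} {R₁ : L → Setoid W} (n2 : Nearly (Set.Ici a) r t ε R₂) (n1 : Nearly (Set.Iic b) r t ε R₁)
    {H : L → AddSubgroup K} (hH : Mod a b r t ε₁ H) {Λ : V → K} {M : W → K}
    (hΛ : Emb a b R₂ H Λ) (hM : Emb a b R₁ H M) : Nonempty (Base Λ M) := by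
  obtain ⟨v⟩ := ‹Nonempty V›
  obtain ⟨w⟩ := ‹Nonempty W›
  have f2 := full_of_emb (D := Set.Ici a) (fun x hx _ => hx) hab n2 hΛ hH v b hab le_rfl (Λ v)
    ⟨v, (R₂ b).refl' _, rfl⟩
  have f1 := full_of_emb (D := Set.Iic b) (fun x _ hx => hx) hab n1 hM hH w b hab le_rfl (M w)
    ⟨w, (R₁ b).refl' _, rfl⟩
  set X : Set K := {l | l ∈ Λ '' {w | R₂ b v w} ∧ l - Λ v ∈ H b} with hX
  set Y : Set K := {l | l ∈ M '' {w' | R₁ b w w'} ∧ l - M w ∈ H b} with hY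
  have hcard : (Nat.card (H b) : ℝ) = Nat.card K := by
    rw [hH.top]
    norm_cast
    exact Nat.card_congr AddSubgroup.topEquiv.toEquiv
  rw [hcard] at f1 f2
  have hK : (0 : ℝ) < Nat.card K := by exact_mod_cast Nat.card_pos
  have he : (3 : ℝ) / 4 ≤ Real.exp (-(ε + ε₁)) := by
    have := Real.add_one_le_exp (-(ε + ε₁))
    linarith
  have hmeet : (X ∩ Y).Nonempty := by
    by_contra hne
    rw [Set.not_nonempty_iff_eq_empty] at hne
    have k1 := Set.ncard_union_add_ncard_inter X Y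
    rw [hne, Set.ncard_empty, add_zero] at k1
    have k2 : (X ∪ Y).ncard ≤ Nat.card K := by
      have := Set.ncard_le_ncard (Set.subset_univ (X ∪ Y))
      rwa [Set.ncard_univ] at this
    rw [k1] at k2
    have k3 : ((X.ncard : ℝ) + (Y.ncard : ℝ)) ≤ Nat.card K := by exact_mod_cast k2
    have k4 : (3 : ℝ) / 4 * Nat.card K ≤ Real.exp (-(ε + ε₁)) * Nat.card K :=
      mul_le_mul_of_nonneg_right he hK.le
    linarith
  obtain ⟨k, ⟨⟨v', _, hv'⟩, _⟩, ⟨⟨w', _, hw'⟩, _⟩⟩ := hmeet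
  exact ⟨⟨(v', w'), hv'.trans hw'.symm⟩⟩

theorem glue_nearly {L V W K : Type} [Lattice L] [Finite V] [Nonempty V] [Finite W] [Nonempty W] [AddCommGroup K]
    [Finite K] {a b : L} (hab : a ≤ b) (hcov : ∀ x : L, x ≤ b ∨ a ≤ x) {r : L → ℝ} (hr : Val Set.univ r)
    {t ε ε₁ δ : ℝ} (h0 : 0 ≤ ε) (h1 : 0 ≤ ε₁) (hs : ε + ε₁ ≤ 1 / 4) (hδ : 0 ≤ δ) (hδ2 : δ ≤ 1 / 2)
    {R₂ : L → Setoid V} {R₁ : L → Setoid W} (n2 : Nearly (Set.Ici a) r t ε R₂) (n1 : Nearly (Set.Iic b) r t ε R₁)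
    (hW : ∀ w w', R₁ b w w') {H : L → AddSubgroup K} (hH : Mod a b r t ε₁ H) {Λ : V → K} {M : W → K}
    (hΛ : Emb a b R₂ H Λ) (hM : Emb a b R₁ H M)
    (hev : ∀ q, a ≤ q → ¬ q ≤ b → ∀ v,
      (1 - δ) * cnt (R₂ b) (R₂ q) v ≤ ncl (R₂ b) {w | R₂ q v w ∧ Λ w ∈ Set.range M}) :
    ∃ (X : Type) (_ : Finite X) (_ : Nonempty X) (R : L → Setoid X),
      Nearly Set.univ r t (18 * (ε + ε₁) + 2 * δ) R := by
  have i2 : ∀ x y, a ≤ x → a ≤ y → R₂ (x ⊓ y) = R₂ x ⊓ R₂ y := fun x y hx hy => n2.inf x hx y hy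
  have i1 : ∀ x y, x ≤ b → y ≤ b → R₁ (x ⊓ y) = R₁ x ⊓ R₁ y := fun x y hx hy => n1.inf x hx y hy
  have hinf : ∀ x y, rel b R₂ R₁ Λ M (x ⊓ y) = rel b R₂ R₁ Λ M x ⊓ rel b R₂ R₁ Λ M y := fun x y =>
    rel_inf hab hcov i2 i1 hW hΛ hM x y
  have hmono : ∀ {x y : L}, x ≤ y → rel b R₂ R₁ Λ M x ≤ rel b R₂ R₁ Λ M y := by
    intro x y hxy
    have h := hinf x y
    rw [inf_eq_left.mpr hxy] at h
    rw [h]
    exact inf_le_right
  have hE : 0 ≤ ε + ε₁ := by linarith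
  -- the two bounds together
  have key : ∀ p q, p ≤ q → ∀ s : Base Λ M,
      Real.exp (t * (r q - r p) - (18 * (ε + ε₁) + 2 * δ)) ≤ cnt (rel b R₂ R₁ Λ M p) (rel b R₂ R₁ Λ M q) s ∧
      (cnt (rel b R₂ R₁ Λ M p) (rel b R₂ R₁ Λ M q) s : ℝ) ≤
        Real.exp (t * (r q - r p) + (18 * (ε + ε₁) + 2 * δ)) := by
    intro p q hpq s
    by_cases hqb : q ≤ b
    · obtain ⟨c1, c2⟩ := glueB_low hab hr h0 h1 hs n2 n1 hH hΛ hM hpq hqb s
      exact ⟨(Real.exp_le_exp.2 (by linarith)).trans c1, c2.trans (Real.exp_le_exp.2 (by linarith))⟩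
    · by_cases hap : a ≤ p
      · obtain ⟨c1, c2⟩ := glueB_up hab hr h0 h1 hs hδ hδ2 n2 n1 hW hH hΛ hM hev hap hpq s
        exact ⟨(Real.exp_le_exp.2 (by linarith)).trans c1, c2.trans (Real.exp_le_exp.2 (by linarith))⟩
      · have hpb : p ≤ b := (hcov p).resolve_right hap
        have haq : a ≤ q := (hcov q).resolve_left hqb
        have ham : a ≤ p ⊔ a := le_sup_right
        have hpm : p ≤ p ⊔ a := le_sup_left
        have hmb : p ⊔ a ≤ b := sup_le hpb hab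
        have hmq : p ⊔ a ≤ q := sup_le hpq haq
        set m := p ⊔ a with hm
        obtain ⟨u1, u2⟩ := glueB_up hab hr h0 h1 hs hδ hδ2 n2 n1 hW hH hΛ hM hev ham hmq s
        have hfib : ∀ s' ∈ {s' | rel b R₂ R₁ Λ M q s s'},
            {s' | rel b R₂ R₁ Λ M q s s'} ∩ {w | rel b R₂ R₁ Λ M m s' w} = {w | rel b R₂ R₁ Λ M m s' w} := by
          intro s' hs'
          refine Set.inter_eq_right.2 ?_
          intro w hw
          exact (rel b R₂ R₁ Λ M q).trans' hs' (hmono hmq hw)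
        constructor
        · have g := ncl_fiber_ge (S := rel b R₂ R₁ Λ M p) (M := rel b R₂ R₁ Λ M m) (hmono hpm)
            {s' | rel b R₂ R₁ Λ M q s s'} {s' | rel b R₂ R₁ Λ M q s s'} le_rfl
            (Real.exp (t * (r m - r p) - 8 * (ε + ε₁))) (Real.exp_pos _).le (by
              intro s' hs'
              rw [hfib s' hs']
              exact (glueB_low hab hr h0 h1 hs n2 n1 hH hΛ hM hpm hmb s').1)
          refine le_trans (le_of_eq ?_) ((mul_le_mul_of_nonneg_right u1 (Real.exp_pos _).le).trans g)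
          rw [← Real.exp_add]
          congr 1
          ring
        · have g := ncl_fiber_le (S := rel b R₂ R₁ Λ M p) (M := rel b R₂ R₁ Λ M m) (hmono hpm)
            {s' | rel b R₂ R₁ Λ M q s s'}
            (Real.exp (t * (r m - r p) + ε)) (by
              intro s' hs'
              rw [hfib s' hs']
              exact (glueB_low hab hr h0 h1 hs n2 n1 hH hΛ hM hpm hmb s').2)
          refine g.trans ((mul_le_mul_of_nonneg_right u2 (Real.exp_pos _).le).trans ?_)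
          rw [← Real.exp_add]
          refine Real.exp_le_exp.2 ?_
          have : t * (r q - r m) + ε + (t * (r m - r p) + ε) = t * (r q - r p) + 2 * ε := by ring
          rw [this]
          linarith
  exact ⟨Base Λ M, inferInstance, glueB_base hab hs n2 n1 hH hΛ hM, rel b R₂ R₁ Λ M,
    ⟨fun x _ y _ => hinf x y, fun p _ q _ hpq s => (key p q hpq s).1, fun p _ q _ hpq s => (key p q hpq s).2⟩⟩

end H41.NU
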