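import Pool.Agent.H41.NU.Def

/-! # NU.Irr : the irreducible covers of a distributive interval (about 150 lines)

`Jf a b` = the pairs `(m, m')`, `a ≤ m < m' ≤ b`, such that `m'` is the only upper cover of `m` in the interval `[a, b]`, in the form: every `y ≤ b` with `m < y` satisfies `m' ≤ y`.
`exists_J`: take `m` maximal among the elements with `x ≤ m ≤ b` and not `y ≤ m` (`x` is one of them), and `m' = m ⊔ y`: if `m < w ≤ b` then `y ≤ w` by maximality, so `m' ≤ w`.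
`J_unique`: `x < y ≤ b` where `y` covers `x`, and `z, z' ∈ Jf a b` with `x ≤ z.1`, not `y ≤ z.1`, and the same for `z'`. Then `z.1 ⊓ y = x = z'.1 ⊓ y` (cover), so by distributivity `(z.1 ⊔ z'.1) ⊓ y = x`. If `z.1 ≠ z'.1`, one of them, say `z.1`, is smaller than
`z.1 ⊔ z'.1 ≤ b`, so `z.2 ≤ z.1 ⊔ z'.1`; but `z.1 < z.1 ⊔ y` gives `z.2 ≤ z.1 ⊔ y`, and by distributivity `z.2 = z.2 ⊓ (z.1 ⊔ y) = z.1 ⊔ (z.2 ⊓ y)`, so `z.2 ⊓ y` is not `≤ z.1`, in particular it is not `x`, hence (cover, `x ≤ z.2 ⊓ y`) it is `y`, `y ≤ z.2 ≤ z.1 ⊔ z'.1`, contradiction to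
`(z.1 ⊔ z'.1) ⊓ y = x`. So `z.1 = z'.1`, and then `z.2 = z'.2` (both are the least element above). `J_sum`: induction along covers from `a` to `x` (well-founded induction, `L` finite): for `x = a` the filter is empty (`a ≤ z.1` always); if `x` is covered by `y` in the
interval the filter for `y` is the filter for `x` together with the unique `z` with `x ≤ z.1`, not `y ≤ z.1` (exists by `exists_J`), with `y ≤ z.2`; `z.1 ⊔ y = z.2` and `z.1 ⊓ y = x`, so `r z.2 - r z.1 = r y - r x` by `hr.add`. -/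

namespace H41.NU

/-- pairs of an element of `[a, b]` and its unique upper cover in `[a, b]` -/
def Jset {L : Type} [Lattice L] (a b : L) : Set (L × L) :=
  {z | a ≤ z.1 ∧ z.1 < z.2 ∧ z.2 ≤ b ∧ ∀ y, y ≤ b → z.1 < y → z.2 ≤ y}

/-- the same as a finset -/
noncomputable def Jf {L : Type} [Lattice L] [Finite L] (a b : L) : Finset (L × L) :=
  (Set.toFinite (Jset a b)).toFinset

theorem mem_Jf {L : Type} [Lattice L] [Finite L] {a b : L} {z : L × L} :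
    z ∈ Jf a b ↔ a ≤ z.1 ∧ z.1 < z.2 ∧ z.2 ≤ b ∧ ∀ y, y ≤ b → z.1 < y → z.2 ≤ y := by
  unfold Jf
  rw [Set.Finite.mem_toFinset]
  rfl

theorem exists_J {L : Type} [Lattice L] [Finite L] {a b x y : L} (hax : a ≤ x) (hxy : x < y) (hyb : y ≤ b) :
    ∃ z ∈ Jf a b, x ≤ z.1 ∧ ¬ y ≤ z.1 ∧ y ≤ z.2 := by
  have hne : ({m : L | x ≤ m ∧ m ≤ b ∧ ¬ y ≤ m}).Nonempty :=
    ⟨x, le_refl x, le_trans hxy.le hyb, fun h => absurd hxy (not_lt_of_ge h)⟩
  obtain ⟨m, hm⟩ := (Set.toFinite {m : L | x ≤ m ∧ m ≤ b ∧ ¬ y ≤ m}).exists_maximal hne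
  have hm1 : x ≤ m ∧ m ≤ b ∧ ¬ y ≤ m := hm.1
  have hlt : m < m ⊔ y := lt_of_le_of_ne le_sup_left (fun h => hm1.2.2 (by rw [h]; exact le_sup_right))
  refine ⟨(m, m ⊔ y), ?_, hm1.1, hm1.2.2, le_sup_right⟩
  rw [mem_Jf]
  refine ⟨le_trans hax hm1.1, hlt, sup_le hm1.2.1 hyb, ?_⟩
  intro w hwb hmw
  apply sup_le hmw.le
  by_contra hyw
  have hw : w ∈ {m : L | x ≤ m ∧ m ≤ b ∧ ¬ y ≤ m} := ⟨le_trans hm1.1 hmw.le, hwb, hyw⟩
  exact absurd hmw (not_lt_of_ge (hm.2 hw hmw.le))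

private theorem irr_half {L : Type} [Lattice L] [Finite L] {a b lo hi : L}
    (hd : ∀ x y z, a ≤ x → x ≤ b → a ≤ y → y ≤ b → a ≤ z → z ≤ b → x ⊓ (y ⊔ z) = (x ⊓ y) ⊔ (x ⊓ z))
    (halo : a ≤ lo) (hc : lo ⋖ hi) (hhib : hi ≤ b) {z z' : L × L} (hz : z ∈ Jf a b) (hz' : z' ∈ Jf a b)
    (h1 : lo ≤ z.1) (h2 : ¬ hi ≤ z.1) (h1' : lo ≤ z'.1) (h2' : ¬ hi ≤ z'.1) : z.1 = z.1 ⊔ z'.1 := by
  rw [mem_Jf] at hz hz'
  obtain ⟨haz, hzz, hzb, hmin⟩ := hz
  obtain ⟨haz', hzz', hzb', hmin'⟩ := hz'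
  have key : ∀ u, lo ≤ u → ¬ hi ≤ u → hi ⊓ u = lo := by
    intro u hu hnu
    rcases hc.eq_or_eq (le_inf hc.le hu) (inf_le_left : hi ⊓ u ≤ hi) with h | h
    · exact h
    · exact absurd (inf_eq_left.mp h) hnu
  have hz1b : z.1 ≤ b := le_trans hzz.le hzb
  have hz1b' : z'.1 ≤ b := le_trans hzz'.le hzb'
  have hahi : a ≤ hi := le_trans halo hc.le
  have hs : hi ⊓ (z.1 ⊔ z'.1) = lo := by
    rw [hd hi z.1 z'.1 hahi hhib haz hz1b haz' hz1b', key _ h1 h2, key _ h1' h2', sup_idem]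
  have hns : ¬ hi ≤ z.1 ⊔ z'.1 := by
    intro h
    rw [inf_eq_left.mpr h] at hs
    exact absurd hs hc.lt.ne'
  by_contra hne
  have hlt : z.1 < z.1 ⊔ z'.1 := lt_of_le_of_ne le_sup_left hne
  have hz2s : z.2 ≤ z.1 ⊔ z'.1 := hmin _ (sup_le hz1b hz1b') hlt
  have hlt2 : z.1 < z.1 ⊔ hi := lt_of_le_of_ne le_sup_left (fun h => h2 (by rw [h]; exact le_sup_right))
  have hz2 : z.2 ≤ z.1 ⊔ hi := hmin _ (sup_le hz1b hhib) hlt2
  have haz2 : a ≤ z.2 := le_trans haz hzz.le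
  have hd2 : z.2 ⊓ (z.1 ⊔ hi) = (z.2 ⊓ z.1) ⊔ (z.2 ⊓ hi) := hd z.2 z.1 hi haz2 hzb haz hz1b hahi hhib
  rw [inf_eq_left.mpr hz2, inf_eq_right.mpr hzz.le] at hd2
  have hlz2 : lo ≤ z.2 ⊓ hi := le_inf (le_trans h1 hzz.le) hc.le
  rcases hc.eq_or_eq hlz2 (inf_le_right : z.2 ⊓ hi ≤ hi) with h | h
  · rw [h, sup_eq_left.mpr h1] at hd2
    exact absurd hd2 hzz.ne'
  · exact hns (le_trans (inf_eq_right.mp h) hz2s)

private theorem irr_unique {L : Type} [Lattice L] [Finite L] {a b lo hi : L}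
    (hd : ∀ x y z, a ≤ x → x ≤ b → a ≤ y → y ≤ b → a ≤ z → z ≤ b → x ⊓ (y ⊔ z) = (x ⊓ y) ⊔ (x ⊓ z))
    (halo : a ≤ lo) (hc : lo ⋖ hi) (hhib : hi ≤ b) {z z' : L × L} (hz : z ∈ Jf a b) (hz' : z' ∈ Jf a b)
    (h1 : lo ≤ z.1) (h2 : ¬ hi ≤ z.1) (h1' : lo ≤ z'.1) (h2' : ¬ hi ≤ z'.1) : z = z' := by
  have e1 : z.1 = z.1 ⊔ z'.1 := irr_half hd halo hc hhib hz hz' h1 h2 h1' h2'
  have e2 : z'.1 = z'.1 ⊔ z.1 := irr_half hd halo hc hhib hz' hz h1' h2' h1 h2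
  have e3 : z.1 = z'.1 := by
    rw [e1, sup_comm, ← e2]
  rw [mem_Jf] at hz hz'
  have f1 : z.2 ≤ z'.2 := hz.2.2.2 _ hz'.2.2.1 (by rw [e3]; exact hz'.2.1)
  have f2 : z'.2 ≤ z.2 := hz'.2.2.2 _ hz.2.2.1 (by rw [← e3]; exact hz.2.1)
  exact Prod.ext e3 (le_antisymm f1 f2)

open Classical in
theorem J_sum {L : Type} [Lattice L] [Finite L] {a b : L} {r : L → ℝ}
    (hd : ∀ x y z, a ≤ x → x ≤ b → a ≤ y → y ≤ b → a ≤ z → z ≤ b → x ⊓ (y ⊔ z) = (x ⊓ y) ⊔ (x ⊓ z))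
    (hr : Val (Set.Icc a b) r) {x : L} (hax : a ≤ x) (hxb : x ≤ b) :
    ∑ z ∈ (Jf a b).filter (fun z => ¬ x ≤ z.1), (r z.2 - r z.1) = r x - r a := by
  induction x using WellFoundedLT.induction with
  | ind x ih =>
    rcases eq_or_lt_of_le hax with h | h
    · subst h
      rw [Finset.sum_eq_zero, sub_self]
      intro z hz
      rw [Finset.mem_filter, mem_Jf] at hz
      exact absurd hz.1.1 hz.2
    · have hne : ({u : L | a ≤ u ∧ u < x}).Nonempty := ⟨a, le_refl a, h⟩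
      obtain ⟨w, hw⟩ := (Set.toFinite {u : L | a ≤ u ∧ u < x}).exists_maximal hne
      have hw1 : a ≤ w ∧ w < x := hw.1
      have hc : w ⋖ x := by
        refine ⟨hw1.2, ?_⟩
        intro c hwc hcx
        have hcm : c ∈ {u : L | a ≤ u ∧ u < x} := ⟨le_trans hw1.1 hwc.le, hcx⟩
        exact absurd hwc (not_lt_of_ge (hw.2 hcm hwc.le))
      have hwb : w ≤ b := le_trans hc.le hxb
      have ihw := ih w hc.lt hw1.1 hwb
      obtain ⟨z0, hz0, g1, g2, g3⟩ := exists_J hw1.1 hc.lt hxb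
      have hsplit : (Jf a b).filter (fun z => ¬ x ≤ z.1)
          = insert z0 ((Jf a b).filter (fun z => ¬ w ≤ z.1)) := by
        ext z
        rw [Finset.mem_insert, Finset.mem_filter, Finset.mem_filter]
        constructor
        · rintro ⟨hz, hxz⟩
          by_cases hwz : w ≤ z.1
          · left
            exact irr_unique hd hw1.1 hc hxb hz hz0 hwz hxz g1 g2
          · right
            exact ⟨hz, hwz⟩
        · rintro (hz | ⟨hz, hwz⟩)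
          · subst hz
            exact ⟨hz0, g2⟩
          · exact ⟨hz, fun hxz => hwz (le_trans hc.le hxz)⟩
      have hnot : z0 ∉ (Jf a b).filter (fun z => ¬ w ≤ z.1) := by
        intro hmem
        rw [Finset.mem_filter] at hmem
        exact hmem.2 g1
      rw [hsplit, Finset.sum_insert hnot, ihw]
      rw [mem_Jf] at hz0
      obtain ⟨k1, k2, k3, k4⟩ := hz0
      have hz1b : z0.1 ≤ b := le_trans k2.le k3
      have hlt : z0.1 < z0.1 ⊔ x := lt_of_le_of_ne le_sup_left (fun h => g2 (by rw [h]; exact le_sup_right))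
      have es : z0.1 ⊔ x = z0.2 := le_antisymm (sup_le k2.le g3) (k4 _ (sup_le hz1b hxb) hlt)
      have ei : z0.1 ⊓ x = w := by
        rcases hc.eq_or_eq (le_inf g1 hc.le) (inf_le_right : z0.1 ⊓ x ≤ x) with h | h
        · exact h
        · exact absurd (inf_eq_right.mp h) g2
      have hadd := hr.add z0.1 ⟨k1, hz1b⟩ x ⟨hax, hxb⟩
      rw [es, ei] at hadd
      linarith

end H41.NU
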