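import Pool.Agent.H41.NU.Irr

/-! # NU.Kmod : the model group of a distributive interval (about 80 lines)

`K = ∀ z : Jf a b, ZMod (n z)`, `Hx n x` = the elements `k` with `k z = 0` for all `z` with `x ≤ z.1`. `Hx n a = ⊥` as `a ≤ z.1` always, `Hx n b = ⊤` since `b ≤ z.1 < z.2 ≤ b` is impossible, monotone is clear. The cardinality of `Hx n x` is the product of the `n z` over the
`z` with not `x ≤ z.1` (`Hx n x` is in bijection with the functions on these `z`), and the product of the bounds `hn` is `exp (t * (r x - r a) ± (number of z) * ε)` by `J_sum`. -/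

namespace H41.NU

/-- the subgroup belonging to `x` -/
def Hx {L : Type} [Lattice L] [Finite L] {a b : L} (n : Jf a b → ℕ) (x : L) :
    AddSubgroup (∀ z : Jf a b, ZMod (n z)) where
  carrier := {k | ∀ z : Jf a b, x ≤ z.1.1 → k z = 0}
  zero_mem' := fun _ _ => rfl
  add_mem' := fun {k l} hk hl z hz => by rw [Pi.add_apply, hk z hz, hl z hz, add_zero]
  neg_mem' := fun {k} hk z hz => by rw [Pi.neg_apply, hk z hz, neg_zero]

open Classical in
private theorem kmod_card {L : Type} [Lattice L] [Finite L] {a b : L} (n : Jf a b → ℕ) (x : L) :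
    Nat.card (Hx n x) = ∏ z : Jf a b, (if x ≤ z.1.1 then 1 else n z) := by
  let e : Hx n x ≃ ∀ z : Jf a b, {c : ZMod (n z) // x ≤ z.1.1 → c = 0} :=
    { toFun := fun k z => ⟨k.1 z, fun h => k.2 z h⟩
      invFun := fun f => ⟨fun z => (f z).1, fun z h => (f z).2 h⟩
      left_inv := fun k => rfl
      right_inv := fun f => rfl }
  rw [Nat.card_congr e, Nat.card_pi]
  refine Finset.prod_congr rfl ?_
  intro z _
  by_cases h : x ≤ z.1.1
  · rw [if_pos h]
    have : Unique {c : ZMod (n z) // x ≤ z.1.1 → c = 0} :=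
      { default := ⟨0, fun _ => rfl⟩
        uniq := fun c => Subtype.ext (c.2 h) }
    exact Nat.card_unique
  · rw [if_neg h]
    have e2 : {c : ZMod (n z) // x ≤ z.1.1 → c = 0} ≃ ZMod (n z) :=
      { toFun := fun c => c.1
        invFun := fun c => ⟨c, fun h' => absurd h' h⟩
        left_inv := fun c => rfl
        right_inv := fun c => rfl }
    rw [Nat.card_congr e2, Nat.card_zmod]

open Classical in
private theorem kmod_exp {L : Type} [Lattice L] [Finite L] {a b : L} {r : L → ℝ}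
    (hd : ∀ x y z, a ≤ x → x ≤ b → a ≤ y → y ≤ b → a ≤ z → z ≤ b → x ⊓ (y ⊔ z) = (x ⊓ y) ⊔ (x ⊓ z))
    (hr : Val (Set.Icc a b) r) {x : L} (hax : a ≤ x) (hxb : x ≤ b) (t δ : ℝ) :
    ∏ z : Jf a b, (if x ≤ z.1.1 then (1 : ℝ) else Real.exp (t * (r z.1.2 - r z.1.1) + δ)) =
      Real.exp (t * (r x - r a) + ((Jf a b).filter (fun z => ¬ x ≤ z.1)).card * δ) := by
  have h1 : ∏ z : Jf a b, (if x ≤ z.1.1 then (1 : ℝ) else Real.exp (t * (r z.1.2 - r z.1.1) + δ)) =
      ∏ z ∈ Jf a b, (if x ≤ z.1 then (1 : ℝ) else Real.exp (t * (r z.2 - r z.1) + δ)) :=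
    Finset.prod_coe_sort (Jf a b) (fun z : L × L => if x ≤ z.1 then (1 : ℝ) else Real.exp (t * (r z.2 - r z.1) + δ))
  have h2 : ∏ z ∈ Jf a b, (if x ≤ z.1 then (1 : ℝ) else Real.exp (t * (r z.2 - r z.1) + δ)) =
      ∏ z ∈ (Jf a b).filter (fun z => ¬ x ≤ z.1), Real.exp (t * (r z.2 - r z.1) + δ) := by
    rw [Finset.prod_filter]
    refine Finset.prod_congr rfl ?_
    intro z _
    by_cases h : x ≤ z.1
    · rw [if_pos h, if_neg (not_not.2 h)]
    · rw [if_neg h, if_pos h]
  rw [h1, h2, ← Real.exp_sum, Finset.sum_add_distrib, ← Finset.mul_sum, J_sum hd hr hax hxb, Finset.sum_const,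
    nsmul_eq_mul]

theorem mod_Hx {L : Type} [Lattice L] [Finite L] {a b : L} (hab : a ≤ b) {r : L → ℝ} {t ε : ℝ} (hε : 0 ≤ ε)
    (hd : ∀ x y z, a ≤ x → x ≤ b → a ≤ y → y ≤ b → a ≤ z → z ≤ b → x ⊓ (y ⊔ z) = (x ⊓ y) ⊔ (x ⊓ z))
    (hr : Val (Set.Icc a b) r) (n : Jf a b → ℕ) (h0 : ∀ z, 0 < n z)
    (hn : ∀ z : Jf a b, Real.exp (t * (r z.1.2 - r z.1.1) - ε) ≤ n z ∧
      (n z : ℝ) ≤ Real.exp (t * (r z.1.2 - r z.1.1) + ε)) :
    Mod a b r t ((Jf a b).card * ε) (Hx n) := by
  classical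
  have hcard : ∀ x, ((((Jf a b).filter (fun z => ¬ x ≤ z.1)).card : ℕ) : ℝ) ≤ (Jf a b).card := by
    intro x
    exact_mod_cast Finset.card_filter_le _ _
  refine ⟨?_, ?_, ?_, ?_, ?_⟩
  · rw [eq_bot_iff]
    intro k hk
    rw [AddSubgroup.mem_bot]
    funext z
    exact hk z (mem_Jf.1 z.2).1
  · rw [eq_top_iff]
    intro k _ z hz
    have hz' := mem_Jf.1 z.2
    exact absurd (lt_of_lt_of_le hz'.2.1 (hz'.2.2.1.trans hz)) (lt_irrefl _)
  · intro x y _ hxy _ k hk z hz
    exact hk z (hxy.trans hz)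
  · intro x hax hxb
    rw [kmod_card]
    push_cast
    have h1 : ∏ z : Jf a b, (if x ≤ z.1.1 then (1 : ℝ) else Real.exp (t * (r z.1.2 - r z.1.1) + -ε)) ≤
        ∏ z : Jf a b, (if x ≤ z.1.1 then (1 : ℝ) else (n z : ℝ)) := by
      refine Finset.prod_le_prod ?_ ?_
      · intro z _
        split_ifs
        · exact zero_le_one
        · exact (Real.exp_pos _).le
      · intro z _
        split_ifs
        · exact le_rfl
        · rw [← sub_eq_add_neg]
          exact (hn z).1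
    refine le_trans ?_ h1
    rw [kmod_exp hd hr hax hxb t (-ε)]
    refine Real.exp_le_exp.2 ?_
    have := mul_le_mul_of_nonneg_right (hcard x) hε
    linarith
  · intro x hax hxb
    rw [kmod_card]
    push_cast
    have h1 : ∏ z : Jf a b, (if x ≤ z.1.1 then (1 : ℝ) else (n z : ℝ)) ≤
        ∏ z : Jf a b, (if x ≤ z.1.1 then (1 : ℝ) else Real.exp (t * (r z.1.2 - r z.1.1) + ε)) := by
      refine Finset.prod_le_prod ?_ ?_
      · intro z _
        split_ifs
        · exact zero_le_one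
        · exact Nat.cast_nonneg _
      · intro z _
        split_ifs
        · exact le_rfl
        · exact (hn z).2
    refine le_trans h1 ?_
    rw [kmod_exp hd hr hax hxb t ε]
    refine Real.exp_le_exp.2 ?_
    have := mul_le_mul_of_nonneg_right (hcard x) hε
    linarith

end H41.NU
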