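import Pool.Agent.H41.NU.Def

/-! # NU.Sel : selection lemma (about 90 lines)

Count the bad functions `g : C → K`. For every `i` for which `g` is bad there is a set `T ⊆ S i` with more than `δ' |S i|` elements (all `c ∈ S i` with `g c ∈ B i c`) such that `g c ∈ B i c` for all `c ∈ T`. For fixed `i`, `T` the number of such `g` is
`∏ (c ∈ T) |B i c| * |K| ^ (|C| - |T|) ≤ δ ^ |T| * |K| ^ |C| ≤ (δ ^ δ') ^ |S i| * |K| ^ |C| ≤ (1/4) ^ |S i| * |K| ^ |C|` (`Fintype.card_piFinset`; `δ ≤ 1`), and there are at most `2 ^ |S i|` sets `T`. So the number of functions which are bad for `i` is at most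
`(1/2) ^ |S i| * |K| ^ |C|` and the total number of bad functions is less than `|K| ^ |C|` by `hsum`. -/

namespace H41.NU

open Classical in
theorem select {C K ι : Type} [Fintype C] [Fintype K] [Nonempty K] [Fintype ι] (S : ι → Finset C)
    (B : ι → C → Finset K) (δ δ' : ℝ) (hδ : 0 < δ) (hδ1 : δ ≤ 1) (hδ' : 0 < δ')
    (hB : ∀ i, ∀ c ∈ S i, ((B i c).card : ℝ) ≤ δ * Fintype.card K) (h4 : δ ^ δ' ≤ 1 / 4)
    (hsum : ∑ i, (1 / 2 : ℝ) ^ (S i).card < 1) :
    ∃ g : C → K, ∀ i, (((S i).filter (fun c => g c ∈ B i c)).card : ℝ) ≤ δ' * (S i).card := by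
  have hK : (0 : ℝ) < Fintype.card K := by exact_mod_cast Fintype.card_pos
  let bad : ι → Finset (C → K) := fun i => Finset.univ.filter fun g =>
    δ' * (S i).card < (((S i).filter (fun c => g c ∈ B i c)).card : ℝ)
  have hbad : ∀ i, ((bad i).card : ℝ) ≤
      (1 / 2 : ℝ) ^ (S i).card * (Fintype.card K : ℝ) ^ (Fintype.card C) := by
    intro i
    let TT : Finset (Finset C) := (S i).powerset.filter fun T => δ' * (S i).card < (T.card : ℝ)
    let F : Finset C → Finset (C → K) := fun T =>
      Fintype.piFinset (fun c => if c ∈ T then B i c else Finset.univ)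
    have hsub : bad i ⊆ TT.biUnion F := by
      intro g hg
      simp only [bad, Finset.mem_filter, Finset.mem_univ, true_and] at hg
      rw [Finset.mem_biUnion]
      refine ⟨(S i).filter (fun c => g c ∈ B i c), ?_, ?_⟩
      · exact Finset.mem_filter.2 ⟨Finset.mem_powerset.2 (Finset.filter_subset _ _), hg⟩
      · simp only [F]
        rw [Fintype.mem_piFinset]
        intro c
        by_cases hc : c ∈ (S i).filter (fun c => g c ∈ B i c)
        · rw [if_pos hc]
          exact (Finset.mem_filter.1 hc).2
        · rw [if_neg hc]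
          exact Finset.mem_univ _
    have hT : ∀ T ∈ TT, ((F T).card : ℝ) ≤
        (1 / 4 : ℝ) ^ (S i).card * (Fintype.card K : ℝ) ^ (Fintype.card C) := by
      intro T hT
      obtain ⟨hT1, hT2⟩ := Finset.mem_filter.1 hT
      rw [Finset.mem_powerset] at hT1
      have h1 : ((F T).card : ℝ) ≤ δ ^ T.card * (Fintype.card K : ℝ) ^ (Fintype.card C) := by
        simp only [F]
        rw [Fintype.card_piFinset]
        push_cast
        calc ∏ c, (((if c ∈ T then B i c else Finset.univ) : Finset K).card : ℝ)
            ≤ ∏ c, ((if c ∈ T then δ else 1) * (Fintype.card K : ℝ)) := by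
              refine Finset.prod_le_prod (fun c _ => by positivity) fun c _ => ?_
              by_cases hc : c ∈ T
              · rw [if_pos hc, if_pos hc]
                exact hB i c (hT1 hc)
              · rw [if_neg hc, if_neg hc, one_mul, Finset.card_univ]
          _ = δ ^ T.card * (Fintype.card K : ℝ) ^ (Fintype.card C) := by
              rw [Finset.prod_mul_distrib, Finset.prod_const, Finset.card_univ]
              congr 1
              rw [Finset.prod_ite, Finset.prod_const, Finset.prod_const_one, mul_one]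
              congr 1
              congr 1
              ext c
              simp
      refine h1.trans (mul_le_mul_of_nonneg_right ?_ (by positivity))
      calc δ ^ T.card = δ ^ (T.card : ℝ) := (Real.rpow_natCast _ _).symm
        _ ≤ δ ^ (δ' * (S i).card) := Real.rpow_le_rpow_of_exponent_ge hδ hδ1 hT2.le
        _ = (δ ^ δ') ^ (S i).card := by rw [Real.rpow_mul hδ.le, Real.rpow_natCast]
        _ ≤ (1 / 4 : ℝ) ^ (S i).card := by
            exact pow_le_pow_left₀ (Real.rpow_nonneg hδ.le _) h4 _
    calc ((bad i).card : ℝ) ≤ ((TT.biUnion F).card : ℝ) := by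
          exact_mod_cast Finset.card_le_card hsub
      _ ≤ ((∑ T ∈ TT, (F T).card : ℕ) : ℝ) := by exact_mod_cast Finset.card_biUnion_le
      _ = ∑ T ∈ TT, ((F T).card : ℝ) := by push_cast; rfl
      _ ≤ ∑ T ∈ TT, (1 / 4 : ℝ) ^ (S i).card * (Fintype.card K : ℝ) ^ (Fintype.card C) :=
          Finset.sum_le_sum hT
      _ = TT.card * ((1 / 4 : ℝ) ^ (S i).card * (Fintype.card K : ℝ) ^ (Fintype.card C)) := by
          rw [Finset.sum_const, nsmul_eq_mul]
      _ ≤ (2 : ℝ) ^ (S i).card *
          ((1 / 4 : ℝ) ^ (S i).card * (Fintype.card K : ℝ) ^ (Fintype.card C)) := by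
          refine mul_le_mul_of_nonneg_right ?_ (by positivity)
          have h2 : TT.card ≤ 2 ^ (S i).card :=
            (Finset.card_filter_le _ _).trans (by rw [Finset.card_powerset])
          exact_mod_cast h2
      _ = (1 / 2 : ℝ) ^ (S i).card * (Fintype.card K : ℝ) ^ (Fintype.card C) := by
          rw [← mul_assoc, ← mul_pow]
          norm_num
  by_contra hcon
  push Not at hcon
  have hcov : (Finset.univ : Finset (C → K)) ⊆ Finset.univ.biUnion bad := by
    intro g _
    obtain ⟨i, hi⟩ := hcon g
    exact Finset.mem_biUnion.2 ⟨i, Finset.mem_univ _, Finset.mem_filter.2 ⟨Finset.mem_univ _, hi⟩⟩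
  have h5 : ((Fintype.card K : ℝ) ^ (Fintype.card C)) ≤
      ∑ i, ((bad i).card : ℝ) := by
    have h6 := (Finset.card_le_card hcov).trans Finset.card_biUnion_le
    rw [Finset.card_univ, Fintype.card_fun] at h6
    exact_mod_cast h6
  have h7 : ∑ i, ((bad i).card : ℝ) ≤
      (∑ i, (1 / 2 : ℝ) ^ (S i).card) * (Fintype.card K : ℝ) ^ (Fintype.card C) := by
    rw [Finset.sum_mul]
    exact Finset.sum_le_sum fun i _ => hbad i
  have h8 : (0 : ℝ) < (Fintype.card K : ℝ) ^ (Fintype.card C) := by positivity
  nlinarith [mul_lt_mul_of_pos_right hsum h8]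

end H41.NU
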